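import Mathlib

/-!
Definitions for the directed Finsler filling area problem: directed Finsler semimetrics on smooth
manifolds (with or without boundary), lengths and distances, and the unnormalised Holmes-Thompson
area of a surface.
-/

open Set MeasureTheory
open scoped Manifold ContDiff ENNReal

noncomputable section

namespace Pool.Agent.Helper30.Filling

section General

variable {E : Type*} [NormedAddCommGroup E] [NormedSpace ℝ E] {H : Type*} [TopologicalSpace H]

/-- A directed Finsler semimetric on a smooth manifold `X`: a continuous nonnegative function on the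
tangent bundle which is positively homogeneous and convex on each tangent space. -/
structure DirectedFinsler (I : ModelWithCorners ℝ E H) (X : Type*) [TopologicalSpace X]
    [ChartedSpace H X] [IsManifold I ∞ X] where
  /-- the underlying function on the tangent bundle -/
  toFun : TangentBundle I X → ℝ
  continuous_toFun : Continuous toFun
  nonneg : ∀ p, 0 ≤ toFun p
  homogeneous : ∀ (x : X) (v : TangentSpace I x) (c : ℝ), 0 ≤ c →
    toFun ⟨x, c • v⟩ = c * toFun ⟨x, v⟩
  convex : ∀ x : X, ConvexOn ℝ univ fun v : TangentSpace I x => toFun ⟨x, v⟩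

variable (I : ModelWithCorners ℝ E H) {X : Type*} [TopologicalSpace X] [ChartedSpace H X]

/-- `γ` (restricted to `[0, 1]`) is a piecewise `C¹` path from `x` to `y`. -/
def IsPiecewiseC1Path (γ : ℝ → X) (x y : X) : Prop :=
  γ 0 = x ∧ γ 1 = y ∧ ∃ (n : ℕ) (t : ℕ → ℝ), Monotone t ∧ t 0 = 0 ∧ t n = 1 ∧
    ∀ i < n, ContMDiffOn 𝓘(ℝ, ℝ) I 1 γ (Icc (t i) (t (i + 1)))

variable {I} [IsManifold I ∞ X]

/-- The length `∫₀¹ F(γ'(t)) dt` of (the restriction to `[0, 1]` of) `γ`. -/
def length (F : DirectedFinsler I X) (γ : ℝ → X) : ℝ≥0∞ :=
  ∫⁻ s in Icc (0 : ℝ) 1, ENNReal.ofReal (F.toFun ⟨γ s, mfderiv 𝓘(ℝ, ℝ) I γ s (1 : ℝ)⟩)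

/-- The directed distance: the infimum of the lengths of piecewise `C¹` paths from `x` to `y`. -/
def directedDist (F : DirectedFinsler I X) (x y : X) : ℝ≥0∞ :=
  ⨅ (γ : ℝ → X) (_ : IsPiecewiseC1Path I γ x y), length F γ

variable {E' : Type*} [NormedAddCommGroup E'] [NormedSpace ℝ E'] {H' : Type*} [TopologicalSpace H']

/-- `ι` identifies the closed curve `C` with the boundary of `M`: it is an injective smooth
immersion of `C` onto the boundary of `M`. -/
def IsBoundaryParametrization (J : ModelWithCorners ℝ E' H') (I : ModelWithCorners ℝ E H)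
    {C : Type*} [TopologicalSpace C] [ChartedSpace H' C]
    {M : Type*} [TopologicalSpace M] [ChartedSpace H M] (ι : C → M) : Prop :=
  ContMDiff J I ∞ ι ∧ Function.Injective ι ∧ (∀ x : C, Function.Injective (mfderiv J I ι x)) ∧
    range ι = I.boundary M

/-- The manifold with boundary `(M, F)` fills `(C, G)` without shortcuts, where `C` is identified
with the boundary of `M` by `ι`. -/
def FillsWithoutShortcuts {J : ModelWithCorners ℝ E' H'} {I : ModelWithCorners ℝ E H}
    {C : Type*} [TopologicalSpace C] [ChartedSpace H' C] [IsManifold J ∞ C]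
    {M : Type*} [TopologicalSpace M] [ChartedSpace H M] [IsManifold I ∞ M]
    (F : DirectedFinsler I M) (G : DirectedFinsler J C) (ι : C → M) : Prop :=
  IsBoundaryParametrization J I ι ∧ ∀ x y : C, directedDist G x y ≤ directedDist F (ι x) (ι y)

end General

section Area

variable {E : Type*} [NormedAddCommGroup E] [InnerProductSpace ℝ E] {H : Type*}
  [TopologicalSpace H] {I : ModelWithCorners ℝ E H}
  {X : Type*} [TopologicalSpace X] [ChartedSpace H X] [IsManifold I ∞ X]

/-- The set `B*_x` of covectors `φ` at `x` with `φ ≤ F` on `T_x X`, in the dual coordinates of the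
chart `e`: the covector with dual coordinates `φ` takes the value `⟪φ, D e_x (v)⟫` at `v ∈ T_x X`. -/
def codisk (F : DirectedFinsler I X) (e : OpenPartialHomeomorph X H) (x : X) : Set E :=
  {φ | ∀ v : TangentSpace I x, inner ℝ φ (mvfderiv I (e.extend I) x v) ≤ F.toFun ⟨x, v⟩}

/-- `μ` is the unnormalised Holmes-Thompson area measure of `F`: in every chart `e` of the smooth
structure it is given by integrating the Lebesgue area of `B*_x` (in the dual coordinates) against
Lebesgue measure (in the coordinates). -/
def IsHolmesThompsonArea [FiniteDimensional ℝ E] [MeasurableSpace E] [BorelSpace E]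
    [MeasurableSpace X] (F : DirectedFinsler I X) (μ : Measure X) : Prop :=
  ∀ e ∈ IsManifold.maximalAtlas I ∞ X, ∀ A ⊆ e.source, MeasurableSet A →
    μ A = ∫⁻ y in e.extend I '' A, volume (codisk F e ((e.extend I).symm y))

end Area

section Surface

/-- A smooth surface, possibly with boundary. -/
abbrev IsSurface (M : Type) [TopologicalSpace M] [ChartedSpace (EuclideanHalfSpace 2) M] : Prop :=
  IsManifold (𝓡∂ 2) ∞ M

/-- A directed Finsler semimetric on a surface. -/
abbrev SurfaceFinsler (M : Type) [TopologicalSpace M] [ChartedSpace (EuclideanHalfSpace 2) M]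
    [IsSurface M] : Type :=
  DirectedFinsler (𝓡∂ 2) M

/-- A directed Finsler semimetric on the circle. -/
abbrev CircleFinsler : Type := DirectedFinsler (𝓡 1) Circle

/-- The circle traversed once counterclockwise, parametrised by `[0, 1]`. -/
def circlePos (s : ℝ) : Circle := Circle.exp (2 * Real.pi * s)

/-- The circle traversed once clockwise, parametrised by `[0, 1]`. -/
def circleNeg (s : ℝ) : Circle := Circle.exp (-(2 * Real.pi * s))

/-- The length of the circle traversed once counterclockwise. -/
def lengthPos (G : CircleFinsler) : ℝ≥0∞ := length G circlePos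

/-- The length of the circle traversed once clockwise. -/
def lengthNeg (G : CircleFinsler) : ℝ≥0∞ := length G circleNeg

/-- The surface `(M, F)` fills the Finsler closed curve `(Circle, G)` without shortcuts, where the
circle is identified with the boundary of `M` by `ι`. -/
def SurfaceFills {M : Type} [TopologicalSpace M] [ChartedSpace (EuclideanHalfSpace 2) M]
    [IsSurface M] (F : SurfaceFinsler M) (G : CircleFinsler) (ι : Circle → M) : Prop :=
  FillsWithoutShortcuts F G ι

/-- `μ` is the unnormalised Holmes-Thompson area measure of the surface `(M, F)`. -/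
def IsAreaMeasure {M : Type} [TopologicalSpace M] [ChartedSpace (EuclideanHalfSpace 2) M]
    [IsSurface M] [MeasurableSpace M] (F : SurfaceFinsler M) (μ : Measure M) : Prop :=
  IsHolmesThompsonArea F μ

end Surface

end Pool.Agent.Helper30.Filling
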