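import Mathlib
import Pool.Agent.Helper30.FillDefs

open Set MeasureTheory Topology
open scoped Manifold ContDiff ENNReal

noncomputable section

namespace Pool.Agent.Helper30.Filling

variable {H : Type*} [TopologicalSpace H]
  {I : ModelWithCorners ℝ (EuclideanSpace ℝ (Fin 2)) H}
  {X : Type*} [TopologicalSpace X] [ChartedSpace H X] [IsManifold I ∞ X]

lemma det_adjoint_eq (f : EuclideanSpace ℝ (Fin 2) →L[ℝ] EuclideanSpace ℝ (Fin 2)) :
    LinearMap.det ((ContinuousLinearMap.adjoint f : _ →L[ℝ] _) :
      EuclideanSpace ℝ (Fin 2) →ₗ[ℝ] EuclideanSpace ℝ (Fin 2)) =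
    LinearMap.det (f : EuclideanSpace ℝ (Fin 2) →ₗ[ℝ] EuclideanSpace ℝ (Fin 2)) := by
  set b := EuclideanSpace.basisFun (Fin 2) ℝ with hb
  have h1 : ((ContinuousLinearMap.adjoint f : _ →L[ℝ] _) :
      EuclideanSpace ℝ (Fin 2) →ₗ[ℝ] EuclideanSpace ℝ (Fin 2)) =
      LinearMap.adjoint (f : EuclideanSpace ℝ (Fin 2) →ₗ[ℝ] EuclideanSpace ℝ (Fin 2)) := rfl
  rw [h1, ← LinearMap.det_toMatrix b.toBasis, LinearMap.toMatrix_adjoint, Matrix.det_conjTranspose,
    LinearMap.det_toMatrix]
  simp

/-- The derivative of the transition map. -/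
def tder (e e' : OpenPartialHomeomorph X H) (I : ModelWithCorners ℝ (EuclideanSpace ℝ (Fin 2)) H)
    (y : EuclideanSpace ℝ (Fin 2)) : EuclideanSpace ℝ (Fin 2) →L[ℝ] EuclideanSpace ℝ (Fin 2) :=
  fderivWithin ℝ (I.extendCoordChange e e') (I.extendCoordChange e e').source y

lemma mvfderiv_chart_change {e e' : OpenPartialHomeomorph X H}
    (he : e ∈ IsManifold.maximalAtlas I ∞ X) (he' : e' ∈ IsManifold.maximalAtlas I ∞ X) {x : X}
    (hx : x ∈ e.source) (hx' : x ∈ e'.source) (v : TangentSpace I x) :
    mvfderiv I (e'.extend I) x v = tder e e' I (e.extend I x) (mvfderiv I (e.extend I) x v) := by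
  have hsrc : e.extend I x ∈ (I.extendCoordChange e e').source := by
    rw [← OpenPartialHomeomorph.extend_image_source_inter]
    exact mem_image_of_mem _ ⟨hx, hx'⟩
  have hf : MDifferentiableAt I 𝓘(ℝ, EuclideanSpace ℝ (Fin 2)) (e.extend I) x :=
    (e.contMDiffAt_extend he hx).mdifferentiableAt (by simp)
  have hg : HasFDerivWithinAt (I.extendCoordChange e e') (tder e e' I (e.extend I x))
      (I.extendCoordChange e e').source (e.extend I x) :=
    ((I.contDiffOn_extendCoordChange he he' _ hsrc).differentiableWithinAt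
      (by simp)).hasFDerivWithinAt
  have hcomp := HasMFDerivWithinAt.comp x hg.hasMFDerivWithinAt
    (hf.hasMFDerivAt.hasMFDerivWithinAt (s := e.source ∩ e'.source))
    (fun y hy => by
      rw [mem_preimage, ← OpenPartialHomeomorph.extend_image_source_inter]
      exact mem_image_of_mem _ hy)
  have hnhds : e.source ∩ e'.source ∈ 𝓝 x :=
    (e.open_source.inter e'.open_source).mem_nhds ⟨hx, hx'⟩
  have h2 := hcomp.hasMFDerivAt hnhds
  have heq : (e'.extend I : X → _) =ᶠ[𝓝 x] (I.extendCoordChange e e') ∘ (e.extend I) := by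
    filter_upwards [hnhds] with y hy
    change _ = e'.extend I ((e.extend I).symm (e.extend I y))
    rw [e.extend_left_inv hy.1]
  have h3 := (h2.congr_of_eventuallyEq heq).mfderiv
  change mfderiv I 𝓘(ℝ, EuclideanSpace ℝ (Fin 2)) (e'.extend I) x v = _
  rw [h3]
  rfl

lemma codisk_chart_change (F : DirectedFinsler I X) {e e' : OpenPartialHomeomorph X H}
    (he : e ∈ IsManifold.maximalAtlas I ∞ X) (he' : e' ∈ IsManifold.maximalAtlas I ∞ X) {x : X}
    (hx : x ∈ e.source) (hx' : x ∈ e'.source) :
    volume (codisk F e x) =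
      ENNReal.ofReal |(tder e e' I (e.extend I x)).det| * volume (codisk F e' x) := by
  have hsrc : e.extend I x ∈ (I.extendCoordChange e e').source := by
    rw [← OpenPartialHomeomorph.extend_image_source_inter]
    exact mem_image_of_mem _ ⟨hx, hx'⟩
  set T := tder e e' I (e.extend I x) with hT
  have hinv : T.IsInvertible :=
    I.isInvertible_fderivWithin_extendCoordChange (n := ∞) (by simp) he he' hsrc
  have hdet : LinearMap.det (T : EuclideanSpace ℝ (Fin 2) →ₗ[ℝ] EuclideanSpace ℝ (Fin 2)) ≠ 0 := by
    obtain ⟨L, hL⟩ := hinv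
    rw [← hL]
    exact (LinearEquiv.isUnit_det' L.toLinearEquiv).ne_zero
  have hset : codisk F e' x = (ContinuousLinearMap.adjoint T) ⁻¹' (codisk F e x) := by
    ext φ
    simp only [codisk, mem_ofPred_eq, mem_preimage]
    refine forall_congr' fun v => ?_
    rw [mvfderiv_chart_change he he' hx hx' v, ContinuousLinearMap.adjoint_inner_left]
  rw [hset, Measure.addHaar_preimage_continuousLinearMap _ (by rw [det_adjoint_eq]; exact hdet),
    det_adjoint_eq, ← mul_assoc, ← ENNReal.ofReal_mul (abs_nonneg _), ← abs_mul]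
  have : T.det * (LinearMap.det (T : EuclideanSpace ℝ (Fin 2) →ₗ[ℝ] EuclideanSpace ℝ (Fin 2)))⁻¹ = 1 :=
    mul_inv_cancel₀ hdet
  rw [this]
  simp

/-- measurability of images under extended charts. -/
lemma measurableSet_extend_image [MeasurableSpace X] [BorelSpace X]
    (e : OpenPartialHomeomorph X H) {A : Set X} (hA : A ⊆ e.source) (hAm : MeasurableSet A) :
    MeasurableSet (e.extend I '' A) := by
  have h1 : e.extend I '' A = Subtype.val ''
      ((fun y : (e.extend I).target => (e.extend I).symm y) ⁻¹' A) := by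
    ext y
    constructor
    · rintro ⟨x, hx, rfl⟩
      refine ⟨⟨e.extend I x, (e.extend I).map_source (by rw [e.extend_source]; exact hA hx)⟩, ?_, rfl⟩
      rw [mem_preimage]
      simp only
      rw [e.extend_left_inv (hA hx)]
      exact hx
    · rintro ⟨⟨y, hy⟩, hyA, rfl⟩
      exact ⟨_, hyA, (e.extend I).right_inv hy⟩
  have hcont : Continuous (fun y : (e.extend I).target => (e.extend I).symm y) :=
    continuousOn_iff_continuous_domRestrict.1 (e.continuousOn_extend_symm (I := I))
  have htm : MeasurableSet (e.extend I).target := by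
    rw [e.extend_target]
    exact (e.open_target.preimage I.continuous_symm).measurableSet.inter
      I.isClosed_range.measurableSet
  rw [h1]
  exact htm.subtype_image (hcont.measurable hAm)

theorem lintegral_codisk_chart_change [MeasurableSpace X] [BorelSpace X]
    (F : DirectedFinsler I X) {e e' : OpenPartialHomeomorph X H}
    (he : e ∈ IsManifold.maximalAtlas I ∞ X) (he' : e' ∈ IsManifold.maximalAtlas I ∞ X) {A : Set X}
    (hA : A ⊆ e.source) (hA' : A ⊆ e'.source) (hAm : MeasurableSet A) :
    ∫⁻ y in e.extend I '' A, volume (codisk F e ((e.extend I).symm y)) =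
      ∫⁻ y in e'.extend I '' A, volume (codisk F e' ((e'.extend I).symm y)) := by
  set φ := I.extendCoordChange e e' with hφ
  have hsub : e.extend I '' A ⊆ φ.source := by
    rw [hφ, ← OpenPartialHomeomorph.extend_image_source_inter]
    exact image_mono fun x hx => ⟨hA hx, hA' hx⟩
  have himg : e'.extend I '' A = φ '' (e.extend I '' A) := by
    rw [image_image]
    refine image_congr fun x hx => ?_
    change _ = e'.extend I ((e.extend I).symm (e.extend I x))
    rw [e.extend_left_inv (hA hx)]
  have hmeas := measurableSet_extend_image (I := I) e hA hAm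
  rw [himg, lintegral_image_eq_lintegral_abs_det_fderiv_mul volume hmeas
    (f' := fun y => tder e e' I y) (fun y hy => ?_) (φ.injOn.mono hsub)]
  · refine setLIntegral_congr_fun hmeas ?_
    rintro _ ⟨x, hx, rfl⟩
    simp only
    have h1 : (e.extend I).symm (e.extend I x) = x := e.extend_left_inv (hA hx)
    have h2 : (e'.extend I).symm (φ (e.extend I x)) = x := by
      change (e'.extend I).symm (e'.extend I ((e.extend I).symm (e.extend I x))) = x
      rw [h1, e'.extend_left_inv (hA' hx)]
    rw [h1, h2]
    exact codisk_chart_change F he he' (hA hx) (hA' hx)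
  · exact (((I.contDiffOn_extendCoordChange he he' _ (hsub hy)).differentiableWithinAt
      (by simp)).hasFDerivWithinAt).mono hsub

end Pool.Agent.Helper30.Filling
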