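import Mathlib
open Set Topology Complex
open scoped Manifold ContDiff

noncomputable section
namespace Pool.Agent.Helper30.Filling

/-- The Möbius band, as a subset of `ℂ × ℂ`: `(z, w)` with `|z| = 1`, `|w| ≤ 1`, `w² = |w|² z`. -/
def Mob : Type := {p : ℂ × ℂ // ‖p.1‖ = 1 ∧ ‖p.2‖ ≤ 1 ∧ p.2 ^ 2 = (‖p.2‖ : ℂ) ^ 2 * p.1}

instance : TopologicalSpace Mob := instTopologicalSpaceSubtype
instance : T2Space Mob := inferInstanceAs (T2Space {_p : ℂ × ℂ // _})

/-- the angle coordinate, relative to a centre `s`. -/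
def ang (s : ℝ) (z : ℂ) : ℝ := s + arg (z * exp (-(2 * s : ℝ) * I)) / 2

/-- the radial coordinate. -/
def rad (s : ℝ) (p : ℂ × ℂ) : ℝ := (p.2 * exp (-(ang s p.1 : ℝ) * I)).re

/-- the parametrisation by the strip. -/
def par (t r : ℝ) : ℂ × ℂ := (exp ((2 * t : ℝ) * I), r * exp ((t : ℝ) * I))

lemma par_mem {t r : ℝ} (h0 : -1 ≤ r) (h1 : r ≤ 1) :
    ‖(par t r).1‖ = 1 ∧ ‖(par t r).2‖ ≤ 1 ∧
      (par t r).2 ^ 2 = (‖(par t r).2‖ : ℂ) ^ 2 * (par t r).1 := by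
  have e1 : ‖exp ((t : ℝ) * I)‖ = 1 := norm_exp_ofReal_mul_I t
  have e2 : ‖exp ((2 * t : ℝ) * I)‖ = 1 := norm_exp_ofReal_mul_I _
  have e3 : ‖(par t r).2‖ = |r| := by
    simp only [par, norm_mul, e1, mul_one, norm_real, Real.norm_eq_abs]
  refine ⟨e2, ?_, ?_⟩
  · rw [e3, abs_le]; exact ⟨h0, h1⟩
  · rw [e3]
    have : ((|r| : ℝ) : ℂ) ^ 2 = (r : ℂ) ^ 2 := by
      rw [← ofReal_pow, sq_abs, ofReal_pow]
    rw [this]
    simp only [par, mul_pow]
    rw [← exp_nat_mul]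
    congr 2
    push_cast
    ring

lemma exp_ang {s : ℝ} {z : ℂ} (hz : ‖z‖ = 1) : exp ((2 * ang s z : ℝ) * I) = z := by
  unfold ang
  have h1 : ((2 * (s + arg (z * exp (-(2 * s : ℝ) * I)) / 2) : ℝ) : ℂ) * I =
      (2 * s : ℝ) * I + (arg (z * exp (-(2 * s : ℝ) * I)) : ℂ) * I := by
    push_cast; ring
  rw [h1, exp_add]
  set u := z * exp (-(2 * s : ℝ) * I) with hu
  have hnu : ‖u‖ = 1 := by
    rw [hu, norm_mul, hz, one_mul]
    have : -((2 * s : ℝ) : ℂ) * I = ((-(2 * s) : ℝ) : ℂ) * I := by push_cast; ring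
    rw [this, norm_exp_ofReal_mul_I]
  have h2 : exp ((arg u : ℂ) * I) = u := by
    have := norm_mul_exp_arg_mul_I u
    rw [hnu, ofReal_one, one_mul] at this
    exact this
  rw [h2, hu]
  have h3 : exp (((2 * s : ℝ) : ℂ) * I) * (z * exp (-((2 * s : ℝ) : ℂ) * I)) =
      z * (exp (((2 * s : ℝ) : ℂ) * I) * exp (-((2 * s : ℝ) : ℂ) * I)) := by ring
  rw [h3, ← exp_add]
  have h4 : ((2 * s : ℝ) : ℂ) * I + -((2 * s : ℝ) : ℂ) * I = 0 := by ring
  rw [h4, exp_zero, mul_one]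

lemma rad_spec {s : ℝ} (p : Mob) :
    p.1.2 = (rad s p.1 : ℂ) * exp ((ang s p.1.1 : ℝ) * I) := by
  obtain ⟨⟨z, w⟩, hz, hw, hzw⟩ := p
  simp only at hz hw hzw
  simp only [rad]
  set t := ang s z with ht
  set v := w * exp (-(t : ℝ) * I) with hv
  have hv2 : v ^ 2 = (‖w‖ : ℂ) ^ 2 := by
    rw [hv, mul_pow, hzw]
    have h1 : exp (-(t : ℂ) * I) ^ 2 = exp (-((2 * t : ℝ) : ℂ) * I) := by
      rw [← exp_nat_mul]
      congr 1
      push_cast; ring
    rw [h1]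
    have h2 : z * exp (-((2 * t : ℝ) : ℂ) * I) = 1 := by
      have := exp_ang (s := s) hz
      rw [← ht] at this
      conv_lhs => rw [← this]
      rw [← exp_add]
      have h4 : ((2 * t : ℝ) : ℂ) * I + -((2 * t : ℝ) : ℂ) * I = 0 := by ring
      rw [h4, exp_zero]
    rw [mul_assoc, h2, mul_one]
  have hvreal : v = ((v.re : ℝ) : ℂ) := by
    have h3 : (v - ‖w‖) * (v + ‖w‖) = 0 := by linear_combination hv2
    rcases mul_eq_zero.1 h3 with h | h
    · have : v = (‖w‖ : ℂ) := by linear_combination h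
      rw [this]; simp
    · have : v = ((-‖w‖ : ℝ) : ℂ) := by push_cast; linear_combination h
      rw [this]; simp
  rw [← hvreal, hv, mul_assoc, ← exp_add]
  have h4 : -(t : ℂ) * I + (t : ℂ) * I = 0 := by ring
  rw [h4, exp_zero, mul_one]

lemma par_ang_rad (s : ℝ) (p : Mob) : par (ang s p.1.1) (rad s p.1) = p.1 := by
  ext1
  · exact exp_ang p.2.1
  · exact (rad_spec p).symm

lemma abs_rad (s : ℝ) (p : Mob) : |rad s p.1| = ‖p.1.2‖ := by
  conv_rhs => rw [rad_spec (s := s) p]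
  rw [norm_mul, norm_exp_ofReal_mul_I, mul_one, norm_real, Real.norm_eq_abs]

lemma rad_le (s : ℝ) (p : Mob) : rad s p.1 ≤ 1 :=
  (le_abs_self _).trans ((abs_rad s p).le.trans p.2.2.1)

lemma neg_one_le_rad (s : ℝ) (p : Mob) : -1 ≤ rad s p.1 := by
  have := (abs_rad s p).le.trans p.2.2.1
  exact (abs_le.1 this).1

lemma ang_par {s t : ℝ} (h : |t - s| < Real.pi / 2) : ang s (exp ((2 * t : ℝ) * I)) = t := by
  unfold ang
  rw [← exp_add]
  have h1 : ((2 * t : ℝ) : ℂ) * I + -((2 * s : ℝ) : ℂ) * I = ((2 * (t - s) : ℝ) : ℂ) * I := by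
    push_cast; ring
  rw [abs_lt] at h
  rw [h1, arg_exp_mul_I, toIocMod_eq_self _ |>.2]
  · ring
  · constructor
    · linarith
    · linarith [Real.pi_pos]

lemma rad_par {s t r : ℝ} (h : |t - s| < Real.pi / 2) : rad s (par t r) = r := by
  unfold rad
  simp only [par]
  rw [ang_par h, mul_assoc, ← exp_add]
  have h4 : (t : ℂ) * I + -(t : ℂ) * I = 0 := by ring
  rw [h4, exp_zero, mul_one, ofReal_re]

lemma slit_par {s t : ℝ} (h : |t - s| < Real.pi / 2) :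
    exp ((2 * t : ℝ) * I) * exp (-(2 * s : ℝ) * I) ∈ slitPlane := by
  rw [← exp_add]
  have h1 : ((2 * t : ℝ) : ℂ) * I + -((2 * s : ℝ) : ℂ) * I = ((2 * (t - s) : ℝ) : ℂ) * I := by
    push_cast; ring
  rw [h1, mem_slitPlane_iff_arg]
  refine ⟨?_, exp_ne_zero _⟩
  rw [abs_lt] at h
  rw [arg_exp_mul_I, toIocMod_eq_self _ |>.2]
  · intro h2
    linarith
  · constructor
    · linarith
    · linarith [Real.pi_pos]

lemma ang_mem {s : ℝ} {z : ℂ} (h : z * exp (-(2 * s : ℝ) * I) ∈ slitPlane) :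
    |ang s z - s| < Real.pi / 2 := by
  unfold ang
  rw [mem_slitPlane_iff_arg] at h
  have h1 := arg_mem_Ioc (z * exp (-(2 * s : ℝ) * I))
  have h2 : arg (z * exp (-(2 * s : ℝ) * I)) < Real.pi := lt_of_le_of_ne h1.2 h.1
  rw [abs_lt]
  constructor
  · linarith [h1.1]
  · linarith

end Pool.Agent.Helper30.Filling
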