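import Mathlib
import Pool.Agent.Helper30.FillMob1
open Set Topology Complex
open scoped Manifold ContDiff

noncomputable section
namespace Pool.Agent.Helper30.Filling

/-- the ambient model space. -/
abbrev E2 := EuclideanSpace ℝ (Fin 2)

/-- the half plane. -/
abbrev H2 := EuclideanHalfSpace 2

lemma continuous_exp_mul : Continuous fun p : ℂ × ℂ => p.1 := continuous_fst

lemma ang_continuousAt {s : ℝ} {z : ℂ} (h : z * exp (-(2 * s : ℝ) * I) ∈ slitPlane) :
    ContinuousAt (ang s) z := by
  unfold ang
  have h1 : ContinuousAt (fun z : ℂ => z * exp (-(2 * s : ℝ) * I)) z := by fun_prop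
  have h2 : ContinuousAt (fun z : ℂ => arg (z * exp (-(2 * s : ℝ) * I))) z :=
    ContinuousAt.comp (f := fun z : ℂ => z * exp (-(2 * s : ℝ) * I)) (g := arg)
      (continuousAt_arg h) h1
  exact continuousAt_const.add (h2.div_const 2)

lemma rad_continuousAt {s : ℝ} {p : ℂ × ℂ} (h : p.1 * exp (-(2 * s : ℝ) * I) ∈ slitPlane) :
    ContinuousAt (rad s) p := by
  unfold rad
  have h1 : ContinuousAt (fun p : ℂ × ℂ => ang s p.1) p :=
    ContinuousAt.comp (g := ang s) (f := Prod.fst) (ang_continuousAt h) continuousAt_fst
  have h2 : ContinuousAt (fun p : ℂ × ℂ => p.2 * exp (-(ang s p.1 : ℝ) * I)) p := by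
    refine continuousAt_snd.mul (continuous_exp.continuousAt.comp ?_)
    exact ((continuous_ofReal.continuousAt.comp h1).neg).mul continuousAt_const
  exact continuous_re.continuousAt.comp h2

/-- the open set of the ambient space where the chart with centre `s` is defined. -/
def slit (s : ℝ) : Set (ℂ × ℂ) := {p | p.1 * exp (-(2 * s : ℝ) * I) ∈ slitPlane}

lemma slit_open (s : ℝ) : IsOpen (slit s) := by
  have : Continuous fun p : ℂ × ℂ => p.1 * exp (-(2 * s : ℝ) * I) := by fun_prop
  exact isOpen_slitPlane.preimage this

lemma toE_continuous : Continuous fun q : ℝ × ℝ => (!₂[q.1, q.2] : E2) := by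
  refine (PiLp.continuous_toLp 2 _).comp (continuous_pi fun i => ?_)
  fin_cases i
  · exact continuous_fst
  · exact continuous_snd

/-- chart formula. -/
def chartFun (s : ℝ) (p : Mob) : H2 :=
  ⟨!₂[1 - rad s p.1, ang s p.1.1], by
    have := rad_le s p
    simp only [PiLp.toLp_apply, Matrix.cons_val_zero]
    linarith⟩

/-- inverse chart formula. -/
def chartInv (x : H2) : Mob :=
  ⟨par (x.1 1) (max (-1) (1 - x.1 0)), par_mem (le_max_left _ _)
    (max_le (by norm_num) (by linarith [x.2]))⟩

/-- The chart with centre `s`. -/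
def chrt (s : ℝ) : OpenPartialHomeomorph Mob H2 where
  toFun := chartFun s
  invFun := chartInv
  source := {p | p.1 ∈ slit s ∧ -1 < rad s p.1}
  target := {x | x.1 0 < 2 ∧ |x.1 1 - s| < Real.pi / 2}
  map_source' := by
    rintro p ⟨h1, h2⟩
    refine ⟨?_, ?_⟩
    · simp only [chartFun, PiLp.toLp_apply, Matrix.cons_val_zero]
      linarith
    · simp only [chartFun, PiLp.toLp_apply, Matrix.cons_val_one]
      exact ang_mem h1
  map_target' := by
    rintro x ⟨h1, h2⟩
    have hm : max (-1) (1 - x.1 0) = 1 - x.1 0 := max_eq_right (by linarith)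
    refine ⟨?_, ?_⟩
    · exact slit_par h2
    · simp only [chartInv]
      rw [rad_par h2, hm]
      linarith
  left_inv' := by
    rintro p ⟨h1, h2⟩
    apply Subtype.ext
    simp only [chartInv, chartFun, PiLp.toLp_apply, Matrix.cons_val_zero, Matrix.cons_val_one]
    have hm : max (-1) (1 - (1 - rad s p.1)) = rad s p.1 := by
      rw [sub_sub_cancel]; exact max_eq_right h2.le
    rw [hm]
    exact par_ang_rad s p
  right_inv' := by
    rintro x ⟨h1, h2⟩
    apply Subtype.ext
    have hm : max (-1) (1 - x.1 0) = 1 - x.1 0 := max_eq_right (by linarith)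
    simp only [chartInv, chartFun]
    rw [hm, rad_par h2]
    ext i
    fin_cases i
    · simp
    · simp only [Fin.mk_one, Fin.isValue, PiLp.toLp_apply, Matrix.cons_val_one, Matrix.cons_val_fin_one]
      exact ang_par h2
  open_source := by
    have hcont : ContinuousOn (rad s) (slit s) := fun p hp =>
      (rad_continuousAt hp).continuousWithinAt
    have h1 : IsOpen (slit s ∩ rad s ⁻¹' Ioi (-1)) :=
      hcont.isOpen_inter_preimage (slit_open s) isOpen_Ioi
    exact h1.preimage continuous_subtype_val
  open_target := by
    have h1 : Continuous fun x : H2 => x.1 0 := by fun_prop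
    have h2 : Continuous fun x : H2 => |x.1 1 - s| := by fun_prop
    exact (isOpen_lt h1 continuous_const).inter (isOpen_lt h2 continuous_const)
  continuousOn_toFun := by
    rintro p ⟨h1, h2⟩
    apply ContinuousAt.continuousWithinAt
    rw [Topology.IsInducing.subtypeVal.continuousAt_iff]
    have h3 : ContinuousAt (fun p : Mob => rad s p.1) p :=
      ContinuousAt.comp (g := rad s) (f := Subtype.val) (rad_continuousAt h1)
        continuous_subtype_val.continuousAt
    have h4 : ContinuousAt (fun p : Mob => ang s p.1.1) p := by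
      have h5 : ContinuousAt (fun p : Mob => p.1.1) p :=
        (continuous_fst.comp continuous_subtype_val).continuousAt
      exact ContinuousAt.comp (g := ang s) (ang_continuousAt h1) h5
    have h6 : ContinuousAt (fun p : Mob => (1 - rad s p.1, ang s p.1.1)) p :=
      (continuousAt_const.sub h3).prodMk h4
    exact ContinuousAt.comp (g := fun q : ℝ × ℝ => (!₂[q.1, q.2] : E2))
      toE_continuous.continuousAt h6
  continuousOn_invFun := by
    apply Continuous.continuousOn
    refine Continuous.subtype_mk ?_ _
    unfold par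
    have h1 : Continuous fun x : H2 => x.1 1 := by fun_prop
    have h2 : Continuous fun x : H2 => max (-1) (1 - x.1 0) := by fun_prop
    fun_prop

end Pool.Agent.Helper30.Filling
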