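import Mathlib
import Pool.Agent.Helper30.FillMob2
open Set Topology Complex
open scoped Manifold ContDiff

noncomputable section
namespace Pool.Agent.Helper30.Filling

/-- centre of the preferred chart at `p`. -/
def ctr (p : Mob) : ℝ := by
  classical exact if p.1.2 = 0 then arg p.1.1 / 2 else arg p.1.2

lemma mem_chrt_source (p : Mob) : p ∈ (chrt (ctr p)).source := by
  change p.1 ∈ slit (ctr p) ∧ -1 < rad (ctr p) p.1
  obtain ⟨⟨z, w⟩, hz, hw, hzw⟩ := p
  simp only at hz hw hzw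
  by_cases h : w = 0
  · have hs : ctr ⟨(z, w), hz, hw, hzw⟩ = arg z / 2 := by simp [ctr, h]
    have h2 : z * exp (-((2 * (arg z / 2) : ℝ) : ℂ) * I) = 1 := by
      have e1 : (2 * (arg z / 2) : ℝ) = arg z := by ring
      rw [e1]
      have := norm_mul_exp_arg_mul_I z
      rw [hz, ofReal_one, one_mul] at this
      conv_lhs => rw [← this]
      rw [arg_exp_mul_I, toIocMod_eq_self _ |>.2 (arg_mem_Ioc z |> fun h => by
        constructor
        · exact h.1
        · linarith [h.2]), ← exp_add]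
      have h4 : (arg z : ℂ) * I + -(arg z : ℂ) * I = 0 := by ring
      rw [h4, exp_zero]
    rw [hs]
    refine ⟨?_, ?_⟩
    · simp only [slit, mem_ofPred_eq]
      rw [h2]; exact one_mem_slitPlane
    · simp [rad, h]
  · have hs : ctr ⟨(z, w), hz, hw, hzw⟩ = arg w := by simp [ctr, h]
    rw [hs]
    have hwn : ‖w‖ ≠ 0 := by simpa using h
    have hz2 : z = exp ((2 * arg w : ℝ) * I) := by
      have e1 : (‖w‖ : ℂ) ^ 2 * z = (‖w‖ : ℂ) ^ 2 * exp ((2 * arg w : ℝ) * I) := by
        rw [← hzw]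
        conv_lhs => rw [← norm_mul_exp_arg_mul_I w]
        rw [mul_pow, ← exp_nat_mul]
        congr 2
        push_cast; ring
      have e2 : (‖w‖ : ℂ) ^ 2 ≠ 0 := pow_ne_zero _ (by exact_mod_cast hwn)
      exact mul_left_cancel₀ e2 e1
    have hpi : |arg w - arg w| < Real.pi / 2 := by
      rw [sub_self, abs_zero]; linarith [Real.pi_pos]
    refine ⟨?_, ?_⟩
    · simp only [slit, mem_ofPred_eq]
      rw [hz2]
      exact slit_par hpi
    · have e3 : ((z, w) : ℂ × ℂ) = par (arg w) ‖w‖ := by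
        unfold par
        rw [hz2]
        ext1
        · rfl
        · exact (norm_mul_exp_arg_mul_I w).symm
      change -1 < rad (arg w) (z, w)
      rw [e3, rad_par hpi]
      linarith [norm_nonneg w]

instance : ChartedSpace H2 Mob where
  atlas := range chrt
  chartAt p := chrt (ctr p)
  mem_chart_source := mem_chrt_source
  chart_mem_atlas _ := ⟨_, rfl⟩

lemma chartAt_eq (p : Mob) : chartAt H2 p = chrt (ctr p) := rfl

variable {n : WithTop ℕ∞}

lemma arg_contDiffAt {z : ℂ} (h : z ∈ slitPlane) : ContDiffAt ℝ n arg z := by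
  have h1 : ContDiffAt ℝ n Complex.log z := (Complex.contDiffAt_log h).restrict_scalars ℝ
  have h2 : (arg : ℂ → ℝ) = fun z => imCLM (Complex.log z) := by
    funext z; simp [Complex.log_im]
  rw [h2]
  exact imCLM.contDiff.contDiffAt.comp z h1

lemma ang_contDiffAt {s : ℝ} {z : ℂ} (h : z * exp (-(2 * s : ℝ) * I) ∈ slitPlane) :
    ContDiffAt ℝ n (ang s) z := by
  unfold ang
  have h1 : ContDiffAt ℝ n (fun z : ℂ => z * exp (-(2 * s : ℝ) * I)) z := by fun_prop
  have h2 : ContDiffAt ℝ n (fun z : ℂ => arg (z * exp (-(2 * s : ℝ) * I))) z :=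
    ContDiffAt.comp (f := fun z : ℂ => z * exp (-(2 * s : ℝ) * I)) (g := arg) z
      (arg_contDiffAt h) h1
  exact contDiffAt_const.add (h2.div_const 2)

lemma rad_contDiffAt {s : ℝ} {p : ℂ × ℂ} (h : p ∈ slit s) :
    ContDiffAt ℝ n (rad s) p := by
  unfold rad
  have h1 : ContDiffAt ℝ n (fun p : ℂ × ℂ => ang s p.1) p :=
    ContDiffAt.comp (g := ang s) (f := Prod.fst) p (ang_contDiffAt h) contDiffAt_fst
  have h3 : ContDiffAt ℝ n (fun p : ℂ × ℂ => (-(ang s p.1 : ℝ) : ℂ) * I) p :=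
    ((ofRealCLM.contDiff.contDiffAt.comp p h1).neg).mul contDiffAt_const
  have h4 : ContDiff ℝ n Complex.exp := Complex.contDiff_exp
  have h2 : ContDiffAt ℝ n (fun p : ℂ × ℂ => p.2 * exp (-(ang s p.1 : ℝ) * I)) p :=
    contDiffAt_snd.mul (h4.contDiffAt.comp p h3)
  exact reCLM.contDiff.contDiffAt.comp p h2

/-- the strip parametrisation as a smooth function of the model space. -/
def parE (x : E2) : ℂ × ℂ := par (x 1) (1 - x 0)

lemma parE_contDiff : ContDiff ℝ n parE := by
  unfold parE par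
  have h0 : ContDiff ℝ n fun x : E2 => x 0 := by fun_prop
  have h1 : ContDiff ℝ n fun x : E2 => x 1 := by fun_prop
  have h4 : ContDiff ℝ n Complex.exp := Complex.contDiff_exp
  have h5 : ContDiff ℝ n fun x : E2 => ((2 * x 1 : ℝ) : ℂ) * I :=
    (ofRealCLM.contDiff.comp (contDiff_const.mul h1)).mul contDiff_const
  have h6 : ContDiff ℝ n fun x : E2 => ((x 1 : ℝ) : ℂ) * I :=
    (ofRealCLM.contDiff.comp h1).mul contDiff_const
  have h7 : ContDiff ℝ n fun x : E2 => ((1 - x 0 : ℝ) : ℂ) :=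
    ofRealCLM.contDiff.comp (contDiff_const.sub h0)
  exact (h4.comp h5).prodMk (h7.mul (h4.comp h6))

/-- transition function. -/
def trans (s : ℝ) (x : E2) : E2 := !₂[1 - rad s (parE x), ang s (parE x).1]

lemma trans_contDiffAt {s : ℝ} {x : E2} (h : parE x ∈ slit s) : ContDiffAt ℝ n (trans s) x := by
  unfold trans
  have h1 : ContDiffAt ℝ n (fun x => rad s (parE x)) x :=
    ContDiffAt.comp (g := rad s) x (rad_contDiffAt h) parE_contDiff.contDiffAt
  have h2 : ContDiffAt ℝ n (fun x => ang s (parE x).1) x :=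
    ContDiffAt.comp (f := fun x => (parE x).1) (g := ang s) x (ang_contDiffAt h)
      (contDiff_fst.comp parE_contDiff).contDiffAt
  rw [contDiffAt_euclidean]
  intro i
  fin_cases i
  · simpa using contDiffAt_const.sub h1
  · simpa using h2

lemma chrt_symm_apply (s : ℝ) (x : H2) : (chrt s).symm x = chartInv x := rfl
lemma chrt_apply (s : ℝ) (p : Mob) : chrt s p = chartFun s p := rfl

lemma chartInv_val {x : H2} (h : x.1 0 ≤ 2) : (chartInv x).1 = parE x.1 := by
  simp only [chartInv, parE]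
  rw [max_eq_right (by linarith)]

lemma I_symm_val {x : E2} (h : 0 ≤ x 0) : ((𝓡∂ 2).symm x).1 = x := by
  have : x ∈ range (𝓡∂ 2) := by
    rw [range_modelWithCornersEuclideanHalfSpace]; exact h
  exact (𝓡∂ 2).right_inv this

instance : IsManifold (𝓡∂ 2) n Mob := by
  refine isManifold_of_contDiffOn (𝓡∂ 2) n Mob ?_
  rintro _ _ ⟨s, rfl⟩ ⟨s', rfl⟩
  have key : ∀ x ∈ ((𝓡∂ 2).symm ⁻¹' ((chrt s).symm ≫ₕ chrt s').source ∩ range (𝓡∂ 2)),
      (x 0 < 2 ∧ 0 ≤ x 0) ∧ parE x ∈ slit s' ∧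
      ((𝓡∂ 2) ∘ ((chrt s).symm ≫ₕ chrt s') ∘ (𝓡∂ 2).symm) x = trans s' x := by
    rintro x ⟨hx, hx'⟩
    have hx0 : 0 ≤ x 0 := by
      rw [range_modelWithCornersEuclideanHalfSpace] at hx'; exact hx'
    have hv := I_symm_val hx0
    rw [mem_preimage, OpenPartialHomeomorph.trans_source] at hx
    obtain ⟨hx1, hx2⟩ := hx
    have hx3 : ((𝓡∂ 2).symm x).1 0 < 2 := hx1.1
    rw [hv] at hx3
    have hx4 : (chartInv ((𝓡∂ 2).symm x)).1 = parE x := by
      rw [chartInv_val (by rw [hv]; exact hx3.le), hv]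
    have hx5 : (chartInv ((𝓡∂ 2).symm x)).1 ∈ slit s' := hx2.1
    rw [hx4] at hx5
    refine ⟨⟨hx3, hx0⟩, hx5, ?_⟩
    change (chartFun s' (chartInv ((𝓡∂ 2).symm x))).1 = _
    simp only [chartFun, hx4, trans]
  intro x hx
  refine ContDiffWithinAt.congr (trans_contDiffAt (s := s') (key x hx).2.1).contDiffWithinAt
    (fun y hy => (key y hy).2.2) (key x hx).2.2

/-- The inclusion of the Möbius band into `ℂ × ℂ`. -/
def incl (p : Mob) : ℂ × ℂ := p.1

lemma incl_continuous : Continuous incl := continuous_subtype_val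

end Pool.Agent.Helper30.Filling
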