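import Mathlib
import Pool.Agent.Helper30.FillMob3
import Pool.Agent.Helper30.FillDefs
open Set Topology Complex
open scoped Manifold ContDiff

noncomputable section
namespace Pool.Agent.Helper30.Filling

/-! ### Topology of the Möbius band -/

lemma par_continuous : Continuous fun q : ℝ × ℝ => par q.1 q.2 := by
  unfold par
  fun_prop

instance : CompactSpace Mob := by
  have h1 : IsCompact {p : ℂ × ℂ | ‖p.1‖ = 1 ∧ ‖p.2‖ ≤ 1 ∧ p.2 ^ 2 = (‖p.2‖ : ℂ) ^ 2 * p.1} := by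
    refine Metric.isCompact_of_isClosed_isBounded ?_ ?_
    · have c1 : IsClosed {p : ℂ × ℂ | ‖p.1‖ = 1} :=
        isClosed_eq continuous_fst.norm continuous_const
      have c2 : IsClosed {p : ℂ × ℂ | ‖p.2‖ ≤ 1} :=
        isClosed_le continuous_snd.norm continuous_const
      have c3 : IsClosed {p : ℂ × ℂ | p.2 ^ 2 = (‖p.2‖ : ℂ) ^ 2 * p.1} :=
        isClosed_eq (continuous_snd.pow 2)
          (((continuous_ofReal.comp continuous_snd.norm).pow 2).mul continuous_fst)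
      exact c1.inter (c2.inter c3)
    · refine (Metric.isBounded_closedBall (x := (0 : ℂ × ℂ)) (r := 1)).subset ?_
      rintro p ⟨h1, h2, -⟩
      rw [mem_closedBall_zero_iff, Prod.norm_def]
      exact max_le h1.le h2
  exact isCompact_iff_compactSpace.1 h1

/-- the strip parametrisation with values in the Möbius band. -/
def strip (q : ℝ × Icc (-1 : ℝ) 1) : Mob := ⟨par q.1 q.2, par_mem q.2.2.1 q.2.2.2⟩

lemma strip_continuous : Continuous strip := by
  refine Continuous.subtype_mk ?_ _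
  exact par_continuous.comp (continuous_fst.prodMk (continuous_subtype_val.comp continuous_snd))

lemma strip_surjective : Function.Surjective strip := by
  intro p
  exact ⟨(ang 0 p.1.1, ⟨rad 0 p.1, neg_one_le_rad 0 p, rad_le 0 p⟩),
    Subtype.ext (par_ang_rad 0 p)⟩

instance : ConnectedSpace Mob := by
  have h : ConnectedSpace (Icc (-1 : ℝ) 1) :=
    isConnected_iff_connectedSpace.1 (isConnected_Icc (by norm_num))
  exact strip_surjective.connectedSpace strip_continuous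

instance : MeasurableSpace Mob := borel Mob
instance : BorelSpace Mob := ⟨rfl⟩

/-! ### The inclusion in charts -/

lemma chrt_mem (s : ℝ) : chrt s ∈ IsManifold.maximalAtlas (𝓡∂ 2) ∞ Mob :=
  IsManifold.subset_maximalAtlas ⟨s, rfl⟩

lemma incl_chart {s : ℝ} {p : Mob} : incl p = parE ((chrt s).extend (𝓡∂ 2) p) := by
  change p.1 = par (ang s p.1.1) (1 - (1 - rad s p.1))
  rw [sub_sub_cancel]
  exact (par_ang_rad s p).symm

lemma incl_contMDiff {n : WithTop ℕ∞} : ContMDiff (𝓡∂ 2) 𝓘(ℝ, ℂ × ℂ) n incl := by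
  intro p
  have h1 : ContMDiffAt (𝓡∂ 2) 𝓘(ℝ, E2) n ((chrt (ctr p)).extend (𝓡∂ 2)) p :=
    (chrt (ctr p)).contMDiffAt_extend (IsManifold.subset_maximalAtlas ⟨ctr p, rfl⟩)
      (mem_chrt_source p)
  have h2 : ContMDiffAt 𝓘(ℝ, E2) 𝓘(ℝ, ℂ × ℂ) n parE ((chrt (ctr p)).extend (𝓡∂ 2) p) :=
    parE_contDiff.contDiffAt.contMDiffAt
  have h3 := h2.comp p h1
  have h4 : incl = parE ∘ (chrt (ctr p)).extend (𝓡∂ 2) := funext fun q => incl_chart
  rw [h4]
  exact h3

/-- the derivative of the strip parametrisation -/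
lemma parE_hasFDerivAt (x : E2) : HasFDerivAt parE
    ((((PiLp.proj 2 (fun _ : Fin 2 => ℝ) (1 : Fin 2) : E2 →L[ℝ] ℝ)).smulRight
        (2 * I * (parE x).1)).prod
      (((PiLp.proj 2 (fun _ : Fin 2 => ℝ) (0 : Fin 2) : E2 →L[ℝ] ℝ)).smulRight
        (-exp ((x 1 : ℝ) * I)) +
      ((PiLp.proj 2 (fun _ : Fin 2 => ℝ) (1 : Fin 2) : E2 →L[ℝ] ℝ)).smulRight
        (I * (parE x).2))) x := by
  have e0 : HasFDerivAt (fun x : E2 => x 0) (PiLp.proj 2 (fun _ : Fin 2 => ℝ) (0 : Fin 2) : E2 →L[ℝ] ℝ) x :=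
    (PiLp.proj 2 (fun _ : Fin 2 => ℝ) (0 : Fin 2) : E2 →L[ℝ] ℝ).hasFDerivAt
  have e1 : HasFDerivAt (fun x : E2 => x 1) (PiLp.proj 2 (fun _ : Fin 2 => ℝ) (1 : Fin 2) : E2 →L[ℝ] ℝ) x :=
    (PiLp.proj 2 (fun _ : Fin 2 => ℝ) (1 : Fin 2) : E2 →L[ℝ] ℝ).hasFDerivAt
  have f1 : HasDerivAt (fun t : ℝ => exp ((2 * t : ℝ) * I)) (2 * I * exp ((2 * x 1 : ℝ) * I)) (x 1) := by
    have h1 : HasDerivAt (fun t : ℝ => ((2 * t : ℝ) : ℂ) * I) (2 * I) (x 1) := by
      have h2 : HasDerivAt (fun t : ℝ => 2 * t) 2 (x 1) := by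
        simpa using (hasDerivAt_id (x 1)).const_mul 2
      simpa using (h2.ofReal_comp).mul_const I
    have := h1.cexp
    rwa [mul_comm] at this
  have f2 : HasDerivAt (fun t : ℝ => exp ((t : ℝ) * I)) (I * exp ((x 1 : ℝ) * I)) (x 1) := by
    have h1 : HasDerivAt (fun t : ℝ => ((t : ℝ) : ℂ) * I) I (x 1) := by
      simpa using ((hasDerivAt_id (x 1)).ofReal_comp).mul_const I
    have := h1.cexp
    rwa [mul_comm] at this
  have g1 := f1.hasFDerivAt.comp x e1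
  have g2 := f2.hasFDerivAt.comp x e1
  have g3 : HasFDerivAt (fun x : E2 => ((1 - x 0 : ℝ) : ℂ))
      (ofRealCLM.comp (-(PiLp.proj 2 (fun _ : Fin 2 => ℝ) (0 : Fin 2) : E2 →L[ℝ] ℝ))) x :=
    ofRealCLM.hasFDerivAt.comp x (e0.const_sub 1)
  have g4 := g1.prodMk (g3.mul g2)
  convert! g4 using 1
  ext v
  · simp [parE, par]
  · simp [parE, par]
    ring

end Pool.Agent.Helper30.Filling
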