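import Mathlib
import Pool.Agent.Helper30.FillMob4
open Set Topology Complex
open scoped Manifold ContDiff ComplexConjugate

noncomputable section
namespace Pool.Agent.Helper30.Filling

/-- the angular velocity of a velocity vector `q` at the point `p`. -/
def om (p q : ℂ × ℂ) : ℝ := (conj p.1 * q.1).im / 2

/-- the absolute value of the radial velocity of `q` at the point `p`. -/
def ro (p q : ℂ × ℂ) : ℝ := ‖q.2 - I * p.2 * om p q‖

/-- the directed Finsler length of the velocity `q` at `p`. -/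
def fin (α β γ : ℝ) (p q : ℂ × ℂ) : ℝ := max (α * om p q) (-β * om p q + γ * ro p q)

lemma om_add (p q q' : ℂ × ℂ) : om p (q + q') = om p q + om p q' := by
  simp only [om, Prod.fst_add, mul_add, add_im]
  ring

lemma om_smul (p q : ℂ × ℂ) (c : ℝ) : om p (c • q) = c * om p q := by
  simp only [om, Prod.smul_fst, real_smul]
  have : (conj p.1 * (↑c * q.1)) = (c : ℂ) * (conj p.1 * q.1) := by ring
  rw [this, im_ofReal_mul]
  ring

lemma ro_add_le (p q q' : ℂ × ℂ) : ro p (q + q') ≤ ro p q + ro p q' := by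
  simp only [ro, om_add, Prod.snd_add]
  refine le_trans (le_of_eq ?_) (norm_add_le _ _)
  congr 1
  push_cast
  ring

lemma ro_smul (p q : ℂ × ℂ) (c : ℝ) : ro p (c • q) = |c| * ro p q := by
  simp only [ro, om_smul, Prod.smul_snd, real_smul]
  rw [← Real.norm_eq_abs, ← norm_real, ← norm_mul]
  congr 1
  push_cast
  ring

lemma ro_nonneg (p q : ℂ × ℂ) : 0 ≤ ro p q := norm_nonneg _

lemma fin_nonneg {α β γ : ℝ} (hα : 0 ≤ α) (hβ : 0 ≤ β) (hγ : 0 ≤ γ) (p q : ℂ × ℂ) :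
    0 ≤ fin α β γ p q := by
  unfold fin
  have h := ro_nonneg p q
  rcases le_total 0 (om p q) with h1 | h1
  · exact le_max_of_le_left (mul_nonneg hα h1)
  · refine le_max_of_le_right ?_
    have : 0 ≤ -β * om p q := by nlinarith
    positivity

lemma fin_smul {α β γ : ℝ} (p q : ℂ × ℂ) {c : ℝ} (hc : 0 ≤ c) :
    fin α β γ p (c • q) = c * fin α β γ p q := by
  unfold fin
  rw [om_smul, ro_smul, abs_of_nonneg hc, mul_max_of_nonneg _ _ hc]
  congr 1 <;> ring

lemma fin_add_le {α β γ : ℝ} (hγ : 0 ≤ γ) (p q q' : ℂ × ℂ) :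
    fin α β γ p (q + q') ≤ fin α β γ p q + fin α β γ p q' := by
  unfold fin
  rw [om_add]
  have h := mul_le_mul_of_nonneg_left (ro_add_le p q q') hγ
  refine max_le ?_ ?_
  · have h1 := le_max_left (α * om p q) (-β * om p q + γ * ro p q)
    have h2 := le_max_left (α * om p q') (-β * om p q' + γ * ro p q')
    linarith
  · have h1 := le_max_right (α * om p q) (-β * om p q + γ * ro p q)
    have h2 := le_max_right (α * om p q') (-β * om p q' + γ * ro p q')
    linarith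

lemma fin_continuous (α β γ : ℝ) : Continuous fun q : (ℂ × ℂ) × (ℂ × ℂ) => fin α β γ q.1 q.2 := by
  have h1 : Continuous fun q : (ℂ × ℂ) × (ℂ × ℂ) => om q.1 q.2 := by
    unfold om
    have : Continuous fun q : (ℂ × ℂ) × (ℂ × ℂ) => conj q.1.1 * q.2.1 :=
      (continuous_conj.comp (continuous_fst.comp continuous_fst)).mul
        (continuous_fst.comp continuous_snd)
    exact (continuous_im.comp this).div_const 2
  have h2 : Continuous fun q : (ℂ × ℂ) × (ℂ × ℂ) => ro q.1 q.2 := by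
    unfold ro
    refine Continuous.norm ?_
    refine (continuous_snd.comp continuous_snd).sub ((continuous_const.mul
      (continuous_snd.comp continuous_fst)).mul (continuous_ofReal.comp h1))
  unfold fin
  exact (continuous_const.mul h1).max ((continuous_const.mul h1).add (continuous_const.mul h2))

/-- the derivative of the inclusion, on the whole tangent bundle. -/
def dincl (q : TangentBundle (𝓡∂ 2) Mob) : (ℂ × ℂ) × (ℂ × ℂ) :=
  (incl q.1, mvfderiv (𝓡∂ 2) incl q.1 q.2)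

lemma dincl_continuous : Continuous dincl := by
  have h1 : Continuous (tangentMap (𝓡∂ 2) 𝓘(ℝ, ℂ × ℂ) incl) :=
    (incl_contMDiff (n := ∞)).continuous_tangentMap (by simp)
  exact (tangentBundleModelSpaceHomeomorph 𝓘(ℝ, ℂ × ℂ)).continuous.comp h1

/-- The directed Finsler metric on the Möbius band. -/
def FMob (α β γ : ℝ) (hα : 0 ≤ α) (hβ : 0 ≤ β) (hγ : 0 ≤ γ) : DirectedFinsler (𝓡∂ 2) Mob where
  toFun q := fin α β γ (dincl q).1 (dincl q).2
  continuous_toFun := (fin_continuous α β γ).comp dincl_continuous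
  nonneg q := fin_nonneg hα hβ hγ _ _
  homogeneous x v c hc := by
    simp only [dincl]
    rw [map_smul]
    exact fin_smul _ _ hc
  convex x := by
    refine ⟨convex_univ, fun v _ w _ a b ha hb _ => ?_⟩
    simp only [dincl, smul_eq_mul]
    rw [map_add, map_smul, map_smul]
    refine (fin_add_le hγ _ _ _).trans ?_
    rw [fin_smul _ _ ha, fin_smul _ _ hb]

/-- the constant coefficient norm in the charts. -/
def F0 (α β γ : ℝ) (u : E2) : ℝ := max (α * u 1) (-β * u 1 + γ * |u 0|)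

lemma conj_mul_self_of_norm {z : ℂ} (h : ‖z‖ = 1) : conj z * z = 1 := by
  rw [← normSq_eq_conj_mul_self, normSq_eq_norm_sq, h]; simp

lemma parE_norm (y : E2) : ‖(parE y).1‖ = 1 := norm_exp_ofReal_mul_I _

lemma om_parE (y u : E2) :
    om (parE y) (2 * I * (parE y).1 * (u 1 : ℂ), -exp ((y 1 : ℝ) * I) * (u 0 : ℂ) +
      I * (parE y).2 * (u 1 : ℂ)) = u 1 := by
  simp only [om]
  have : conj (parE y).1 * (2 * I * (parE y).1 * (u 1 : ℂ)) =
      (conj (parE y).1 * (parE y).1) * (2 * I * (u 1 : ℂ)) := by ring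
  rw [this, conj_mul_self_of_norm (parE_norm y)]
  simp

lemma fin_parE (α β γ : ℝ) (y u : E2) :
    fin α β γ (parE y) (2 * I * (parE y).1 * (u 1 : ℂ), -exp ((y 1 : ℝ) * I) * (u 0 : ℂ) +
      I * (parE y).2 * (u 1 : ℂ)) = F0 α β γ u := by
  simp only [fin, F0]
  have h1 := om_parE y u
  have h2 : ro (parE y) (2 * I * (parE y).1 * (u 1 : ℂ), -exp ((y 1 : ℝ) * I) * (u 0 : ℂ) +
      I * (parE y).2 * (u 1 : ℂ)) = |u 0| := by
    unfold ro
    rw [h1]
    simp only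
    have : -exp ((y 1 : ℝ) * I) * (u 0 : ℂ) + I * (parE y).2 * (u 1 : ℂ) -
        I * (parE y).2 * (u 1 : ℂ) = -exp ((y 1 : ℝ) * I) * (u 0 : ℂ) := by ring
    rw [this, norm_mul, norm_neg, norm_exp_ofReal_mul_I, one_mul, norm_real, Real.norm_eq_abs]
  rw [h1, h2]

lemma dparE_apply (y u : E2) :
    ((((PiLp.proj 2 (fun _ : Fin 2 => ℝ) (1 : Fin 2) : E2 →L[ℝ] ℝ)).smulRight
        (2 * I * (parE y).1)).prod
      (((PiLp.proj 2 (fun _ : Fin 2 => ℝ) (0 : Fin 2) : E2 →L[ℝ] ℝ)).smulRight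
        (-exp ((y 1 : ℝ) * I)) +
      ((PiLp.proj 2 (fun _ : Fin 2 => ℝ) (1 : Fin 2) : E2 →L[ℝ] ℝ)).smulRight
        (I * (parE y).2))) u = (2 * I * (parE y).1 * (u 1 : ℂ), -exp ((y 1 : ℝ) * I) * (u 0 : ℂ) +
      I * (parE y).2 * (u 1 : ℂ)) := by
  ext1
  · simp [mul_comm]
  · simp [mul_comm]

/-- the derivative of the inclusion in the charts. -/
lemma mvfderiv_incl {s : ℝ} {p : Mob} (hp : p ∈ (chrt s).source) (v : TangentSpace (𝓡∂ 2) p) :
    mvfderiv (𝓡∂ 2) incl p v =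
      (2 * I * (incl p).1 * ((mvfderiv (𝓡∂ 2) ((chrt s).extend (𝓡∂ 2)) p v) 1 : ℂ),
        -exp (((((chrt s).extend (𝓡∂ 2) p) 1 : ℝ) : ℂ) * I) *
          ((mvfderiv (𝓡∂ 2) ((chrt s).extend (𝓡∂ 2)) p v) 0 : ℂ) +
        I * (incl p).2 * ((mvfderiv (𝓡∂ 2) ((chrt s).extend (𝓡∂ 2)) p v) 1 : ℂ)) := by
  set y := (chrt s).extend (𝓡∂ 2) p with hy
  have h1 : HasMFDerivAt (𝓡∂ 2) 𝓘(ℝ, E2) ((chrt s).extend (𝓡∂ 2)) p
      (mfderiv (𝓡∂ 2) 𝓘(ℝ, E2) ((chrt s).extend (𝓡∂ 2)) p) :=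
    (((chrt s).contMDiffAt_extend (chrt_mem s) hp).mdifferentiableAt (by simp)).hasMFDerivAt
  have h2 := (parE_hasFDerivAt y).hasMFDerivAt.comp p h1
  have h4 : incl = parE ∘ (chrt s).extend (𝓡∂ 2) := funext fun q => incl_chart
  have h5 := h2.mfderiv
  have h6 : incl p = parE y := incl_chart
  have h7 : mvfderiv (𝓡∂ 2) incl p v = mfderiv (𝓡∂ 2) 𝓘(ℝ, ℂ × ℂ) incl p v := rfl
  rw [h7, h6]
  conv_lhs => rw [h4]
  rw [h5]
  set u : E2 := mvfderiv (𝓡∂ 2) ((chrt s).extend (𝓡∂ 2)) p v with hu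
  have h8 : mfderiv (𝓡∂ 2) 𝓘(ℝ, E2) ((chrt s).extend (𝓡∂ 2)) p v = u := rfl
  rw [ContinuousLinearMap.comp_apply, h8]
  exact dparE_apply y u

lemma FMob_chart {α β γ : ℝ} (hα : 0 ≤ α) (hβ : 0 ≤ β) (hγ : 0 ≤ γ) {s : ℝ} {p : Mob}
    (hp : p ∈ (chrt s).source) (v : TangentSpace (𝓡∂ 2) p) :
    (FMob α β γ hα hβ hγ).toFun ⟨p, v⟩ =
      F0 α β γ (mvfderiv (𝓡∂ 2) ((chrt s).extend (𝓡∂ 2)) p v) := by
  change fin α β γ (incl p) (mvfderiv (𝓡∂ 2) incl p v) = _
  rw [mvfderiv_incl hp v]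
  have h6 : incl p = parE ((chrt s).extend (𝓡∂ 2) p) := incl_chart
  rw [h6]
  exact fin_parE _ _ _ _ _

end Pool.Agent.Helper30.Filling
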