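import Mathlib
import Pool.Agent.Helper30.FillMetric
open Set Topology MeasureTheory
open scoped Manifold ContDiff ENNReal

noncomputable section
namespace Pool.Agent.Helper30.Filling

/-! ### Volume computations in the plane -/

/-- the map to coordinates. -/
def toPair (x : E2) : ℝ × ℝ := (x 0, x 1)

lemma toPair_preserving : MeasurePreserving toPair (volume : Measure E2) volume := by
  have h1 : MeasurePreserving (@WithLp.ofLp 2 (Fin 2 → ℝ)) := PiLp.volume_preserving_ofLp (Fin 2)
  have h2 : MeasurePreserving (@MeasurableEquiv.finTwoArrow ℝ _) := volume_preserving_finTwoArrow ℝ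
  exact h2.comp h1

lemma volume_preimage_toPair {S : Set (ℝ × ℝ)} (hS : MeasurableSet S) :
    volume (toPair ⁻¹' S) = volume S :=
  toPair_preserving.measure_preimage hS.nullMeasurableSet

lemma volume_coord_eq (i : Fin 2) (a : ℝ) : volume {x : E2 | x i = a} = 0 := by
  have h1 : MeasurePreserving (@WithLp.ofLp 2 (Fin 2 → ℝ)) := PiLp.volume_preserving_ofLp (Fin 2)
  have h2 : {x : E2 | x i = a} = (@WithLp.ofLp 2 (Fin 2 → ℝ)) ⁻¹' {f | f i = a} := rfl
  have hm : MeasurableSet {f : Fin 2 → ℝ | f i = a} :=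
    (isClosed_eq (continuous_apply i) continuous_const).measurableSet
  rw [h2, h1.measure_preimage hm.nullMeasurableSet]
  exact Measure.pi_hyperplane (α := fun _ : Fin 2 => ℝ) (fun _ => volume) i a

/-- the polar of `F0`. -/
def K0 (α β γ : ℝ) : Set E2 := {φ | ∀ u : E2, inner ℝ φ u ≤ F0 α β γ u}

lemma inner_E2 (φ u : E2) : inner ℝ φ u = φ 0 * u 0 + φ 1 * u 1 := by
  simp [PiLp.inner_apply, Fin.sum_univ_two]
  ring

lemma K0_eq {α β γ : ℝ} (hαβ : 0 < α + β) :
    K0 α β γ = toPair ⁻¹' {q : ℝ × ℝ | -β ≤ q.2 ∧ q.2 ≤ α ∧ |q.1| * (α + β) ≤ γ * (α - q.2)} := by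
  ext φ
  simp only [K0, mem_ofPred_eq, mem_preimage, toPair, inner_E2]
  constructor
  · intro h
    have h1 := h !₂[0, 1]
    have h2 := h !₂[0, -1]
    have h3 := h !₂[α + β, γ]
    have h4 := h !₂[-(α + β), γ]
    simp only [F0, Matrix.cons_val_zero, Matrix.cons_val_one] at h1 h2 h3 h4
    rw [abs_of_pos hαβ] at h3
    rw [abs_neg, abs_of_pos hαβ] at h4
    have e1 : -β * γ + γ * (α + β) = α * γ := by ring
    rw [e1, max_self] at h3 h4
    simp only [abs_zero, mul_zero, add_zero, mul_one, zero_add, mul_neg] at h1 h2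
    rw [max_eq_left (by linarith)] at h1
    rw [max_eq_right (by linarith)] at h2
    refine ⟨by linarith, h1, ?_⟩
    rcases abs_cases (φ 0) with ⟨h5, -⟩ | ⟨h5, -⟩
    · rw [h5]; linarith
    · rw [h5]; linarith
  · rintro ⟨h1, h2, h3⟩ u
    unfold F0
    -- convex combination
    set l := (φ 1 + β) / (α + β) with hl
    have hl0 : 0 ≤ l := div_nonneg (by linarith) hαβ.le
    have hl1 : l ≤ 1 := (div_le_one hαβ).2 (by linarith)
    have e1 : φ 1 = l * α - (1 - l) * β := by
      rw [hl]; field_simp; ring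
    have e2 : |φ 0| ≤ (1 - l) * γ := by
      have : (1 - l) * γ = γ * (α - φ 1) / (α + β) := by
        rw [hl]; field_simp; ring
      rw [this, le_div_iff₀ hαβ]
      exact h3
    have e3 : φ 0 * u 0 ≤ (1 - l) * γ * |u 0| := by
      calc φ 0 * u 0 ≤ |φ 0 * u 0| := le_abs_self _
        _ = |φ 0| * |u 0| := abs_mul _ _
        _ ≤ (1 - l) * γ * |u 0| := mul_le_mul_of_nonneg_right e2 (abs_nonneg _)
    have h5 := le_max_left (α * u 1) (-β * u 1 + γ * |u 0|)
    have h6 := le_max_right (α * u 1) (-β * u 1 + γ * |u 0|)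
    have h7 := mul_le_mul_of_nonneg_left h5 hl0
    have h8 := mul_le_mul_of_nonneg_left h6 (sub_nonneg.2 hl1)
    have h9 : φ 1 * u 1 = l * (α * u 1) + (1 - l) * (-β * u 1) := by
      rw [e1]; ring
    rw [h9]
    nlinarith

lemma volume_K0 {α β γ : ℝ} (hγ : 0 ≤ γ) (hαβ : 0 < α + β) :
    volume (K0 α β γ) = ENNReal.ofReal (γ * (α + β)) := by
  set S : Set (ℝ × ℝ) := {q : ℝ × ℝ | -β ≤ q.2 ∧ q.2 ≤ α ∧ |q.1| * (α + β) ≤ γ * (α - q.2)} with hS
  have hSm : MeasurableSet S := by
    have c1 : IsClosed {q : ℝ × ℝ | -β ≤ q.2} := isClosed_le continuous_const continuous_snd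
    have c2 : IsClosed {q : ℝ × ℝ | q.2 ≤ α} := isClosed_le continuous_snd continuous_const
    have c3 : IsClosed {q : ℝ × ℝ | |q.1| * (α + β) ≤ γ * (α - q.2)} :=
      isClosed_le (by fun_prop) (by fun_prop)
    exact (c1.inter (c2.inter c3)).measurableSet
  rw [K0_eq hαβ, volume_preimage_toPair hSm, Measure.volume_eq_prod,
    Measure.prod_apply_symm hSm]
  have h1 : ∀ y : ℝ, volume ((fun x : ℝ => (x, y)) ⁻¹' S) =
      (Icc (-β) α).indicator (fun y => ENNReal.ofReal (2 * γ * (α - y) / (α + β))) y := by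
    intro y
    by_cases hy : y ∈ Icc (-β) α
    · rw [indicator_of_mem hy]
      have h2 : (fun x : ℝ => (x, y)) ⁻¹' S =
          Icc (-(γ * (α - y) / (α + β))) (γ * (α - y) / (α + β)) := by
        ext x
        simp only [hS, mem_preimage, mem_ofPred_eq, mem_Icc]
        rw [← abs_le, le_div_iff₀ hαβ]
        exact ⟨fun h => h.2.2, fun h => ⟨hy.1, hy.2, h⟩⟩
      rw [h2, Real.volume_Icc]
      congr 1
      ring
    · rw [indicator_of_notMem hy]
      have h2 : (fun x : ℝ => (x, y)) ⁻¹' S = ∅ := by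
        ext x
        simp only [hS, mem_preimage, mem_ofPred_eq, mem_empty_iff_false, iff_false]
        rintro ⟨h3, h4, -⟩
        exact hy ⟨h3, h4⟩
      rw [h2, measure_empty]
  rw [lintegral_congr h1, lintegral_indicator measurableSet_Icc]
  rw [← ofReal_integral_eq_lintegral_ofReal]
  · congr 1
    rw [integral_Icc_eq_integral_Ioc, ← intervalIntegral.integral_of_le (by linarith)]
    have h2 : ∀ y : ℝ, HasDerivAt (fun y => 2 * γ * (α * y - y ^ 2 / 2) / (α + β))
        (2 * γ * (α - y) / (α + β)) y := by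
      intro y
      have h3 : HasDerivAt (fun y : ℝ => α * y - y ^ 2 / 2) (α * 1 - (2 : ℕ) * y ^ (2 - 1) * 1 / 2) y :=
        ((hasDerivAt_id y).const_mul α).sub (((hasDerivAt_id y).pow 2).div_const 2)
      have h4 := (h3.const_mul (2 * γ)).div_const (α + β)
      have h5 : 2 * γ * (α * 1 - (2 : ℕ) * y ^ (2 - 1) * 1 / 2) / (α + β) =
          2 * γ * (α - y) / (α + β) := by norm_num
      rw [h5] at h4
      exact h4
    rw [intervalIntegral.integral_eq_sub_of_hasDerivAt (fun y _ => h2 y)]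
    · field_simp
      ring
    · apply Continuous.intervalIntegrable
      fun_prop
  · apply Continuous.integrableOn_Icc
    fun_prop
  · rw [Filter.EventuallyLE, ae_restrict_iff' measurableSet_Icc]
    refine Filter.Eventually.of_forall fun y hy => ?_
    have : 0 ≤ α - y := by linarith [hy.2]
    simp only [Pi.zero_apply]
    positivity

end Pool.Agent.Helper30.Filling
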