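import Mathlib
import Pool.Agent.Helper30.FillVol
import Pool.Agent.Helper30.FillCoord
open Set Topology MeasureTheory
open scoped Manifold ContDiff ENNReal

noncomputable section
namespace Pool.Agent.Helper30.Filling

lemma mvfderiv_extend_surjective {s : ℝ} {p : Mob} (hp : p ∈ (chrt s).source) :
    Function.Surjective (mvfderiv (𝓡∂ 2) ((chrt s).extend (𝓡∂ 2)) p) := by
  have he : (chrt s).MDifferentiable (𝓡∂ 2) (𝓡∂ 2) :=
    mdifferentiable_of_mem_atlas (show chrt s ∈ atlas H2 Mob from ⟨s, rfl⟩)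
  have h1 := he.mfderiv_surjective hp
  have h2 : mfderiv (𝓡∂ 2) 𝓘(ℝ, E2) ((chrt s).extend (𝓡∂ 2)) p =
      (mfderiv (𝓡∂ 2) 𝓘(ℝ, E2) (𝓡∂ 2) (chrt s p)).comp (mfderiv (𝓡∂ 2) (𝓡∂ 2) (chrt s) p) :=
    mfderiv_comp p (𝓡∂ 2).mdifferentiableAt (he.mdifferentiableAt hp)
  rw [(𝓡∂ 2).hasMFDerivAt.mfderiv] at h2
  intro u
  obtain ⟨v, hv⟩ := h1 u
  refine ⟨v, ?_⟩
  change mfderiv (𝓡∂ 2) 𝓘(ℝ, E2) ((chrt s).extend (𝓡∂ 2)) p v = u
  rw [h2]
  exact hv

variable {α β γ : ℝ} (hα : 0 ≤ α) (hβ : 0 ≤ β) (hγ : 0 ≤ γ)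

lemma codisk_chrt {s : ℝ} {p : Mob} (hp : p ∈ (chrt s).source) :
    codisk (FMob α β γ hα hβ hγ) (chrt s) p = K0 α β γ := by
  ext φ
  simp only [codisk, K0, mem_ofPred_eq]
  constructor
  · intro h u
    obtain ⟨v, hv⟩ := mvfderiv_extend_surjective hp u
    have := h v
    rw [FMob_chart hα hβ hγ hp, hv] at this
    exact this
  · intro h v
    rw [FMob_chart hα hβ hγ hp]
    exact h _

lemma chrt_extend_symm_mem {s : ℝ} {y : E2} (hy : y ∈ ((chrt s).extend (𝓡∂ 2)).target) :
    ((chrt s).extend (𝓡∂ 2)).symm y ∈ (chrt s).source := by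
  have := ((chrt s).extend (𝓡∂ 2)).map_target hy
  rwa [(chrt s).extend_source] at this

lemma extend_image_subset_target {s : ℝ} {A : Set Mob} (hA : A ⊆ (chrt s).source) :
    (chrt s).extend (𝓡∂ 2) '' A ⊆ ((chrt s).extend (𝓡∂ 2)).target := by
  rintro _ ⟨x, hx, rfl⟩
  exact ((chrt s).extend (𝓡∂ 2)).map_source (by rw [(chrt s).extend_source]; exact hA hx)

lemma lintegral_chrt {s : ℝ} {A : Set Mob} (hA : A ⊆ (chrt s).source) (hAm : MeasurableSet A) :
    ∫⁻ y in (chrt s).extend (𝓡∂ 2) '' A,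
      volume (codisk (FMob α β γ hα hβ hγ) (chrt s) (((chrt s).extend (𝓡∂ 2)).symm y)) =
      volume (K0 α β γ) * volume ((chrt s).extend (𝓡∂ 2) '' A) := by
  have hm := measurableSet_extend_image (I := 𝓡∂ 2) (chrt s) hA hAm
  rw [← setLIntegral_const]
  refine setLIntegral_congr_fun hm fun y hy => ?_
  rw [codisk_chrt hα hβ hγ (chrt_extend_symm_mem (extend_image_subset_target hA hy))]

/-- the centre of the main chart. -/
def s0 : ℝ := Real.pi / 2

/-- The complement of the main chart is null in every chart of the atlas. -/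
lemma main_compl_null (s : ℝ) :
    volume ((chrt s).extend (𝓡∂ 2) '' ((chrt s).source \ (chrt s0).source)) = 0 := by
  have hsub : (chrt s).extend (𝓡∂ 2) '' ((chrt s).source \ (chrt s0).source) ⊆
      ({x : E2 | x 0 = 0} ∪ {x : E2 | x 0 = 2}) ∪ ⋃ k : ℤ, {x : E2 | x 1 = k * Real.pi} := by
    rintro _ ⟨p, ⟨hp, hp0⟩, rfl⟩
    set x : E2 := (chrt s).extend (𝓡∂ 2) p with hx
    have hpx : p.1 = parE x := incl_chart
    by_cases h1 : p.1 ∈ slit s0
    · left
      have h2 : rad s0 p.1 ≤ -1 := by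
        by_contra hcon
        exact hp0 ⟨h1, not_le.1 hcon⟩
      have h3 : |rad s0 p.1| = |1 - x 0| := by
        rw [abs_rad, ← abs_rad s p]
        have : x 0 = 1 - rad s p.1 := rfl
        rw [this, sub_sub_cancel]
      have h4 : 1 ≤ |1 - x 0| := by
        rw [← h3]
        exact le_trans (by linarith) (neg_le_abs _)
      have h5 : |1 - x 0| ≤ 1 := by
        rw [← h3, abs_rad]; exact p.2.2.1
      have h6 : |1 - x 0| = 1 := le_antisymm h5 h4
      rcases (abs_eq zero_le_one).1 h6 with h7 | h7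
      · left; show x 0 = 0; linarith
      · right; show x 0 = 2; linarith
    · right
      have h2 : p.1.1 * Complex.exp (-((2 * s0 : ℝ) : ℂ) * Complex.I) ∉ Complex.slitPlane := h1
      have h3 : Complex.exp (-((2 * s0 : ℝ) : ℂ) * Complex.I) = -1 := by
        have : -((2 * s0 : ℝ) : ℂ) * Complex.I = -(Real.pi * Complex.I) := by
          unfold s0; push_cast; ring
        rw [this, Complex.exp_neg, Complex.exp_pi_mul_I]
        norm_num
      rw [h3] at h2
      have h4 : p.1.1 = Complex.exp ((2 * x 1 : ℝ) * Complex.I) := by rw [hpx]; rfl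
      rw [Complex.mem_slitPlane_iff_not_le_zero, not_not] at h2
      have h5 : (Complex.exp ((2 * x 1 : ℝ) * Complex.I)).im = 0 := by
        rw [← h4]
        have := (Complex.le_def.1 h2).2
        simpa using this
      have h6 : 0 ≤ (Complex.exp ((2 * x 1 : ℝ) * Complex.I)).re := by
        rw [← h4]
        have := (Complex.le_def.1 h2).1
        simpa using this
      rw [Complex.exp_ofReal_mul_I_im] at h5
      rw [Complex.exp_ofReal_mul_I_re] at h6
      obtain ⟨k, hk⟩ := Real.sin_eq_zero_iff.1 h5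
      have h7 : Real.cos (2 * x 1) = 1 := by
        have := Real.sin_sq_add_cos_sq (2 * x 1)
        rw [h5] at this
        nlinarith
      obtain ⟨m, hm⟩ := (Real.cos_eq_one_iff _).1 h7
      refine mem_iUnion.2 ⟨m, ?_⟩
      show x 1 = m * Real.pi
      linarith
  refine measure_mono_null hsub ?_
  refine measure_union_null (measure_union_null (volume_coord_eq 0 0) (volume_coord_eq 0 2)) ?_
  exact measure_iUnion_null fun k => volume_coord_eq 1 _

lemma source_measurable (s : ℝ) : MeasurableSet (chrt s).source :=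
  (chrt s).open_source.measurableSet

/-- the volume of the image of the main chart. -/
lemma volume_target : volume (((chrt s0).extend (𝓡∂ 2)).target) = ENNReal.ofReal (2 * Real.pi) := by
  have h1 : ((chrt s0).extend (𝓡∂ 2)).target = toPair ⁻¹' (Ico 0 2 ×ˢ Ioo 0 Real.pi) := by
    ext x
    rw [(chrt s0).extend_target, range_modelWithCornersEuclideanHalfSpace]
    constructor
    · rintro ⟨h1, h2⟩
      have h2 : 0 ≤ x 0 := h2
      have hv := I_symm_val h2
      have h3 : ((𝓡∂ 2).symm x).1 0 < 2 ∧ |((𝓡∂ 2).symm x).1 1 - s0| < Real.pi / 2 := h1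
      rw [hv] at h3
      obtain ⟨h4, h5⟩ := h3
      rw [abs_lt] at h5
      unfold s0 at h5
      exact ⟨⟨h2, h4⟩, by show 0 < x 1; linarith [h5.1], by show x 1 < Real.pi; linarith [h5.2]⟩
    · rintro ⟨⟨h1, h2⟩, h3, h4⟩
      have h1 : 0 ≤ x 0 := h1
      have h3 : 0 < x 1 := h3
      have h4 : x 1 < Real.pi := h4
      have hv := I_symm_val h1
      refine ⟨?_, h1⟩
      change ((𝓡∂ 2).symm x).1 0 < 2 ∧ |((𝓡∂ 2).symm x).1 1 - s0| < Real.pi / 2
      rw [hv]
      refine ⟨h2, ?_⟩
      unfold s0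
      rw [abs_lt]
      constructor <;> linarith
  rw [h1, volume_preimage_toPair (measurableSet_Ico.prod measurableSet_Ioo), Measure.volume_eq_prod,
    Measure.prod_prod, Real.volume_Ico, Real.volume_Ioo, ← ENNReal.ofReal_mul (by norm_num)]
  congr 1
  ring

/-- the inverse of the main chart, as a total function. -/
def g0 (y : E2) : Mob := ((chrt s0).extend (𝓡∂ 2)).symm y

lemma g0_continuous : Continuous g0 := by
  have h1 : Continuous chartInv := by
    refine Continuous.subtype_mk ?_ _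
    unfold par
    have h1 : Continuous fun x : H2 => x.1 1 := by fun_prop
    have h2 : Continuous fun x : H2 => max (-1) (1 - x.1 0) := by fun_prop
    fun_prop
  exact h1.comp (𝓡∂ 2).continuous_symm

/-- The area measure on the Möbius band. -/
def areaM (α β γ : ℝ) : Measure Mob :=
  volume (K0 α β γ) • Measure.map g0 (volume.restrict ((chrt s0).extend (𝓡∂ 2)).target)

lemma preimage_g0 {A : Set Mob} :
    g0 ⁻¹' A ∩ ((chrt s0).extend (𝓡∂ 2)).target =
      (chrt s0).extend (𝓡∂ 2) '' (A ∩ (chrt s0).source) := by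
  ext y
  constructor
  · rintro ⟨h1, h2⟩
    exact ⟨g0 y, ⟨h1, chrt_extend_symm_mem h2⟩, ((chrt s0).extend (𝓡∂ 2)).right_inv h2⟩
  · rintro ⟨p, ⟨h1, h2⟩, rfl⟩
    refine ⟨?_, extend_image_subset_target inter_subset_right ⟨p, ⟨h1, h2⟩, rfl⟩⟩
    rw [mem_preimage]
    have : g0 ((chrt s0).extend (𝓡∂ 2) p) = p := (chrt s0).extend_left_inv h2
    rw [this]
    exact h1

lemma areaM_apply {A : Set Mob} (hA : MeasurableSet A) :
    areaM α β γ A = volume (K0 α β γ) *
      volume ((chrt s0).extend (𝓡∂ 2) '' (A ∩ (chrt s0).source)) := by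
  unfold areaM
  rw [Measure.smul_apply, smul_eq_mul, Measure.map_apply g0_continuous.measurable hA,
    Measure.restrict_apply (g0_continuous.measurable hA), preimage_g0]

lemma areaM_univ (hαβ : 0 < α + β) (hγ : 0 ≤ γ) :
    areaM α β γ univ = ENNReal.ofReal (γ * (α + β) * (2 * Real.pi)) := by
  rw [areaM_apply MeasurableSet.univ, ← preimage_g0, preimage_univ, univ_inter, volume_target,
    volume_K0 hγ hαβ, ← ENNReal.ofReal_mul (by positivity)]

/-- null sets do not depend on the chart. -/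
lemma null_chart_change {e e' : OpenPartialHomeomorph Mob H2}
    (he : e ∈ IsManifold.maximalAtlas (𝓡∂ 2) ∞ Mob)
    (he' : e' ∈ IsManifold.maximalAtlas (𝓡∂ 2) ∞ Mob) {A : Set Mob}
    (hA : A ⊆ e.source) (hA' : A ⊆ e'.source) (h0 : volume (e.extend (𝓡∂ 2) '' A) = 0) :
    volume (e'.extend (𝓡∂ 2) '' A) = 0 := by
  set φ := (𝓡∂ 2).extendCoordChange e e' with hφ
  have hsub : e.extend (𝓡∂ 2) '' A ⊆ φ.source := by
    rw [hφ, ← OpenPartialHomeomorph.extend_image_source_inter]
    exact image_mono fun x hx => ⟨hA hx, hA' hx⟩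
  have himg : e'.extend (𝓡∂ 2) '' A = φ '' (e.extend (𝓡∂ 2) '' A) := by
    rw [image_image]
    refine image_congr fun x hx => ?_
    change _ = e'.extend (𝓡∂ 2) ((e.extend (𝓡∂ 2)).symm (e.extend (𝓡∂ 2) x))
    rw [e.extend_left_inv (hA hx)]
  rw [himg]
  refine addHaar_image_eq_zero_of_differentiableOn_of_addHaar_eq_zero _ ?_ h0
  intro y hy
  exact (((𝓡∂ 2).contDiffOn_extendCoordChange he he' _ (hsub hy)).differentiableWithinAt
      (by simp)).mono hsub

lemma compl_null_of_mem_maximalAtlas {e : OpenPartialHomeomorph Mob H2}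
    (he : e ∈ IsManifold.maximalAtlas (𝓡∂ 2) ∞ Mob) :
    volume (e.extend (𝓡∂ 2) '' (e.source \ (chrt s0).source)) = 0 := by
  refine measure_null_of_locally_null _ ?_
  rintro _ ⟨p, ⟨hp, hp0⟩, rfl⟩
  set c := chrt (ctr p) with hc
  have hpc : p ∈ c.source := mem_chrt_source p
  refine ⟨e.extend (𝓡∂ 2) '' ((e.source ∩ c.source) \ (chrt s0).source), ?_, ?_⟩
  · have h1 : ((𝓡∂ 2).extendCoordChange e c).source ∈ 𝓝[range (𝓡∂ 2)] (e.extend (𝓡∂ 2) p) := by
      refine (𝓡∂ 2).extendCoordChange_source_mem_nhdsWithin' hp hpc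
    have h2 : 𝓝[e.extend (𝓡∂ 2) '' (e.source \ (chrt s0).source)] (e.extend (𝓡∂ 2) p) ≤
        𝓝[range (𝓡∂ 2)] (e.extend (𝓡∂ 2) p) := by
      refine nhdsWithin_mono _ ?_
      rintro _ ⟨q, -, rfl⟩
      exact mem_range_self _
    have h3 := h2 h1
    rw [← OpenPartialHomeomorph.extend_image_source_inter] at h3
    filter_upwards [h3, self_mem_nhdsWithin] with y hy1 hy2
    obtain ⟨q1, hq1, rfl⟩ := hy1
    obtain ⟨q2, hq2, hq⟩ := hy2
    have : q2 = q1 := by
      have h4 := (e.extend_left_inv (I := 𝓡∂ 2) hq1.1)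
      have h5 := (e.extend_left_inv (I := 𝓡∂ 2) hq2.1)
      rw [← h5, hq, h4]
    rw [this] at hq2
    exact ⟨q1, ⟨hq1, hq2.2⟩, rfl⟩
  · refine null_chart_change (chrt_mem _) he (A := (e.source ∩ c.source) \ (chrt s0).source)
      (fun q hq => hq.1.2) (fun q hq => hq.1.1) ?_
    have hss : (e.source ∩ c.source) \ (chrt s0).source ⊆
        (chrt (ctr p)).source \ (chrt s0).source := fun q hq => ⟨hq.1.2, hq.2⟩
    exact measure_mono_null (image_mono hss) (main_compl_null (ctr p))

theorem areaM_isHolmesThompson :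
    IsHolmesThompsonArea (FMob α β γ hα hβ hγ) (areaM α β γ) := by
  intro e he A hA hAm
  set c0 := chrt s0 with hc0
  have hs0 := source_measurable s0
  have hA1 : MeasurableSet (A ∩ c0.source) := hAm.inter hs0
  have hA2 : MeasurableSet (A \ c0.source) := hAm.diff hs0
  have hsplit : e.extend (𝓡∂ 2) '' A =
      e.extend (𝓡∂ 2) '' (A ∩ c0.source) ∪ e.extend (𝓡∂ 2) '' (A \ c0.source) := by
    rw [← image_union, inter_union_sdiff]
  have hnull : volume (e.extend (𝓡∂ 2) '' (A \ c0.source)) = 0 :=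
    measure_mono_null (image_mono (sdiff_subset_sdiff_left hA)) (compl_null_of_mem_maximalAtlas he)
  have hdisj : Disjoint (e.extend (𝓡∂ 2) '' (A ∩ c0.source))
      (e.extend (𝓡∂ 2) '' (A \ c0.source)) := by
    rw [Set.disjoint_left]
    rintro _ ⟨q1, hq1, rfl⟩ ⟨q2, hq2, hq⟩
    have h4 := (e.extend_left_inv (I := 𝓡∂ 2) (hA hq1.1))
    have h5 := (e.extend_left_inv (I := 𝓡∂ 2) (hA hq2.1))
    rw [hq, h4] at h5
    rw [← h5] at hq2
    exact hq2.2 hq1.2
  rw [hsplit, lintegral_union (measurableSet_extend_image (I := 𝓡∂ 2) e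
    (sdiff_subset.trans hA) hA2) hdisj, setLIntegral_measure_zero _ _ hnull, add_zero,
    lintegral_codisk_chart_change _ he (chrt_mem s0) (inter_subset_left.trans hA) inter_subset_right
      hA1, lintegral_chrt hα hβ hγ inter_subset_right hA1, areaM_apply hAm]

instance : SecondCountableTopology Mob :=
  inferInstanceAs (SecondCountableTopology {_p : ℂ × ℂ // _})

/-- The area measure is unique; its total mass. -/
theorem area_unique (hαβ : 0 < α + β) {μ : Measure Mob}
    (hμ : IsHolmesThompsonArea (FMob α β γ hα hβ hγ) μ) :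
    μ univ = ENNReal.ofReal (γ * (α + β) * (2 * Real.pi)) := by
  have hs0 := source_measurable s0
  have hcompl : μ ((chrt s0).sourceᶜ) = 0 := by
    refine measure_null_of_locally_null _ fun p hp => ?_
    refine ⟨(chrt (ctr p)).source \ (chrt s0).source, ?_, ?_⟩
    · rw [mem_nhdsWithin_iff_exists_mem_nhds_inter]
      exact ⟨(chrt (ctr p)).source, (chrt (ctr p)).open_source.mem_nhds (mem_chrt_source p),
        fun q hq => ⟨hq.1, hq.2⟩⟩
    · rw [hμ _ (chrt_mem _) _ sdiff_subset ((source_measurable _).diff hs0)]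
      exact setLIntegral_measure_zero _ _ (main_compl_null _)
  have h1 : μ univ = μ (chrt s0).source := by
    refine le_antisymm ?_ (measure_mono (subset_univ _))
    calc μ univ = μ ((chrt s0).source ∪ (chrt s0).sourceᶜ) := by rw [union_compl_self]
      _ ≤ μ (chrt s0).source + μ ((chrt s0).sourceᶜ) := measure_union_le _ _
      _ = μ (chrt s0).source := by rw [hcompl, add_zero]
  have h2 : (chrt s0).extend (𝓡∂ 2) '' (chrt s0).source = ((chrt s0).extend (𝓡∂ 2)).target := by
    rw [← (chrt s0).extend_source (I := 𝓡∂ 2)]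
    exact ((chrt s0).extend (𝓡∂ 2)).image_source_eq_target
  rw [h1, hμ _ (chrt_mem s0) _ Subset.rfl hs0, lintegral_chrt hα hβ hγ Subset.rfl hs0, h2,
    volume_target, volume_K0 hγ hαβ, ← ENNReal.ofReal_mul (by positivity)]

end Pool.Agent.Helper30.Filling
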