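import Mathlib
import Pool.Agent.Helper30.FillMetric
open Set Topology MeasureTheory Complex
open scoped Manifold ContDiff ENNReal ComplexConjugate

noncomputable section
namespace Pool.Agent.Helper30.Filling

attribute [local instance] finrank_real_complex_fact'

/-- the inclusion of the circle in the plane -/
def cincl (x : Circle) : ℂ := x

lemma cincl_contMDiff {n : WithTop ℕ∞} : ContMDiff (𝓡 1) 𝓘(ℝ, ℂ) n cincl :=
  (contMDiff_coe_sphere (m := n) (E := ℂ) (n := 1))

/-- angular velocity on the circle. -/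
def cang (p q : ℂ) : ℝ := (conj p * q).im

lemma cang_add (p q q' : ℂ) : cang p (q + q') = cang p q + cang p q' := by
  simp only [cang, mul_add, add_im]

lemma cang_smul (p q : ℂ) (c : ℝ) : cang p (c • q) = c * cang p q := by
  simp only [cang, real_smul]
  have : (conj p * (↑c * q)) = (c : ℂ) * (conj p * q) := by ring
  rw [this, im_ofReal_mul]

/-- The directed metric on the circle with velocities `α` counterclockwise, `β` clockwise. -/
def GCirc (α β : ℝ) (hα : 0 ≤ α) (hβ : 0 ≤ β) : DirectedFinsler (𝓡 1) Circle where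
  toFun q := max (α * cang (cincl q.1) (mvfderiv (𝓡 1) cincl q.1 q.2))
    (-β * cang (cincl q.1) (mvfderiv (𝓡 1) cincl q.1 q.2))
  continuous_toFun := by
    have h1 : Continuous (tangentMap (𝓡 1) 𝓘(ℝ, ℂ) cincl) :=
      (cincl_contMDiff (n := ∞)).continuous_tangentMap (by simp)
    have h2 : Continuous fun q : TangentBundle (𝓡 1) Circle =>
        ((cincl q.1, mvfderiv (𝓡 1) cincl q.1 q.2) : ℂ × ℂ) :=
      (tangentBundleModelSpaceHomeomorph 𝓘(ℝ, ℂ)).continuous.comp h1
    have h3 : Continuous fun r : ℂ × ℂ => cang r.1 r.2 := by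
      unfold cang
      exact continuous_im.comp ((continuous_conj.comp continuous_fst).mul continuous_snd)
    have h4 := h3.comp h2
    exact (continuous_const.mul h4).max (continuous_const.mul h4)
  nonneg q := by
    rcases le_total 0 (cang (cincl q.1) (mvfderiv (𝓡 1) cincl q.1 q.2)) with h | h
    · exact le_max_of_le_left (mul_nonneg hα h)
    · exact le_max_of_le_right (by nlinarith)
  homogeneous x v c hc := by
    simp only
    rw [map_smul, cang_smul, mul_max_of_nonneg _ _ hc]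
    congr 1 <;> ring
  convex x := by
    refine ⟨convex_univ, fun v _ w _ a b ha hb _ => ?_⟩
    simp only [smul_eq_mul]
    rw [map_add, map_smul, map_smul, cang_add, cang_smul, cang_smul]
    set A := cang (cincl x) (mvfderiv (𝓡 1) cincl x v)
    set B := cang (cincl x) (mvfderiv (𝓡 1) cincl x w)
    have h1 := mul_le_mul_of_nonneg_left (le_max_left (α * A) (-β * A)) ha
    have h2 := mul_le_mul_of_nonneg_left (le_max_left (α * B) (-β * B)) hb
    have h3 := mul_le_mul_of_nonneg_left (le_max_right (α * A) (-β * A)) ha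
    have h4 := mul_le_mul_of_nonneg_left (le_max_right (α * B) (-β * B)) hb
    refine max_le ?_ ?_
    · linarith
    · linarith

/-- the arc from `x` with total angle `τ`. -/
def arc (x : Circle) (τ : ℝ) (s : ℝ) : Circle := x * Circle.exp (τ * s)

lemma arc_contMDiff (x : Circle) (τ : ℝ) {n : WithTop ℕ∞} : ContMDiff 𝓘(ℝ, ℝ) (𝓡 1) n (arc x τ) := by
  have h1 : ContMDiff 𝓘(ℝ, ℝ) (𝓡 1) n fun s : ℝ => Circle.exp (τ * s) := by
    refine contMDiff_circleExp.comp ?_
    exact (contDiff_const.mul contDiff_id).contMDiff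
  have : LieGroup (𝓡 1) n Circle := LieGroup.of_le (n := ω) le_top
  exact contMDiff_const.mul h1

lemma cincl_arc (x : Circle) (τ s : ℝ) : cincl (arc x τ s) = x * exp ((τ * s : ℝ) * I) := by
  simp [cincl, arc, Circle.coe_exp]

lemma arc_velocity (x : Circle) (τ s : ℝ) :
    mvfderiv (𝓡 1) cincl (arc x τ s) (mfderiv 𝓘(ℝ, ℝ) (𝓡 1) (arc x τ) s (1 : ℝ)) =
      τ * I * cincl (arc x τ s) := by
  have h1 : MDifferentiableAt (𝓡 1) 𝓘(ℝ, ℂ) cincl (arc x τ s) :=
    (cincl_contMDiff (n := 1)).mdifferentiableAt one_ne_zero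
  have h2 : MDifferentiableAt 𝓘(ℝ, ℝ) (𝓡 1) (arc x τ) s :=
    (arc_contMDiff x τ (n := 1)).mdifferentiableAt one_ne_zero
  have h3 := (h1.hasMFDerivAt.comp s h2.hasMFDerivAt)
  let L : ℝ →L[ℝ] ℂ := (mfderiv (𝓡 1) 𝓘(ℝ, ℂ) cincl (arc x τ s)).comp
    (mfderiv 𝓘(ℝ, ℝ) (𝓡 1) (arc x τ) s)
  have h4 : HasFDerivAt (cincl ∘ arc x τ) L s := h3.hasFDerivAt
  have h5 : HasDerivAt (fun s => (x : ℂ) * exp ((τ * s : ℝ) * I)) (τ * I * cincl (arc x τ s)) s := by
    have e1 : HasDerivAt (fun s : ℝ => ((τ * s : ℝ) : ℂ) * I) (τ * I) s := by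
      have e2 : HasDerivAt (fun s : ℝ => τ * s) τ s := by
        simpa using (hasDerivAt_id s).const_mul τ
      exact (e2.ofReal_comp).mul_const I
    have e3 := (e1.cexp).const_mul (x : ℂ)
    have e4 : (x : ℂ) * (exp (((τ * s : ℝ) : ℂ) * I) * (τ * I)) = τ * I * cincl (arc x τ s) := by
      rw [cincl_arc]; ring
    rwa [e4] at e3
  have h6 : (cincl ∘ arc x τ) = fun s => (x : ℂ) * exp ((τ * s : ℝ) * I) :=
    funext fun s => cincl_arc x τ s
  rw [h6] at h4
  have h7 := h4.hasDerivAt.unique h5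
  exact h7

lemma length_arc {α β : ℝ} (hα : 0 ≤ α) (hβ : 0 ≤ β) (x : Circle) (τ : ℝ) :
    length (GCirc α β hα hβ) (arc x τ) = ENNReal.ofReal (max (α * τ) (-β * τ)) := by
  unfold length
  have h1 : ∀ s : ℝ, (GCirc α β hα hβ).toFun
      ⟨arc x τ s, mfderiv 𝓘(ℝ, ℝ) (𝓡 1) (arc x τ) s (1 : ℝ)⟩ = max (α * τ) (-β * τ) := by
    intro s
    have h2 : cang (cincl (arc x τ s))
        (mvfderiv (𝓡 1) cincl (arc x τ s) (mfderiv 𝓘(ℝ, ℝ) (𝓡 1) (arc x τ) s (1 : ℝ))) = τ := by
      rw [arc_velocity]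
      unfold cang
      have h3 : conj (cincl (arc x τ s)) * (τ * I * cincl (arc x τ s)) =
          (conj (cincl (arc x τ s)) * cincl (arc x τ s)) * (τ * I) := by ring
      have h4 : ‖cincl (arc x τ s)‖ = 1 := Circle.norm_coe _
      rw [h3, conj_mul_self_of_norm h4]
      simp
    simp only [GCirc]
    rw [h2]
  simp only [h1]
  rw [setLIntegral_const, Real.volume_Icc]
  simp

lemma arc_isPath (x : Circle) (τ : ℝ) :
    IsPiecewiseC1Path (𝓡 1) (arc x τ) x (x * Circle.exp τ) := by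
  refine ⟨by simp [arc], by simp [arc], 1, fun i => (i : ℝ), Nat.mono_cast, by simp, by simp, ?_⟩
  intro i _
  exact (arc_contMDiff x τ).contMDiffOn

lemma directedDist_circle_le {α β : ℝ} (hα : 0 ≤ α) (hβ : 0 ≤ β) (x : Circle) (τ : ℝ) :
    directedDist (GCirc α β hα hβ) x (x * Circle.exp τ) ≤ ENNReal.ofReal (max (α * τ) (-β * τ)) := by
  rw [← length_arc hα hβ x τ]
  exact iInf₂_le (arc x τ) (arc_isPath x τ)

lemma length_circlePos {α β : ℝ} (hα : 0 ≤ α) (hβ : 0 ≤ β) :
    length (GCirc α β hα hβ) circlePos = ENNReal.ofReal (2 * Real.pi * α) := by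
  have : circlePos = arc 1 (2 * Real.pi) := by
    funext s; simp [circlePos, arc]
  rw [this, length_arc]
  congr 1
  have := Real.pi_pos
  rw [max_eq_left (by nlinarith)]
  ring

lemma length_circleNeg {α β : ℝ} (hα : 0 ≤ α) (hβ : 0 ≤ β) :
    length (GCirc α β hα hβ) circleNeg = ENNReal.ofReal (2 * Real.pi * β) := by
  have : circleNeg = arc 1 (-(2 * Real.pi)) := by
    funext s; simp [circleNeg, arc]
  rw [this, length_arc]
  congr 1
  have := Real.pi_pos
  rw [max_eq_right (by nlinarith)]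
  ring

end Pool.Agent.Helper30.Filling
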