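import Mathlib
import Pool.Agent.Helper30.FillCircle
open Set Topology MeasureTheory Complex
open scoped Manifold ContDiff ENNReal ComplexConjugate

noncomputable section
namespace Pool.Agent.Helper30.Filling

attribute [local instance] finrank_real_complex_fact'

/-- The identification of the circle with the boundary of the Möbius band. -/
def bd (x : Circle) : Mob := ⟨((x : ℂ) ^ 2, (x : ℂ)), by
  have h := Circle.norm_coe x
  refine ⟨by rw [norm_pow, h, one_pow], h.le, ?_⟩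
  rw [h]
  simp⟩

lemma bd_continuous : Continuous bd := by
  refine Continuous.subtype_mk ?_ _
  exact (continuous_subtype_val.pow 2).prodMk continuous_subtype_val

lemma bd_injective : Function.Injective bd := by
  intro x y h
  have := congrArg (fun p : Mob => p.1.2) h
  exact Circle.ext this

/-- the chart formula on the ambient space. -/
def chartE (s : ℝ) (p : ℂ × ℂ) : E2 := !₂[1 - rad s p, ang s p.1]

lemma chartE_contDiffAt {n : WithTop ℕ∞} {s : ℝ} {p : ℂ × ℂ} (h : p ∈ slit s) :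
    ContDiffAt ℝ n (chartE s) p := by
  unfold chartE
  have h1 : ContDiffAt ℝ n (fun p : ℂ × ℂ => ang s p.1) p :=
    ContDiffAt.comp (g := ang s) (f := Prod.fst) p (ang_contDiffAt h) contDiffAt_fst
  rw [contDiffAt_euclidean]
  intro i
  fin_cases i
  · simpa using contDiffAt_const.sub (rad_contDiffAt h)
  · simpa using h1

lemma bd_contMDiff : ContMDiff (𝓡 1) (𝓡∂ 2) ∞ bd := by
  intro x
  rw [contMDiffAt_iff_target]
  refine ⟨bd_continuous.continuousAt, ?_⟩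
  set s := ctr (bd x) with hs
  have h1 : (extChartAt (𝓡∂ 2) (bd x) ∘ bd) = chartE s ∘ (fun z : ℂ => (z ^ 2, z)) ∘ cincl := rfl
  rw [h1]
  have h2 : ContMDiffAt (𝓡 1) 𝓘(ℝ, ℂ) ∞ cincl x := cincl_contMDiff x
  have h3 : ContMDiffAt 𝓘(ℝ, ℂ) 𝓘(ℝ, ℂ × ℂ) ∞ (fun z : ℂ => (z ^ 2, z)) (cincl x) := by
    refine ContDiffAt.contMDiffAt ?_
    fun_prop
  have h4 : ContMDiffAt 𝓘(ℝ, ℂ × ℂ) 𝓘(ℝ, E2) ∞ (chartE s) ((fun z : ℂ => (z ^ 2, z)) (cincl x)) :=
    (chartE_contDiffAt (mem_chrt_source (bd x)).1).contMDiffAt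
  exact h4.comp x (h3.comp x h2)

lemma bd_mfderiv_injective (x : Circle) :
    Function.Injective (mfderiv (𝓡 1) (𝓡∂ 2) bd x) := by
  have h0 : Function.Injective (mfderiv (𝓡 1) 𝓘(ℝ, ℂ) cincl x) :=
    mfderiv_coe_sphere_injective (E := ℂ) (n := 1) x
  have h1 : HasMFDerivAt (𝓡 1) (𝓡∂ 2) bd x (mfderiv (𝓡 1) (𝓡∂ 2) bd x) :=
    (bd_contMDiff.mdifferentiableAt (by simp)).hasMFDerivAt
  have h2 : HasMFDerivAt (𝓡∂ 2) 𝓘(ℝ, ℂ × ℂ) incl (bd x) (mfderiv (𝓡∂ 2) 𝓘(ℝ, ℂ × ℂ) incl (bd x)) :=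
    ((incl_contMDiff (n := 1)).mdifferentiableAt one_ne_zero).hasMFDerivAt
  have h3 : HasMFDerivAt 𝓘(ℝ, ℂ × ℂ) 𝓘(ℝ, ℂ) Prod.snd (incl (bd x)) (ContinuousLinearMap.snd ℝ ℂ ℂ) :=
    (ContinuousLinearMap.snd ℝ ℂ ℂ).hasMFDerivAt
  have h4 := h3.comp x (h2.comp x h1)
  have h5 : (Prod.snd ∘ (incl ∘ bd)) = cincl := rfl
  rw [h5] at h4
  have h6 := h4.mfderiv
  rw [h6] at h0
  intro v w hvw
  apply h0
  exact congrArg (fun u => (ContinuousLinearMap.snd ℝ ℂ ℂ)
    (mfderiv (𝓡∂ 2) 𝓘(ℝ, ℂ × ℂ) incl (bd x) u)) hvw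

lemma bd_range : range bd = (𝓡∂ 2).boundary Mob := by
  ext p
  have hmem := mem_chrt_source p
  have habs := abs_rad (ctr p) p
  have hiff : p ∈ (𝓡∂ 2).boundary Mob ↔ rad (ctr p) p.1 = 1 := by
    change extChartAt (𝓡∂ 2) p p ∈ frontier (range (𝓡∂ 2)) ↔ _
    rw [range_modelWithCornersEuclideanHalfSpace, frontier_halfSpace]
    change 0 = 1 - rad (ctr p) p.1 ↔ _
    constructor <;> intro h <;> linarith
  rw [hiff]
  constructor
  · rintro ⟨x, rfl⟩
    have h1 : ‖(bd x).1.2‖ = 1 := Circle.norm_coe x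
    rw [h1] at habs
    rcases (abs_eq zero_le_one).1 habs with h | h
    · exact h
    · have := hmem.2
      rw [h] at this
      exact absurd this (lt_irrefl _)
  · intro h
    rw [h, abs_one] at habs
    have h2 := p.2.2.2
    rw [← habs] at h2
    simp only [ofReal_one, one_pow, one_mul] at h2
    refine ⟨⟨p.1.2, ?_⟩, ?_⟩
    · rw [Submonoid.unitSphere, Submonoid.mem_mk]
      simpa using habs.symm
    · apply Subtype.ext
      ext1
      · exact h2
      · rfl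

lemma bd_isBoundaryParametrization : IsBoundaryParametrization (𝓡 1) (𝓡∂ 2) bd :=
  ⟨bd_contMDiff, bd_injective, bd_mfderiv_injective, bd_range⟩

end Pool.Agent.Helper30.Filling
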