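import Mathlib
import Pool.Agent.Helper30.FillMetric
open Set Topology MeasureTheory Complex
open scoped Manifold ContDiff ENNReal ComplexConjugate

noncomputable section
namespace Pool.Agent.Helper30.Filling

lemma om_continuous : Continuous fun q : (ℂ × ℂ) × (ℂ × ℂ) => om q.1 q.2 := by
  unfold om
  have : Continuous fun q : (ℂ × ℂ) × (ℂ × ℂ) => conj q.1.1 * q.2.1 :=
    (continuous_conj.comp (continuous_fst.comp continuous_fst)).mul
      (continuous_fst.comp continuous_snd)
  exact (continuous_im.comp this).div_const 2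

lemma ro_continuous : Continuous fun q : (ℂ × ℂ) × (ℂ × ℂ) => ro q.1 q.2 := by
  unfold ro
  refine Continuous.norm ?_
  exact (continuous_snd.comp continuous_snd).sub ((continuous_const.mul
    (continuous_snd.comp continuous_fst)).mul (continuous_ofReal.comp om_continuous))

/-- the lower bound for a single `C¹` piece. -/
lemma piece {α β γ : ℝ} (hα : 0 ≤ α) (hβ : 0 ≤ β) (hγ : 0 ≤ γ) {P : ℝ → ℂ × ℂ} {a b : ℝ}
    (hab : a ≤ b) (hP : ContDiffOn ℝ 1 P (Icc a b)) (hmem : ∀ s ∈ Icc a b, ‖(P s).1‖ = 1 ∧
      (P s).2 ^ 2 = (‖(P s).2‖ : ℂ) ^ 2 * (P s).1) {θ R : ℝ} (hpar : P a = par θ R) :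
    ∃ θ' R' : ℝ, P b = par θ' R' ∧
      ENNReal.ofReal (max (α * (θ' - θ)) (-β * (θ' - θ) + γ * |R' - R|)) ≤
        ∫⁻ s in Icc a b, ENNReal.ofReal (fin α β γ (P s) (deriv P s)) := by
  rcases hab.eq_or_lt with rfl | hlt
  · exact ⟨θ, R, hpar, by simp⟩
  set V : ℝ → ℂ × ℂ := derivWithin P (Icc a b) with hV
  have hVc : ContinuousOn V (Icc a b) := hP.continuousOn_derivWithin (uniqueDiffOn_Icc hlt) le_rfl
  have hPc : ContinuousOn P (Icc a b) := hP.continuousOn
  have hder : ∀ s ∈ Ioo a b, HasDerivAt P (V s) s := fun s hs =>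
    ((hP.differentiableOn one_ne_zero) s (Ioo_subset_Icc_self hs)).hasDerivWithinAt.hasDerivAt
      (Icc_mem_nhds hs.1 hs.2)
  have hPV : ContinuousOn (fun s => (P s, V s)) (Icc a b) := hPc.prodMk hVc
  set w : ℝ → ℝ := fun s => om (P s) (V s) with hw
  have hwc : ContinuousOn w (Icc a b) := by
    have h := Continuous.comp_continuousOn om_continuous hPV
    exact h
  have hroc : ContinuousOn (fun s => ro (P s) (V s)) (Icc a b) := by
    have h := Continuous.comp_continuousOn ro_continuous hPV
    exact h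
  have hfinc : ContinuousOn (fun s => fin α β γ (P s) (V s)) (Icc a b) := by
    have h := Continuous.comp_continuousOn (fin_continuous α β γ) hPV
    exact h
  -- velocity of the first component
  have hZ : ∀ s ∈ Ioo a b, (V s).1 = 2 * I * w s * (P s).1 := by
    intro s hs
    have h1 : HasDerivAt (fun s => (P s).1) (V s).1 s := (hder s hs).fst
    have h2 : HasDerivAt (fun s => conj (P s).1 * (P s).1)
        (conj (V s).1 * (P s).1 + conj (P s).1 * (V s).1) s := h1.star.mul h1
    have h3 : (fun s => conj (P s).1 * (P s).1) =ᶠ[𝓝 s] fun _ => 1 := by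
      filter_upwards [Icc_mem_nhds hs.1 hs.2] with u hu
      exact conj_mul_self_of_norm (hmem u hu).1
    have h4 := (h2.congr_of_eventuallyEq h3.symm).unique (hasDerivAt_const s (1 : ℂ))
    have h5 : conj (conj (P s).1 * (V s).1) = conj (V s).1 * (P s).1 := by
      rw [map_mul, conj_conj]; ring
    rw [← h5] at h4
    have h6 : (conj (P s).1 * (V s).1).re = 0 := by
      have := congrArg re h4
      simp only [add_re, conj_re, zero_re] at this
      linarith
    have h7 : conj (P s).1 * (V s).1 = 2 * I * w s := by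
      apply Complex.ext
      · rw [h6]; simp
      · have : (conj (P s).1 * (V s).1).im = 2 * w s := by
          simp only [hw, om]; ring
        rw [this]; simp
    have h8 : (P s).1 * conj (P s).1 = 1 := by
      rw [mul_comm]; exact conj_mul_self_of_norm (hmem s (Ioo_subset_Icc_self hs)).1
    calc (V s).1 = ((P s).1 * conj (P s).1) * (V s).1 := by rw [h8, one_mul]
      _ = (P s).1 * (conj (P s).1 * (V s).1) := by ring
      _ = 2 * I * w s * (P s).1 := by rw [h7]; ring
  -- the angle
  set we : ℝ → ℝ := IccExtend hlt.le (fun s : Icc a b => w s) with hwe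
  have hwec : Continuous we :=
    (continuousOn_iff_continuous_domRestrict.1 hwc).Icc_extend'
  have hwe_eq : ∀ s ∈ Icc a b, we s = w s := fun s hs => by
    rw [hwe, IccExtend_of_mem _ _ hs]
  set th : ℝ → ℝ := fun s => θ + ∫ u in a..s, we u with hth
  have hthd : ∀ s, HasDerivAt th (we s) s := fun s => by
    have := (hwec.integral_hasStrictDerivAt a s).hasDerivAt
    exact this.const_add θ
  have htha : th a = θ := by simp [hth]
  have hthc : Continuous th := continuous_iff_continuousAt.2 fun s => (hthd s).continuousAt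
  have hthb : th b - θ = ∫ u in a..b, w u := by
    simp only [hth, add_sub_cancel_left]
    refine intervalIntegral.integral_congr fun u hu => ?_
    rw [uIcc_of_le hlt.le] at hu
    exact hwe_eq u hu
  -- the first component
  have hU : (P b).1 * exp (-((2 * th b : ℝ) : ℂ) * I) = 1 := by
    have hcont : ContinuousOn (fun s => (P s).1 * exp (-((2 * th s : ℝ) : ℂ) * I)) (Icc a b) := by
      have c1 : ContinuousOn (fun s => (P s).1) (Icc a b) := continuous_fst.comp_continuousOn hPc
      have c2 : Continuous fun s => exp (-((2 * th s : ℝ) : ℂ) * I) :=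
        continuous_exp.comp (((continuous_ofReal.comp (continuous_const.mul hthc)).neg).mul
          continuous_const)
      exact ContinuousOn.mul c1 c2.continuousOn
    have hd : ∀ s ∈ Ioo a b, HasDerivAt (fun s => (P s).1 * exp (-((2 * th s : ℝ) : ℂ) * I)) 0 s := by
      intro s hs
      have e1 : HasDerivAt (fun s : ℝ => -((2 * th s : ℝ) : ℂ) * I)
          (-((2 * we s : ℝ) : ℂ) * I) s :=
        (((hthd s).const_mul 2).ofReal_comp.neg).mul_const I
      have e0 : HasDerivAt (fun s => (P s).1) (V s).1 s := (hder s hs).fst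
      have e2 : HasDerivAt (fun s => (P s).1 * exp (-((2 * th s : ℝ) : ℂ) * I))
          ((V s).1 * exp (-((2 * th s : ℝ) : ℂ) * I) +
          (P s).1 * (exp (-((2 * th s : ℝ) : ℂ) * I) * (-((2 * we s : ℝ) : ℂ) * I))) s :=
        e0.mul e1.cexp
      have e3 : (V s).1 * exp (-((2 * th s : ℝ) : ℂ) * I) +
          (P s).1 * (exp (-((2 * th s : ℝ) : ℂ) * I) * (-((2 * we s : ℝ) : ℂ) * I)) = 0 := by
        rw [hZ s hs, hwe_eq s (Ioo_subset_Icc_self hs)]
        push_cast
        ring
      rw [e3] at e2
      exact e2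
    have := intervalIntegral.integral_eq_sub_of_hasDerivAt_of_le hlt.le hcont hd
      (by simp)
    rw [intervalIntegral.integral_zero] at this
    have h1 : (P b).1 * exp (-((2 * th b : ℝ) : ℂ) * I) = (P a).1 * exp (-((2 * th a : ℝ) : ℂ) * I) := by
      linear_combination -this
    rw [h1, hpar, htha]
    simp only [par]
    rw [← exp_add]
    have h4 : ((2 * θ : ℝ) : ℂ) * I + -((2 * θ : ℝ) : ℂ) * I = 0 := by ring
    rw [h4, exp_zero]
  -- the second component
  set Y : ℝ → ℂ := fun s => (P s).2 * exp (-((th s : ℝ) : ℂ) * I) with hY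
  set Y' : ℝ → ℂ := fun s => ((V s).2 - I * (P s).2 * w s) * exp (-((th s : ℝ) : ℂ) * I) with hY'
  have hYd : ∀ s ∈ Ioo a b, HasDerivAt Y (Y' s) s := by
    intro s hs
    have e1 : HasDerivAt (fun s : ℝ => -((th s : ℝ) : ℂ) * I) (-((we s : ℝ) : ℂ) * I) s :=
      ((hthd s).ofReal_comp.neg).mul_const I
    have e0 : HasDerivAt (fun s => (P s).2) (V s).2 s := (hder s hs).snd
    have e2 : HasDerivAt Y ((V s).2 * exp (-((th s : ℝ) : ℂ) * I) +
        (P s).2 * (exp (-((th s : ℝ) : ℂ) * I) * (-((we s : ℝ) : ℂ) * I))) s :=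
      e0.mul e1.cexp
    have e3 : (V s).2 * exp (-((th s : ℝ) : ℂ) * I) +
        (P s).2 * (exp (-((th s : ℝ) : ℂ) * I) * (-((we s : ℝ) : ℂ) * I)) = Y' s := by
      rw [hwe_eq s (Ioo_subset_Icc_self hs)]
      simp only [hY']
      ring
    rw [e3] at e2
    exact e2
  have hexpc : Continuous fun s => exp (-((th s : ℝ) : ℂ) * I) :=
    continuous_exp.comp (((continuous_ofReal.comp hthc).neg).mul continuous_const)
  have hP2 : ContinuousOn (fun s => (P s).2) (Icc a b) := continuous_snd.comp_continuousOn hPc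
  have hV2 : ContinuousOn (fun s => (V s).2) (Icc a b) := continuous_snd.comp_continuousOn hVc
  have hYc : ContinuousOn Y (Icc a b) := ContinuousOn.mul hP2 hexpc.continuousOn
  have hwC : ContinuousOn (fun s => (w s : ℂ)) (Icc a b) := continuous_ofReal.comp_continuousOn hwc
  have hY1 : ContinuousOn (fun s => I * (P s).2 * w s) (Icc a b) :=
    ContinuousOn.mul (ContinuousOn.mul continuousOn_const hP2) hwC
  have hY2 : ContinuousOn (fun s => (V s).2 - I * (P s).2 * w s) (Icc a b) :=
    ContinuousOn.sub hV2 hY1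
  have hY'c : ContinuousOn Y' (Icc a b) := ContinuousOn.mul hY2 hexpc.continuousOn
  have hY'n : ∀ s, ‖Y' s‖ = ro (P s) (V s) := by
    intro s
    simp only [hY', norm_mul]
    have : ‖exp (-((th s : ℝ) : ℂ) * I)‖ = 1 := by
      have e : -((th s : ℝ) : ℂ) * I = ((-th s : ℝ) : ℂ) * I := by push_cast; ring
      rw [e, norm_exp_ofReal_mul_I]
    rw [this, mul_one]
    rfl
  have hYa : Y a = R := by
    simp only [hY]
    rw [hpar, htha]
    simp only [par]
    rw [mul_assoc, ← exp_add]
    have h4 : (θ : ℂ) * I + -(θ : ℂ) * I = 0 := by ring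
    rw [h4, exp_zero, mul_one]
  have hYint : ‖Y b - R‖ ≤ ∫ s in a..b, ro (P s) (V s) := by
    rw [← hYa, ← intervalIntegral.integral_eq_sub_of_hasDerivAt_of_le hlt.le hYc hYd
      (hY'c.intervalIntegrable_of_Icc hlt.le)]
    refine (intervalIntegral.norm_integral_le_integral_norm hlt.le).trans (le_of_eq ?_)
    exact intervalIntegral.integral_congr fun s _ => hY'n s
  have hYreal : Y b = ((Y b).re : ℂ) := by
    have h1 : Y b ^ 2 = (‖(P b).2‖ : ℂ) ^ 2 := by
      simp only [hY]
      rw [mul_pow, (hmem b (right_mem_Icc.2 hlt.le)).2, ← exp_nat_mul]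
      have e : ((2 : ℕ) : ℂ) * (-((th b : ℝ) : ℂ) * I) = -((2 * th b : ℝ) : ℂ) * I := by
        push_cast; ring
      rw [e, mul_assoc, hU, mul_one]
    have h3 : (Y b - ‖(P b).2‖) * (Y b + ‖(P b).2‖) = 0 := by linear_combination h1
    rcases mul_eq_zero.1 h3 with h | h
    · have : Y b = (‖(P b).2‖ : ℂ) := by linear_combination h
      rw [this]; simp
    · have : Y b = ((-‖(P b).2‖ : ℝ) : ℂ) := by push_cast; linear_combination h
      rw [this]; simp
  refine ⟨th b, (Y b).re, ?_, ?_⟩
  · unfold par
    ext1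
    · simp only
      have h1 : (P b).1 = (P b).1 * exp (-((2 * th b : ℝ) : ℂ) * I) * exp (((2 * th b : ℝ) : ℂ) * I) := by
        rw [mul_assoc, ← exp_add]
        have h4 : -((2 * th b : ℝ) : ℂ) * I + ((2 * th b : ℝ) : ℂ) * I = 0 := by ring
        rw [h4, exp_zero, mul_one]
      rw [h1, hU, one_mul]
    · simp only
      rw [← hYreal]
      simp only [hY]
      rw [mul_assoc, ← exp_add]
      have h4 : -(th b : ℂ) * I + (th b : ℂ) * I = 0 := by ring
      rw [h4, exp_zero, mul_one]
  · have hae : ∫⁻ s in Icc a b, ENNReal.ofReal (fin α β γ (P s) (deriv P s)) =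
        ∫⁻ s in Icc a b, ENNReal.ofReal (fin α β γ (P s) (V s)) := by
      rw [← setLIntegral_congr (Ioo_ae_eq_Icc (a := a) (b := b)),
        ← setLIntegral_congr (Ioo_ae_eq_Icc (a := a) (b := b))]
      refine setLIntegral_congr_fun measurableSet_Ioo fun s hs => ?_
      rw [(hder s hs).deriv]
    have hint : IntegrableOn (fun s => fin α β γ (P s) (V s)) (Icc a b) :=
      hfinc.integrableOn_Icc
    rw [hae, ← ofReal_integral_eq_lintegral_ofReal hint
      (Filter.Eventually.of_forall fun s => fin_nonneg hα hβ hγ _ _)]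
    refine ENNReal.ofReal_le_ofReal ?_
    rw [integral_Icc_eq_integral_Ioc, ← intervalIntegral.integral_of_le hlt.le]
    have hfi : IntervalIntegrable (fun s => fin α β γ (P s) (V s)) volume a b :=
      hfinc.intervalIntegrable_of_Icc hlt.le
    have hwi : IntervalIntegrable w volume a b := hwc.intervalIntegrable_of_Icc hlt.le
    have hri : IntervalIntegrable (fun s => ro (P s) (V s)) volume a b :=
      hroc.intervalIntegrable_of_Icc hlt.le
    have hwi1 : IntervalIntegrable (fun s => α * w s) volume a b := hwi.const_mul α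
    have hwi2 : IntervalIntegrable (fun s => -β * w s) volume a b := hwi.const_mul (-β)
    have hri1 : IntervalIntegrable (fun s => γ * ro (P s) (V s)) volume a b := hri.const_mul γ
    have hsum : IntervalIntegrable (fun s => -β * w s + γ * ro (P s) (V s)) volume a b :=
      hwi2.add hri1
    have hm1 : ∀ s ∈ Icc a b, α * w s ≤ fin α β γ (P s) (V s) := fun s _ => le_max_left _ _
    have hm2 : ∀ s ∈ Icc a b, -β * w s + γ * ro (P s) (V s) ≤ fin α β γ (P s) (V s) :=
      fun s _ => le_max_right _ _
    have hi1 : ∫ s in a..b, α * w s ≤ ∫ s in a..b, fin α β γ (P s) (V s) :=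
      intervalIntegral.integral_mono_on hlt.le hwi1 hfi hm1
    have hi2 : ∫ s in a..b, (-β * w s + γ * ro (P s) (V s)) ≤ ∫ s in a..b, fin α β γ (P s) (V s) :=
      intervalIntegral.integral_mono_on hlt.le hsum hfi hm2
    refine max_le ?_ ?_
    · rw [hthb, ← intervalIntegral.integral_const_mul]
      exact hi1
    · have h1 : |(Y b).re - R| ≤ ∫ s in a..b, ro (P s) (V s) := by
        refine le_trans (le_of_eq ?_) hYint
        rw [← Real.norm_eq_abs, ← norm_real, ofReal_sub, ← hYreal]
      have h2 : -β * (th b - θ) + γ * |(Y b).re - R| ≤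
          -β * (∫ s in a..b, w s) + γ * ∫ s in a..b, ro (P s) (V s) := by
        rw [hthb]
        have := mul_le_mul_of_nonneg_left h1 hγ
        linarith
      refine h2.trans ?_
      rw [← intervalIntegral.integral_const_mul, ← intervalIntegral.integral_const_mul,
        ← intervalIntegral.integral_add hwi2 hri1]
      exact hi2

end Pool.Agent.Helper30.Filling
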