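import Mathlib
import Pool.Agent.Helper30.FillPiece
import Pool.Agent.Helper30.FillBdry
open Set Topology MeasureTheory Complex
open scoped Manifold ContDiff ENNReal ComplexConjugate

noncomputable section
namespace Pool.Agent.Helper30.Filling

lemma pieces {α β γ : ℝ} (hα : 0 ≤ α) (hβ : 0 ≤ β) (hγ : 0 ≤ γ) {P : ℝ → ℂ × ℂ} {n : ℕ}
    {t : ℕ → ℝ} (ht : Monotone t) (hP : ∀ i < n, ContDiffOn ℝ 1 P (Icc (t i) (t (i + 1))))
    (hmem : ∀ s, ‖(P s).1‖ = 1 ∧ (P s).2 ^ 2 = (‖(P s).2‖ : ℂ) ^ 2 * (P s).1) {θ R : ℝ}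
    (hpar : P (t 0) = par θ R) {g : ℝ → ℝ≥0∞}
    (hg : ∀ i < n, ∀ s ∈ Ioo (t i) (t (i + 1)),
      g s = ENNReal.ofReal (fin α β γ (P s) (deriv P s))) :
    ∀ k ≤ n, ∃ θ' R' : ℝ, P (t k) = par θ' R' ∧
      ENNReal.ofReal (max (α * (θ' - θ)) (-β * (θ' - θ) + γ * |R' - R|)) ≤
        ∫⁻ s in Ioc (t 0) (t k), g s := by
  intro k
  induction k with
  | zero =>
    intro _
    exact ⟨θ, R, hpar, by simp⟩
  | succ k ih =>
    intro hk
    obtain ⟨θ1, R1, h1, h2⟩ := ih (by omega)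
    obtain ⟨θ2, R2, h3, h4⟩ := piece hα hβ hγ (ht (Nat.le_succ k)) (hP k (by omega))
      (fun s _ => hmem s) h1
    refine ⟨θ2, R2, h3, ?_⟩
    have hun : Ioc (t 0) (t (k + 1)) = Ioc (t 0) (t k) ∪ Ioc (t k) (t (k + 1)) :=
      (Ioc_union_Ioc_eq_Ioc (ht (Nat.zero_le k)) (ht (Nat.le_succ k))).symm
    have hdis : Disjoint (Ioc (t 0) (t k)) (Ioc (t k) (t (k + 1))) := by
      rw [Set.disjoint_left]
      intro s hs hs'
      exact absurd hs.2 (not_le.2 hs'.1)
    rw [hun, lintegral_union measurableSet_Ioc hdis]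
    have h5 : ∫⁻ s in Ioc (t k) (t (k + 1)), g s =
        ∫⁻ s in Icc (t k) (t (k + 1)), ENNReal.ofReal (fin α β γ (P s) (deriv P s)) := by
      rw [← setLIntegral_congr (Ioo_ae_eq_Icc (a := t k) (b := t (k + 1))),
        ← setLIntegral_congr (Ioo_ae_eq_Ioc (a := t k) (b := t (k + 1)))]
      exact setLIntegral_congr_fun measurableSet_Ioo fun s hs => hg k (by omega) s hs
    rw [h5]
    refine le_trans ?_ (add_le_add h2 h4)
    refine le_trans (ENNReal.ofReal_le_ofReal ?_) ENNReal.ofReal_add_le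
    have e1 := le_max_left (α * (θ1 - θ)) (-β * (θ1 - θ) + γ * |R1 - R|)
    have e2 := le_max_right (α * (θ1 - θ)) (-β * (θ1 - θ) + γ * |R1 - R|)
    have e3 := le_max_left (α * (θ2 - θ1)) (-β * (θ2 - θ1) + γ * |R2 - R1|)
    have e4 := le_max_right (α * (θ2 - θ1)) (-β * (θ2 - θ1) + γ * |R2 - R1|)
    have e5 : |R2 - R| ≤ |R1 - R| + |R2 - R1| := by
      have := abs_add_le (R1 - R) (R2 - R1)
      have e : R1 - R + (R2 - R1) = R2 - R := by ring
      rwa [e] at this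
    have e6 := mul_le_mul_of_nonneg_left e5 hγ
    refine max_le ?_ ?_
    · linarith
    · linarith

/-- the lower bound for the length of a path in the Möbius band. -/
lemma length_lower {α β γ : ℝ} (hα : 0 ≤ α) (hβ : 0 ≤ β) (hγ : 0 ≤ γ) {c : ℝ → Mob} {x y : Mob}
    (hc : IsPiecewiseC1Path (𝓡∂ 2) c x y) {θ R : ℝ} (hpar : x.1 = par θ R) :
    ∃ θ' R' : ℝ, y.1 = par θ' R' ∧
      ENNReal.ofReal (max (α * (θ' - θ)) (-β * (θ' - θ) + γ * |R' - R|)) ≤
        length (FMob α β γ hα hβ hγ) c := by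
  obtain ⟨h0, h1, n, t, ht, ht0, htn, hC⟩ := hc
  set P : ℝ → ℂ × ℂ := incl ∘ c with hPdef
  have hP : ∀ i < n, ContDiffOn ℝ 1 P (Icc (t i) (t (i + 1))) := fun i hi =>
    contMDiffOn_iff_contDiffOn.1 ((incl_contMDiff (n := 1)).comp_contMDiffOn (hC i hi))
  have hmem : ∀ s, ‖(P s).1‖ = 1 ∧ (P s).2 ^ 2 = (‖(P s).2‖ : ℂ) ^ 2 * (P s).1 := fun s =>
    ⟨(c s).2.1, (c s).2.2.2⟩
  have hp0 : P (t 0) = par θ R := by
    rw [ht0]
    change (c 0).1 = _
    rw [h0, hpar]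
  have hg : ∀ i < n, ∀ s ∈ Ioo (t i) (t (i + 1)),
      ENNReal.ofReal ((FMob α β γ hα hβ hγ).toFun
        ⟨c s, mfderiv 𝓘(ℝ, ℝ) (𝓡∂ 2) c s (1 : ℝ)⟩) =
      ENNReal.ofReal (fin α β γ (P s) (deriv P s)) := by
    intro i hi s hs
    have e1 : MDifferentiableAt 𝓘(ℝ, ℝ) (𝓡∂ 2) c s :=
      ((hC i hi).contMDiffAt (Icc_mem_nhds hs.1 hs.2)).mdifferentiableAt one_ne_zero
    have e2 : MDifferentiableAt (𝓡∂ 2) 𝓘(ℝ, ℂ × ℂ) incl (c s) :=
      (incl_contMDiff (n := 1)).mdifferentiableAt one_ne_zero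
    have e3 := e2.hasMFDerivAt.comp s e1.hasMFDerivAt
    let L : ℝ →L[ℝ] ℂ × ℂ := (mfderiv (𝓡∂ 2) 𝓘(ℝ, ℂ × ℂ) incl (c s)).comp
      (mfderiv 𝓘(ℝ, ℝ) (𝓡∂ 2) c s)
    have e4 : HasFDerivAt P L s := e3.hasFDerivAt
    have e5 : deriv P s = mvfderiv (𝓡∂ 2) incl (c s) (mfderiv 𝓘(ℝ, ℝ) (𝓡∂ 2) c s (1 : ℝ)) :=
      e4.hasDerivAt.deriv
    rw [e5]
    rfl
  obtain ⟨θ', R', e1, e2⟩ := pieces hα hβ hγ ht hP hmem hp0 hg n le_rfl
  refine ⟨θ', R', ?_, ?_⟩
  · rw [← e1, htn]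
    change _ = (c 1).1
    rw [h1]
  · refine e2.trans ?_
    rw [ht0, htn]
    exact lintegral_mono_set Ioc_subset_Icc_self

lemma exp_arg_circle (x : Circle) : Circle.exp (arg (x : ℂ)) = x := by
  exact Circle.exp_arg x

lemma bd_eq_par (x : Circle) : (bd x).1 = par (arg (x : ℂ)) 1 := by
  have h := congrArg (fun z : Circle => (z : ℂ)) (exp_arg_circle x)
  simp only [Circle.coe_exp] at h
  unfold par bd
  ext1
  · simp only
    conv_lhs => rw [← h]
    rw [← exp_nat_mul]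
    congr 1
    push_cast
    ring
  · simp only [ofReal_one, one_mul]
    exact h.symm

/-- no shortcuts. -/
lemma no_shortcut {α β : ℝ} (hα : 0 ≤ α) (hβ : 0 ≤ β) (hγ : 0 ≤ Real.pi * β / 2) (x y : Circle) :
    directedDist (GCirc α β hα hβ) x y ≤
      directedDist (FMob α β (Real.pi * β / 2) hα hβ hγ) (bd x) (bd y) := by
  refine le_iInf₂ fun c hc => ?_
  obtain ⟨θ', R', h1, h2⟩ := length_lower hα hβ hγ hc (bd_eq_par x)
  refine le_trans ?_ h2
  set θ := arg (x : ℂ) with hθ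
  have hpi := Real.pi_pos
  -- `|R'| = 1`
  have hn : |R'| = 1 := by
    have e1 : ‖(bd y).1.2‖ = 1 := Circle.norm_coe y
    rw [h1] at e1
    simp only [par] at e1
    rw [norm_mul, norm_exp_ofReal_mul_I, mul_one, norm_real, Real.norm_eq_abs] at e1
    exact e1
  have hy : (y : ℂ) = R' * exp ((θ' : ℝ) * I) := by
    have := congrArg Prod.snd h1
    exact this
  have hx : (x : ℂ) = exp ((θ : ℝ) * I) := by
    have h := congrArg (fun z : Circle => (z : ℂ)) (exp_arg_circle x)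
    simp only [Circle.coe_exp] at h
    exact h.symm
  rcases (abs_eq zero_le_one).1 hn with h | h
  · have e1 : y = x * Circle.exp (θ' - θ) := by
      apply Circle.ext
      rw [Circle.coe_mul, Circle.coe_exp, hy, hx, h, ← exp_add]
      rw [ofReal_one, one_mul]
      congr 1
      push_cast
      ring
    rw [e1]
    refine (directedDist_circle_le hα hβ x (θ' - θ)).trans (ENNReal.ofReal_le_ofReal ?_)
    rw [h]
    simp
  · have e3 : |R' - 1| = 2 := by rw [h]; norm_num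
    rw [e3]
    rcases le_total Real.pi (θ' - θ) with hc | hc
    · have e1 : y = x * Circle.exp (θ' - θ - Real.pi) := by
        apply Circle.ext
        rw [Circle.coe_mul, Circle.coe_exp, hy, hx, h, ← exp_add]
        have : (θ : ℂ) * I + ((θ' - θ - Real.pi : ℝ) : ℂ) * I = (θ' : ℂ) * I + -(Real.pi * I) := by
          push_cast; ring
        rw [this, exp_add, exp_neg, exp_pi_mul_I]
        norm_num
      rw [e1]
      refine (directedDist_circle_le hα hβ x _).trans (ENNReal.ofReal_le_ofReal ?_)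
      refine max_le ?_ ?_
      · refine le_max_of_le_left ?_
        nlinarith
      · refine le_max_of_le_left ?_
        nlinarith
    · have e1 : y = x * Circle.exp (θ' - θ - Real.pi) := by
        apply Circle.ext
        rw [Circle.coe_mul, Circle.coe_exp, hy, hx, h, ← exp_add]
        have : (θ : ℂ) * I + ((θ' - θ - Real.pi : ℝ) : ℂ) * I = (θ' : ℂ) * I + -(Real.pi * I) := by
          push_cast; ring
        rw [this, exp_add, exp_neg, exp_pi_mul_I]
        norm_num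
      rw [e1]
      refine (directedDist_circle_le hα hβ x _).trans (ENNReal.ofReal_le_ofReal ?_)
      refine max_le ?_ ?_
      · refine le_max_of_le_right ?_
        nlinarith
      · refine le_max_of_le_right ?_
        nlinarith

end Pool.Agent.Helper30.Filling
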