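import Mathlib
open Set Topology Filter Metric

namespace Pool.Agent.Helper30.Instab

/-- The cone construction. `A` is a subset of a normed space, conical around `x` in the ball of
radius `ρ`; `L` is a local equiconnecting map and `f` a map of the ball of radius `ρ/2` in `A` to
`A` missing `x` and close to the identity. -/
theorem cone_unstable {E : Type*} [NormedAddCommGroup E] [NormedSpace ℝ E] {A : Set E} {x : E}
    {ρ : ℝ} (hρ : 0 < ρ)
    (hcone : ∀ z ∈ A, ‖z - x‖ < ρ → ∀ l : ℝ, 0 ≤ l → l * ‖z - x‖ < ρ → x + l • (z - x) ∈ A)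
    {ε : ℝ} (L : E × E × ℝ → E)
    (hLc : ContinuousOn L {q | q.1 ∈ A ∧ q.2.1 ∈ A ∧ ‖q.1 - q.2.1‖ < ε ∧ q.2.2 ∈ Icc (0 : ℝ) 1})
    (hLA : ∀ z ∈ A, ∀ w ∈ A, ‖z - w‖ < ε → ∀ τ ∈ Icc (0 : ℝ) 1,
      L (z, w, τ) ∈ A ∧ ‖L (z, w, τ) - z‖ < ρ / 4)
    (hL0 : ∀ z ∈ A, ∀ w ∈ A, ‖z - w‖ < ε → L (z, w, 0) = z)
    (hL1 : ∀ z ∈ A, ∀ w ∈ A, ‖z - w‖ < ε → L (z, w, 1) = w)
    (f : E → E) (hfc : ContinuousOn f {z | z ∈ A ∧ ‖z - x‖ ≤ ρ / 2})
    (hfA : ∀ z ∈ A, ‖z - x‖ ≤ ρ / 2 → f z ∈ A ∧ f z ≠ x ∧ ‖z - f z‖ < ε) :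
    ∃ Φ : E × ℝ → E, ContinuousOn Φ (A ×ˢ Icc (0 : ℝ) 1) ∧
      (∀ z ∈ A, ∀ t ∈ Icc (0 : ℝ) 1, Φ (z, t) ∈ A) ∧ (∀ z ∈ A, Φ (z, 0) = z) ∧
      ∀ z ∈ A, ∀ t ∈ Ioc (0 : ℝ) 1, Φ (z, t) ≠ x := by
  -- auxiliary functions
  set M : E × ℝ → ℝ := fun q => max q.2 (2 * ‖q.1 - x‖ / ρ) with hM
  set m : E × ℝ → ℝ := fun q => max (q.2 / 2) (2 * ‖q.1 - x‖ / ρ) with hm
  set ζ : E × ℝ → E := fun q => x + (m q)⁻¹ • (q.1 - x) with hζ
  set τ : E × ℝ → ℝ := fun q => max 0 (min 1 ((2 * q.2 - 4 * ‖q.1 - x‖ / ρ) / M q)) with hτ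
  set lam : E × ℝ → E := fun q => L (ζ q, f (ζ q), τ q) with hlam
  set Φ₀ : E × ℝ → E := fun q => x + (M q * (ρ / 2) / ‖lam q - x‖) • (lam q - x) with hΦ₀
  set S : Set (E × ℝ) := {q | q.1 ∈ A ∧ ‖q.1 - x‖ ≤ ρ / 2 ∧ q.2 ∈ Icc (0 : ℝ) 1} with hS
  set S' : Set (E × ℝ) := {q | q ∈ S ∧ 0 < M q} with hS'
  have hMc : Continuous M := by fun_prop
  have hmc : Continuous m := by fun_prop
  have hMm : ∀ q, q ∈ S → m q ≤ M q := by
    intro q hq
    have h0 : 0 ≤ q.2 := hq.2.2.1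
    exact max_le_max (by linarith) le_rfl
  have hm0 : ∀ q, q ∈ S' → 0 < m q := by
    rintro q ⟨hq, hMq⟩
    simp only [hM, lt_max_iff] at hMq
    simp only [hm, lt_max_iff]
    rcases hMq with h | h
    · left; linarith
    · right; exact h
  have hτI : ∀ q, τ q ∈ Icc (0 : ℝ) 1 := by
    intro q
    simp only [hτ]
    exact ⟨le_max_left _ _, max_le zero_le_one (min_le_left _ _)⟩
  have hζnorm : ∀ q ∈ S', ‖ζ q - x‖ = ‖q.1 - x‖ / m q := by
    intro q hq
    have h := hm0 q hq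
    simp only [hζ, add_sub_cancel_left, norm_smul, norm_inv, Real.norm_eq_abs, abs_of_pos h]
    field_simp
  have hζle : ∀ q ∈ S', ‖ζ q - x‖ ≤ ρ / 2 := by
    intro q hq
    rw [hζnorm q hq, div_le_iff₀ (hm0 q hq)]
    have h1 : 2 * ‖q.1 - x‖ / ρ ≤ m q := le_max_right _ _
    have h2 : ‖q.1 - x‖ = ρ / 2 * (2 * ‖q.1 - x‖ / ρ) := by field_simp
    rw [h2]
    exact mul_le_mul_of_nonneg_left h1 (by positivity)
  have hζA : ∀ q ∈ S', ζ q ∈ A := by
    intro q hq
    have hq1 : ‖q.1 - x‖ < ρ := by linarith [hq.1.2.1]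
    refine hcone q.1 hq.1.1 hq1 _ (inv_nonneg.2 (hm0 q hq).le) ?_
    have h1 := hζle q hq
    rw [hζnorm q hq, div_eq_inv_mul] at h1
    linarith
  have hlamA : ∀ q ∈ S', lam q ∈ A ∧ ‖lam q - ζ q‖ < ρ / 4 := by
    intro q hq
    have hf := hfA _ (hζA q hq) (hζle q hq)
    exact hLA _ (hζA q hq) _ hf.1 hf.2.2 _ (hτI q)
  have hlamρ : ∀ q ∈ S', ‖lam q - x‖ < ρ := by
    intro q hq
    have h1 := (hlamA q hq).2
    have h2 := hζle q hq
    calc ‖lam q - x‖ = ‖(lam q - ζ q) + (ζ q - x)‖ := by congr 1; abel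
      _ ≤ ‖lam q - ζ q‖ + ‖ζ q - x‖ := norm_add_le _ _
      _ < ρ := by linarith
  have hlamx : ∀ q ∈ S', 0 < ‖lam q - x‖ := by
    intro q hq
    have hq0 : 0 ≤ q.2 := hq.1.2.2.1
    rcases le_or_gt (q.2 / 2) (2 * ‖q.1 - x‖ / ρ) with h | h
    · -- ‖ζ - x‖ = ρ / 2
      have hmq : m q = 2 * ‖q.1 - x‖ / ρ := max_eq_right h
      have hpos := hm0 q hq
      rw [hmq] at hpos
      have hnz : ‖q.1 - x‖ ≠ 0 := by
        intro h0
        rw [h0] at hpos
        simp at hpos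
      have h1 : ‖ζ q - x‖ = ρ / 2 := by
        rw [hζnorm q hq, hmq]
        field_simp
      have h2 := (hlamA q hq).2
      have h3 : ‖ζ q - x‖ ≤ ‖lam q - x‖ + ‖lam q - ζ q‖ := by
        calc ‖ζ q - x‖ = ‖(lam q - x) - (lam q - ζ q)‖ := by congr 1; abel
          _ ≤ ‖lam q - x‖ + ‖lam q - ζ q‖ := norm_sub_le _ _
      linarith
    · -- τ = 1
      have hqpos : 0 < q.2 := by
        have : 0 ≤ 2 * ‖q.1 - x‖ / ρ := by positivity
        linarith
      have hMq : M q = q.2 := max_eq_left (by linarith)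
      have hτ1 : τ q = 1 := by
        simp only [hτ]
        have : 1 ≤ (2 * q.2 - 4 * ‖q.1 - x‖ / ρ) / M q := by
          rw [hMq, le_div_iff₀ hqpos]
          have : 4 * ‖q.1 - x‖ / ρ = 2 * (2 * ‖q.1 - x‖ / ρ) := by ring
          linarith
        rw [min_eq_left this]
        simp
      have hf := hfA _ (hζA q hq) (hζle q hq)
      have : lam q = f (ζ q) := by
        simp only [hlam, hτ1]
        exact hL1 _ (hζA q hq) _ hf.1 hf.2.2
      rw [this, norm_pos_iff, sub_ne_zero]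
      exact hf.2.1
  have hM1 : ∀ q ∈ S, M q ≤ 1 := by
    intro q hq
    refine max_le hq.2.2.2 ?_
    rw [div_le_one hρ]
    linarith [hq.2.1]
  have hM0 : ∀ q ∈ S, 0 ≤ M q := fun q hq => le_max_of_le_left hq.2.2.1
  have hΦA : ∀ q ∈ S, Φ₀ q ∈ A := by
    intro q hq
    rcases (hM0 q hq).eq_or_lt with h | h
    · -- then q.1 = x
      have h1 : 2 * ‖q.1 - x‖ / ρ ≤ 0 := by rw [h]; exact le_max_right _ _
      have h2 : ‖q.1 - x‖ = 0 := by
        have h3 : 0 ≤ ‖q.1 - x‖ := norm_nonneg _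
        have h4 : 2 * ‖q.1 - x‖ ≤ 0 := by
          by_contra hcon
          push Not at hcon
          have := div_pos hcon hρ
          linarith
        linarith
      have h5 : q.1 = x := by rwa [norm_eq_zero, sub_eq_zero] at h2
      have h6 : Φ₀ q = x := by
        simp only [hΦ₀, ← h]
        simp
      rw [h6, ← h5]
      exact hq.1
    · have hq' : q ∈ S' := ⟨hq, h⟩
      refine hcone _ (hlamA q hq').1 (hlamρ q hq') _ ?_ ?_
      · have := hlamx q hq'
        positivity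
      · rw [div_mul_cancel₀ _ (hlamx q hq').ne']
        have := hM1 q hq
        nlinarith
  have hΦnorm : ∀ q ∈ S, ‖Φ₀ q - x‖ ≤ M q * (ρ / 2) := by
    intro q hq
    have h0 := hM0 q hq
    simp only [hΦ₀, add_sub_cancel_left, norm_smul, Real.norm_eq_abs]
    rw [abs_of_nonneg (by positivity)]
    rcases (norm_nonneg (lam q - x)).eq_or_lt with h | h
    · rw [← h]; simp; positivity
    · rw [div_mul_cancel₀ _ h.ne']
  have hΦne : ∀ q ∈ S', Φ₀ q ≠ x := by
    intro q hq h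
    have h1 := hlamx q hq
    have h2 : (M q * (ρ / 2) / ‖lam q - x‖) • (lam q - x) = 0 := by
      have : Φ₀ q - x = 0 := by rw [h, sub_self]
      simpa only [hΦ₀, add_sub_cancel_left] using this
    rcases smul_eq_zero.1 h2 with h3 | h3
    · have := hq.2
      have h4 : 0 < M q * (ρ / 2) / ‖lam q - x‖ := by positivity
      linarith
    · rw [h3, norm_zero] at h1
      exact lt_irrefl _ h1
  -- the value on the boundary and at time zero
  have hΦid : ∀ q ∈ S', q.2 ≤ 2 * ‖q.1 - x‖ / ρ → Φ₀ q = q.1 := by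
    intro q hq h
    have hq0 : 0 ≤ q.2 := hq.1.2.2.1
    have hMq : M q = 2 * ‖q.1 - x‖ / ρ := max_eq_right h
    have hmq : m q = 2 * ‖q.1 - x‖ / ρ := max_eq_right (by linarith)
    have hpos := hq.2
    rw [hMq] at hpos
    have hnz : ‖q.1 - x‖ ≠ 0 := by
      intro h0
      rw [h0] at hpos
      simp at hpos
    have hτ0 : τ q = 0 := by
      simp only [hτ]
      refine max_eq_left (le_trans (min_le_right _ _) ?_)
      refine div_nonpos_of_nonpos_of_nonneg ?_ (by rw [hMq]; exact hpos.le)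
      have : 4 * ‖q.1 - x‖ / ρ = 2 * (2 * ‖q.1 - x‖ / ρ) := by ring
      linarith
    have hf := hfA _ (hζA q hq) (hζle q hq)
    have hlq : lam q = ζ q := by
      simp only [hlam, hτ0]
      exact hL0 _ (hζA q hq) _ hf.1 hf.2.2
    have h1 : ‖ζ q - x‖ = ρ / 2 := by
      rw [hζnorm q hq, hmq]
      field_simp
    simp only [hΦ₀]
    rw [hlq, h1, mul_div_assoc, div_self (by positivity), mul_one]
    simp only [hζ, add_sub_cancel_left, hMq, hmq, smul_smul]
    rw [mul_inv_cancel₀ hpos.ne', one_smul]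
    abel
  -- continuity
  have hcontS' : ContinuousOn Φ₀ S' := by
    have hζc : ContinuousOn ζ S' := by
      refine continuousOn_const.add (ContinuousOn.smul ?_ (by fun_prop))
      exact hmc.continuousOn.inv₀ fun q hq => (hm0 q hq).ne'
    have hτc : ContinuousOn τ S' := by
      have hclip : Continuous fun s : ℝ => max 0 (min 1 s) := by fun_prop
      refine hclip.comp_continuousOn ?_
      refine ContinuousOn.div (by fun_prop) hMc.continuousOn fun q hq => hq.2.ne'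
    have hfζ : ContinuousOn (fun q => f (ζ q)) S' :=
      hfc.comp hζc fun q hq => ⟨hζA q hq, hζle q hq⟩
    have hlamc : ContinuousOn lam S' := by
      refine hLc.comp (hζc.prodMk (hfζ.prodMk hτc)) fun q hq => ?_
      have hf := hfA _ (hζA q hq) (hζle q hq)
      exact ⟨hζA q hq, hf.1, hf.2.2, hτI q⟩
    refine continuousOn_const.add (ContinuousOn.smul ?_ (hlamc.sub continuousOn_const))
    refine ContinuousOn.div ((hMc.mul continuous_const).continuousOn)
      ((hlamc.sub continuousOn_const).norm) fun q hq => (hlamx q hq).ne'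
  have hcontS : ContinuousOn Φ₀ S := by
    intro q hq
    rcases (hM0 q hq).eq_or_lt with h | h
    · -- at the apex
      have h1 : q.1 = x := by
        have h1 : 2 * ‖q.1 - x‖ / ρ ≤ 0 := by rw [h]; exact le_max_right _ _
        have h3 : 0 ≤ ‖q.1 - x‖ := norm_nonneg _
        have h4 : 2 * ‖q.1 - x‖ ≤ 0 := by
          by_contra hcon
          push Not at hcon
          have := div_pos hcon hρ
          linarith
        have h2 : ‖q.1 - x‖ = 0 := by linarith
        rwa [norm_eq_zero, sub_eq_zero] at h2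
      have h6 : Φ₀ q = x := by
        simp only [hΦ₀, ← h]
        simp
      rw [ContinuousWithinAt, h6, tendsto_iff_norm_sub_tendsto_zero]
      have hlim : Tendsto (fun p => M p * (ρ / 2)) (𝓝[S] q) (𝓝 0) := by
        have : Tendsto (fun p => M p * (ρ / 2)) (𝓝 q) (𝓝 (M q * (ρ / 2))) :=
          (hMc.mul continuous_const).tendsto q
        rw [← h, zero_mul] at this
        exact this.mono_left nhdsWithin_le_nhds
      refine squeeze_zero' (Eventually.of_forall fun _ => norm_nonneg _) ?_ hlim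
      exact eventually_mem_nhdsWithin.mono fun p hp => hΦnorm p hp
    · have hq' : q ∈ S' := ⟨hq, h⟩
      have h1 := hcontS' q hq'
      refine h1.mono_of_mem_nhdsWithin ?_
      have hopen : {p | 0 < M p} ∈ 𝓝 q := (isOpen_lt continuous_const hMc).mem_nhds h
      rw [mem_nhdsWithin_iff_exists_mem_nhds_inter]
      exact ⟨_, hopen, fun p hp => ⟨hp.2, hp.1⟩⟩
  classical
  refine ⟨fun q => if ‖q.1 - x‖ ≤ ρ / 2 then Φ₀ q else q.1, ?_, ?_, ?_, ?_⟩
  · refine ContinuousOn.if ?_ ?_ ?_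
    · rintro q ⟨hqA, hq⟩
      have hq2 : ‖q.1 - x‖ = ρ / 2 := by
        have := frontier_le_subset_eq (f := fun q : E × ℝ => ‖q.1 - x‖) (g := fun _ => ρ / 2)
          (by fun_prop) (by fun_prop) hq
        exact this
      have hqS : q ∈ S := ⟨hqA.1, hq2.le, hqA.2⟩
      have h1 : 2 * ‖q.1 - x‖ / ρ = 1 := by rw [hq2]; field_simp
      have hqS' : q ∈ S' := by
        refine ⟨hqS, ?_⟩
        simp only [hM, lt_max_iff]
        right; rw [h1]; norm_num
      refine hΦid q hqS' ?_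
      rw [h1]; exact hqA.2.2
    · refine hcontS.mono ?_
      rintro q ⟨hqA, hq⟩
      have hcl : IsClosed {q : E × ℝ | ‖q.1 - x‖ ≤ ρ / 2} :=
        isClosed_le (by fun_prop) (by fun_prop)
      rw [hcl.closure_eq] at hq
      exact ⟨hqA.1, hq, hqA.2⟩
    · exact continuousOn_fst
  · intro z hz t ht
    simp only
    split_ifs with h
    · exact hΦA _ ⟨hz, h, ht⟩
    · exact hz
  · intro z hz
    simp only
    split_ifs with h
    · by_cases hzx : z = x
      · simp only [hΦ₀, hM]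
        rw [hzx]
        simp
      · have hpos : 0 < ‖z - x‖ := by rw [norm_pos_iff, sub_ne_zero]; exact hzx
        refine hΦid (z, 0) ⟨⟨hz, h, le_rfl, zero_le_one⟩, ?_⟩ ?_
        · simp only [hM, lt_max_iff]; right; positivity
        · simp only; positivity
    · rfl
  · intro z hz t ht
    simp only
    split_ifs with h
    · refine hΦne (z, t) ⟨⟨hz, h, ht.1.le, ht.2⟩, ?_⟩
      simp only [hM, lt_max_iff]; left; exact ht.1
    · intro hzx
      rw [hzx] at h
      simp at h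
      linarith

end Pool.Agent.Helper30.Instab
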