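import Mathlib

/-!
Definitions for the problem on the local nature of pseudo-instability.
-/

namespace Pool.Agent.Helper30.Instab

/-- A continuum: a (nonempty) compact connected metrizable topological space. -/
structure IsContinuum (X : Type*) [TopologicalSpace X] : Prop where
  compact : CompactSpace X
  connected : ConnectedSpace X
  metrizable : TopologicalSpace.MetrizableSpace X

/-- The point `p` of the space `M` is `C_a`-unstable: there is a continuous `F : M × C → M` with
`F (z, a) = z` for every `z`, and `F (z, c) ≠ p` for every `z` and every `c ≠ a`. -/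
def UnstableAlong (M : Type*) [TopologicalSpace M] (p : M) (C : Type*) [TopologicalSpace C]
    (a : C) : Prop :=
  ∃ F : M × C → M, Continuous F ∧ (∀ z, F (z, a) = z) ∧ ∀ z c, c ≠ a → F (z, c) ≠ p

/-- The point `p` of the space `M` is pseudo-unstable: it is `C_a`-unstable for some nondegenerate
continuum `C` and some point `a` of `C`. The universe of `C` is the parameter `v`. -/
def PseudoUnstable.{v, u} (M : Type u) [TopologicalSpace M] (p : M) : Prop :=
  ∃ (C : Type v) (_ : TopologicalSpace C) (a : C),
    IsContinuum C ∧ Nontrivial C ∧ UnstableAlong M p C a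

/-- `X` at `x` and `Y` at `y` are locally homeomorphic: there are a neighbourhood `U` of `x` in
`X`, a neighbourhood `V` of `y` in `Y` and a homeomorphism `U ≃ V` sending `x` to `y`. -/
def LocallyHomeomorphicAt (X : Type*) [TopologicalSpace X] (x : X) (Y : Type*)
    [TopologicalSpace Y] (y : Y) : Prop :=
  ∃ (U : Set X) (V : Set Y) (hU : U ∈ nhds x) (_ : V ∈ nhds y) (h : U ≃ₜ V),
    (h ⟨x, mem_of_mem_nhds hU⟩ : Y) = y

end Pool.Agent.Helper30.Instab
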