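import Mathlib
import Pool.Agent.Helper30.InstabDefs
open Set Topology Filter

namespace Pool.Agent.Helper30.Instab

noncomputable section

/-- the point of the unit circle with argument `-log x`. -/
def sp (x : ℝ) : ℂ := Complex.exp (-(Real.log x : ℂ) * Complex.I)

lemma sp_norm (x : ℝ) : ‖sp x‖ = 1 := by
  unfold sp
  have : -(Real.log x : ℂ) * Complex.I = ((-Real.log x : ℝ) : ℂ) * Complex.I := by push_cast; ring
  rw [this, Complex.norm_exp_ofReal_mul_I]

lemma sp_mul {x y : ℝ} (hx : x ≠ 0) (hy : y ≠ 0) : sp (x * y) = sp x * sp y := by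
  unfold sp
  rw [← Complex.exp_add, Real.log_mul hx hy]
  congr 1
  push_cast; ring

lemma sp_one : sp 1 = 1 := by simp [sp]

lemma sp_exp_neg_pi : sp (Real.exp (-Real.pi)) = -1 := by
  unfold sp
  rw [Real.log_exp]
  push_cast
  rw [neg_neg, Complex.exp_pi_mul_I]

lemma sp_exp_two_pi (n : ℕ) : sp (Real.exp (-(2 * Real.pi * n))) = 1 := by
  unfold sp
  rw [Real.log_exp]
  push_cast
  rw [neg_neg]
  have : (2 * (Real.pi : ℂ) * (n : ℂ)) * Complex.I = (n : ℂ) * (2 * Real.pi * Complex.I) := by ring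
  rw [this]
  exact Complex.exp_nat_mul_two_pi_mul_I n

lemma sp_continuousAt {x : ℝ} (hx : x ≠ 0) : ContinuousAt sp x := by
  unfold sp
  have h1 : ContinuousAt (fun y : ℝ => (Real.log y : ℂ)) x :=
    Complex.continuous_ofReal.continuousAt.comp (Real.continuousAt_log hx)
  exact Complex.continuous_exp.continuousAt.comp (h1.neg.mul continuousAt_const)

/-- the compact monoid `S`: a disc with a ray spiralling down to its boundary circle. -/
def spiral : Submonoid (ℝ × ℂ) where
  carrier := {q | 0 ≤ q.1 ∧ q.1 ≤ 1 ∧ ‖q.2‖ ≤ 1 ∧ (q.1 = 0 ∨ q.2 = sp q.1)}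
  mul_mem' := by
    rintro ⟨x, w⟩ ⟨y, v⟩ ⟨hx0, hx1, hw, hxw⟩ ⟨hy0, hy1, hv, hyv⟩
    simp only at hx0 hx1 hw hxw hy0 hy1 hv hyv
    refine ⟨mul_nonneg hx0 hy0, mul_le_one₀ hx1 hy0 hy1, ?_, ?_⟩
    · simp only [Prod.mk_mul_mk, norm_mul]
      exact mul_le_one₀ hw (norm_nonneg _) hv
    · simp only [Prod.mk_mul_mk]
      by_cases hx : x = 0
      · left; simp [hx]
      by_cases hy : y = 0
      · left; simp [hy]
      right
      rw [sp_mul hx hy, ← hxw.resolve_left hx, ← hyv.resolve_left hy]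
  one_mem' := by
    refine ⟨by simp, by simp, by simp, Or.inr ?_⟩
    simp [sp_one]

lemma mem_spiral {q : ℝ × ℂ} :
    q ∈ spiral ↔ 0 ≤ q.1 ∧ q.1 ≤ 1 ∧ ‖q.2‖ ≤ 1 ∧ (q.1 = 0 ∨ q.2 = sp q.1) := Iff.rfl

lemma zero_mem_spiral : (0 : ℝ × ℂ) ∈ spiral := by
  rw [mem_spiral]; simp

lemma spiral_closed : IsClosed (spiral : Set (ℝ × ℂ)) := by
  have hset : (spiral : Set (ℝ × ℂ)) =
      (({q : ℝ × ℂ | 0 ≤ q.1} ∩ {q | q.1 ≤ 1}) ∩ {q | ‖q.2‖ ≤ 1}) ∩ {q | q.1 = 0 ∨ q.2 = sp q.1} := by
    ext q
    simp only [SetLike.mem_coe, mem_spiral, mem_inter_iff, mem_ofPred_eq, and_assoc]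
  rw [hset]
  refine IsClosed.inter (IsClosed.inter (IsClosed.inter ?_ ?_) ?_) ?_
  · exact isClosed_le continuous_const continuous_fst
  · exact isClosed_le continuous_fst continuous_const
  · exact isClosed_le continuous_snd.norm continuous_const
  · rw [← isOpen_compl_iff, isOpen_iff_mem_nhds]
    intro q hq
    simp only [mem_compl_iff, mem_ofPred_eq, not_or] at hq
    have h1 : ∀ᶠ r in 𝓝 q, r.1 ≠ 0 := continuousAt_fst.eventually_ne hq.1
    have h2 : ∀ᶠ r in 𝓝 q, r.2 - sp r.1 ≠ 0 :=
      ContinuousAt.eventually_ne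
        (continuousAt_snd.sub ((sp_continuousAt hq.1).comp (f := Prod.fst) continuousAt_fst))
        (sub_ne_zero.2 hq.2)
    filter_upwards [h1, h2] with r hr1 hr2
    simp only [mem_compl_iff, mem_ofPred_eq, not_or]
    exact ⟨hr1, fun h => hr2 (sub_eq_zero.2 h)⟩

lemma spiral_compact : IsCompact (spiral : Set (ℝ × ℂ)) := by
  refine Metric.isCompact_of_isClosed_isBounded spiral_closed ?_
  have : (spiral : Set (ℝ × ℂ)) ⊆ Metric.closedBall 0 1 := by
    rintro ⟨x, w⟩ ⟨hx0, hx1, hw, -⟩
    simp only at hx0 hx1 hw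
    rw [mem_closedBall_zero_iff, Prod.norm_def]
    refine max_le ?_ hw
    rw [Real.norm_eq_abs, abs_of_nonneg hx0]; exact hx1
  exact Metric.isBounded_closedBall.subset this

lemma eq_one_of_mul_eq_one {q r : ℝ × ℂ} (hq : q ∈ spiral) (hr : r ∈ spiral) (h : q * r = 1) :
    r = 1 := by
  obtain ⟨hq0, hq1, -, hq2⟩ := mem_spiral.1 hq
  obtain ⟨hr0, hr1, -, hr2⟩ := mem_spiral.1 hr
  have h1 : q.1 * r.1 = 1 := by
    have := congrArg Prod.fst h
    simpa using this
  have hr' : r.1 = 1 := by nlinarith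
  ext1
  · simpa using hr'
  · have : r.1 ≠ 0 := by rw [hr']; norm_num
    have := hr2.resolve_left this
    rw [this, hr', sp_one]; rfl

/-- paths cannot leave the spiral part. -/
lemma spiral_stay {P : Type*} [TopologicalSpace P] [LocallyConnectedSpace P] [PreconnectedSpace P]
    (x : P → ℝ) (w : P → ℂ) (hx : Continuous x) (hw : Continuous w)
    (h : ∀ t, 0 ≤ x t ∧ (x t = 0 ∨ w t = sp (x t))) {t0 : P} (h0 : 0 < x t0) (t : P) :
    0 < x t := by
  have hclopen : IsClopen {t | 0 < x t} := by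
    refine ⟨?_, isOpen_lt continuous_const hx⟩
    rw [← isOpen_compl_iff, isOpen_iff_mem_nhds]
    intro u hu
    have hu0 : x u = 0 := le_antisymm (not_lt.1 hu) (h u).1
    have hnb : {v | dist (w v) (w u) < 1} ∈ 𝓝 u :=
      (hw.tendsto u).eventually (Metric.ball_mem_nhds _ one_pos)
    obtain ⟨N, hNsub, hNo, huN, hNc⟩ :=
      locallyConnectedSpace_iff_subsets_isOpen_isConnected.1 inferInstance u _ hnb
    refine mem_of_superset (hNo.mem_nhds huN) (fun v hv => ?_)
    intro hvpos
    have hvpos : 0 < x v := hvpos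
    have hsub : Icc (x u) (x v) ⊆ x '' N :=
      hNc.isPreconnected.intermediate_value huN hv hx.continuousOn
    have hlt : Real.exp (-Real.pi) < 1 := by
      rw [Real.exp_lt_one_iff]; linarith [Real.pi_pos]
    have hmem : x v * Real.exp (-Real.pi) ∈ Icc (x u) (x v) := by
      rw [hu0]
      constructor
      · positivity
      · nlinarith [Real.exp_pos (-Real.pi)]
    obtain ⟨v', hv', hxv'⟩ := hsub hmem
    have hw1 : w v = sp (x v) := (h v).2.resolve_left hvpos.ne'
    have hpos' : 0 < x v' := by rw [hxv']; positivity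
    have hw2 : w v' = sp (x v') := (h v').2.resolve_left hpos'.ne'
    rw [hxv', sp_mul hvpos.ne' (Real.exp_pos _).ne', sp_exp_neg_pi] at hw2
    have hd1 : dist (w v) (w u) < 1 := hNsub hv
    have hd2 : dist (w v') (w u) < 1 := hNsub hv'
    have hd : dist (w v) (w v') < 2 := by
      calc dist (w v) (w v') ≤ dist (w v) (w u) + dist (w v') (w u) := dist_triangle_right _ _ _
        _ < 2 := by linarith
    rw [hw1, hw2, dist_eq_norm] at hd
    have : sp (x v) - sp (x v) * -1 = 2 * sp (x v) := by ring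
    rw [this, norm_mul, sp_norm] at hd
    norm_num at hd
  have huniv := hclopen.eq_univ ⟨t0, h0⟩
  exact (huniv ▸ mem_univ t : t ∈ {t | 0 < x t})

lemma spiral_connected : IsPreconnected (spiral : Set (ℝ × ℂ)) := by
  set A : Set (ℝ × ℂ) := (fun x : ℝ => (x, sp x)) '' Ioc 0 1 with hA
  have hApre : IsPreconnected A := by
    refine isPreconnected_Ioc.image _ ?_
    intro x hx
    exact (continuousAt_id.prodMk (sp_continuousAt hx.1.ne')).continuousWithinAt
  have hcl : ((0 : ℝ), (1 : ℂ)) ∈ closure A := by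
    have htend : Tendsto (fun n : ℕ => (Real.exp (-(2 * Real.pi * n)),
        sp (Real.exp (-(2 * Real.pi * n))))) atTop (𝓝 ((0 : ℝ), (1 : ℂ))) := by
      refine Tendsto.prodMk_nhds ?_ ?_
      · refine Real.tendsto_exp_neg_atTop_nhds_zero.comp ?_
        exact Tendsto.const_mul_atTop (by positivity) tendsto_natCast_atTop_atTop
      · simp only [sp_exp_two_pi]
        exact tendsto_const_nhds
    refine mem_closure_of_tendsto htend (Eventually.of_forall fun n => ?_)
    refine ⟨Real.exp (-(2 * Real.pi * n)), ⟨Real.exp_pos _, ?_⟩, rfl⟩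
    rw [Real.exp_le_one_iff]
    have : 0 ≤ 2 * Real.pi * n := by positivity
    linarith
  have hA' : IsPreconnected (insert ((0 : ℝ), (1 : ℂ)) A) :=
    hApre.subset_closure (subset_insert _ _) (insert_subset hcl subset_closure)
  have hB : IsPreconnected (({0} : Set ℝ) ×ˢ Metric.closedBall (0 : ℂ) 1) :=
    isPreconnected_singleton.prod (convex_closedBall _ _).isPreconnected
  have hu : IsPreconnected (insert ((0 : ℝ), (1 : ℂ)) A ∪
      ({0} : Set ℝ) ×ˢ Metric.closedBall (0 : ℂ) 1) := by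
    refine IsPreconnected.union ((0 : ℝ), (1 : ℂ)) (mem_insert _ _) ?_ hA' hB
    simp
  convert hu using 1
  ext ⟨x, w⟩
  simp only [SetLike.mem_coe, mem_spiral, mem_union, mem_insert_iff, mem_prod, mem_singleton_iff,
    mem_closedBall_zero_iff, hA, mem_image, mem_Ioc, Prod.mk.injEq]
  constructor
  · rintro ⟨hx0, hx1, hw, hxw⟩
    rcases hxw with hx | hxw
    · right; exact ⟨hx, hw⟩
    · rcases hx0.eq_or_lt with hx | hx
      · right; exact ⟨hx.symm, hw⟩
      · left; right; exact ⟨x, ⟨hx, hx1⟩, rfl, hxw.symm⟩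
  · rintro ((⟨rfl, rfl⟩ | ⟨y, ⟨hy0, hy1⟩, rfl, rfl⟩) | ⟨rfl, hw⟩)
    · simp
    · exact ⟨hy0.le, hy1, (sp_norm _).le, Or.inr rfl⟩
    · exact ⟨le_rfl, zero_le_one, hw, Or.inl rfl⟩

/-- The continuum `C`, as a submonoid of the product of countably many copies of `ℝ × ℂ`. -/
def chain : Submonoid (ℕ → ℝ × ℂ) where
  carrier := {s | (∀ n, s n ∈ spiral) ∧ ∀ k j, k < j → s k = 1 ∨ s j = 0}
  mul_mem' := by
    rintro s t ⟨hs, hs'⟩ ⟨ht, ht'⟩
    refine ⟨fun n => spiral.mul_mem (hs n) (ht n), fun k j hkj => ?_⟩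
    rcases hs' k j hkj with h1 | h1
    · rcases ht' k j hkj with h2 | h2
      · left; simp [h1, h2]
      · right; simp [h2]
    · right; simp [h1]
  one_mem' := ⟨fun n => spiral.one_mem, fun k j _ => Or.inl rfl⟩

lemma mem_chain {s : ℕ → ℝ × ℂ} :
    s ∈ chain ↔ (∀ n, s n ∈ spiral) ∧ ∀ k j, k < j → s k = 1 ∨ s j = 0 := Iff.rfl

lemma chain_compact : IsCompact (chain : Set (ℕ → ℝ × ℂ)) := by
  have h1 : IsCompact (Set.pi univ fun _ : ℕ => (spiral : Set (ℝ × ℂ))) :=
    isCompact_univ_pi fun _ => spiral_compact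
  have h2 : IsClosed {s : ℕ → ℝ × ℂ | ∀ k j, k < j → s k = 1 ∨ s j = 0} := by
    simp only [ofPred_forall]
    refine isClosed_iInter fun k => isClosed_iInter fun j => isClosed_iInter fun _ => ?_
    exact (isClosed_eq (continuous_apply k) continuous_const).union
      (isClosed_eq (continuous_apply j) continuous_const)
  have : (chain : Set (ℕ → ℝ × ℂ)) = (Set.pi univ fun _ : ℕ => (spiral : Set (ℝ × ℂ))) ∩
      {s : ℕ → ℝ × ℂ | ∀ k j, k < j → s k = 1 ∨ s j = 0} := by
    ext s
    simp only [SetLike.mem_coe, mem_chain, mem_inter_iff, Set.mem_pi, mem_univ, forall_const,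
      mem_ofPred_eq]
  rw [this]
  exact h1.inter_right h2

/-- the `n`-th block. -/
def blk (n : ℕ) (q : ℝ × ℂ) : ℕ → ℝ × ℂ := fun k => if k < n then 1 else if k = n then q else 0

lemma blk_continuous (n : ℕ) : Continuous (blk n) := by
  refine continuous_pi fun k => ?_
  unfold blk
  by_cases h1 : k < n
  · simp only [h1, if_true]; exact continuous_const
  · by_cases h2 : k = n
    · simp only [h2, lt_irrefl, if_false, if_true]; exact continuous_id
    · simp only [h1, h2, if_false]; exact continuous_const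

lemma blk_mem (n : ℕ) {q : ℝ × ℂ} (hq : q ∈ spiral) : blk n q ∈ chain := by
  refine ⟨fun k => ?_, fun k j hkj => ?_⟩
  · unfold blk
    split_ifs
    · exact spiral.one_mem
    · exact hq
    · exact zero_mem_spiral
  · unfold blk
    by_cases h1 : k < n
    · left; simp [h1]
    · right
      have h2 : ¬ j < n := by omega
      have h3 : ¬ j = n := by omega
      simp [h2, h3]

lemma chain_connected : IsPreconnected (chain : Set (ℕ → ℝ × ℂ)) := by
  have h1 : IsPreconnected (⋃ n, blk n '' (spiral : Set (ℝ × ℂ))) := by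
    refine IsPreconnected.iUnion_of_chain
      (fun n => spiral_connected.image _ (blk_continuous n).continuousOn) (fun n => ?_)
    refine ⟨blk n 1, ⟨1, spiral.one_mem, rfl⟩, ⟨0, zero_mem_spiral, ?_⟩⟩
    funext k
    unfold blk
    simp only [Order.succ_eq_add_one]
    rcases lt_trichotomy k n with h | h | h
    · have h2 : k < n + 1 := by omega
      simp [h, h2]
    · subst h
      simp
    · have h2 : ¬ k < n := by omega
      have h3 : ¬ k = n := by omega
      have h4 : ¬ k < n + 1 := by omega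
      simp [h2, h3, h4]
  refine h1.subset_closure ?_ ?_
  · refine iUnion_subset fun n => ?_
    rintro _ ⟨q, hq, rfl⟩
    exact blk_mem n hq
  · intro s hs
    by_cases hs1 : s = 1
    · subst hs1
      have htend : Tendsto (fun n : ℕ => blk n 1) atTop (𝓝 (1 : ℕ → ℝ × ℂ)) := by
        rw [tendsto_pi_nhds]
        intro k
        refine tendsto_const_nhds.congr' ?_
        filter_upwards [eventually_gt_atTop k] with n hn
        simp [blk, hn]
      refine mem_closure_of_tendsto htend (Eventually.of_forall fun n => ?_)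
      exact mem_iUnion.2 ⟨n, 1, spiral.one_mem, rfl⟩
    · apply subset_closure
      have hex : ∃ k, s k ≠ 1 := by
        by_contra hcon
        push Not at hcon
        exact hs1 (funext hcon)
      classical
      set k := Nat.find hex with hk
      have hk1 : s k ≠ 1 := Nat.find_spec hex
      have hk2 : ∀ j < k, s j = 1 := fun j hj => by
        by_contra hcon
        exact absurd (Nat.find_min' hex hcon) (by omega)
      refine mem_iUnion.2 ⟨k, s k, hs.1 k, ?_⟩
      funext j
      unfold blk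
      rcases lt_trichotomy j k with h | h | h
      · simp [h, hk2 j h]
      · simp [h]
      · have h2 : ¬ j < k := by omega
        have h3 : ¬ j = k := by omega
        simp only [h2, h3, if_false]
        exact ((hs.2 k j h).resolve_left hk1).symm

/-- the path component of `1` in the chain is trivial. -/
lemma chain_stay {P : Type*} [TopologicalSpace P] [LocallyConnectedSpace P] [PreconnectedSpace P]
    (γ : P → ℕ → ℝ × ℂ) (hγ : Continuous γ) (hmem : ∀ t, γ t ∈ chain) {t0 : P} (h0 : γ t0 = 1)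
    (t : P) : γ t = 1 := by
  funext k
  by_contra hk
  have hk' : γ t k ≠ 1 := hk
  have h1 : γ t (k + 1) = 0 := ((hmem t).2 k (k + 1) (by omega)).resolve_left hk'
  have hc : Continuous fun t => γ t (k + 1) := (continuous_apply (k + 1)).comp hγ
  have hpos := spiral_stay (fun t => (γ t (k + 1)).1) (fun t => (γ t (k + 1)).2)
    (continuous_fst.comp hc) (continuous_snd.comp hc)
    (fun t => ⟨((hmem t).1 (k + 1)).1, ((hmem t).1 (k + 1)).2.2.2⟩) (t0 := t0)
    (by simp only [h0]; simp) t
  simp only [h1] at hpos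
  simp at hpos


/-- The ambient space of both examples. -/
abbrev Amb : Type := ℝ × (ℕ → ℝ × ℂ)

/-- The first continuum: `[1, 3] × C`. -/
def XSet : Set Amb := Icc (1 : ℝ) 3 ×ˢ (chain : Set (ℕ → ℝ × ℂ))

/-- The second continuum: `[1, 3] × C` with the arc `[0, 1] × {1}` attached at `(1, 1)`. -/
def YSet : Set Amb := XSet ∪ Icc (0 : ℝ) 1 ×ˢ {1}

lemma isContinuum_of {E : Type*} [TopologicalSpace E] [TopologicalSpace.MetrizableSpace E]
    {K : Set E} (hK : IsCompact K) (hc : IsPreconnected K) (hne : K.Nonempty) :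
    IsContinuum K where
  compact := isCompact_iff_compactSpace.1 hK
  connected := isConnected_iff_connectedSpace.1 ⟨hne, hc⟩
  metrizable := inferInstance

lemma one_mem_chain : (1 : ℕ → ℝ × ℂ) ∈ (chain : Set (ℕ → ℝ × ℂ)) := chain.one_mem

lemma XSet_continuum : IsContinuum XSet := by
  refine isContinuum_of (isCompact_Icc.prod chain_compact)
    (isPreconnected_Icc.prod chain_connected) ⟨(2, 1), ?_⟩
  exact ⟨by constructor <;> norm_num, chain.one_mem⟩

lemma YSet_continuum : IsContinuum YSet := by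
  refine isContinuum_of ((isCompact_Icc.prod chain_compact).union
    (isCompact_Icc.prod isCompact_singleton)) ?_ ⟨(2, 1), Or.inl ?_⟩
  · refine IsPreconnected.union ((1 : ℝ), (1 : ℕ → ℝ × ℂ)) ?_ ?_
      (isPreconnected_Icc.prod chain_connected) (isPreconnected_Icc.prod isPreconnected_singleton)
    · exact ⟨by constructor <;> norm_num, chain.one_mem⟩
    · exact ⟨by constructor <;> norm_num, rfl⟩
  · exact ⟨by constructor <;> norm_num, chain.one_mem⟩

/-- the base point of the first continuum. -/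
def xpt : XSet := ⟨(2, 1), by constructor <;> norm_num, chain.one_mem⟩

/-- the base point of the second continuum. -/
def ypt : YSet := ⟨(2, 1), Or.inl ⟨by constructor <;> norm_num, chain.one_mem⟩⟩

lemma chain_isContinuum : IsContinuum chain :=
  isContinuum_of (K := (chain : Set (ℕ → ℝ × ℂ))) chain_compact chain_connected ⟨1, chain.one_mem⟩

lemma chain_nontrivial : Nontrivial chain := by
  refine ⟨⟨⟨blk 0 0, blk_mem 0 zero_mem_spiral⟩, 1, ?_⟩⟩
  intro h
  have := congrFun (congrArg Subtype.val h) 0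
  simp [blk] at this

lemma X_unstable : UnstableAlong XSet xpt chain 1 := by
  refine ⟨fun q => ⟨(q.1.1.1, q.1.1.2 * q.2.1), q.1.2.1, chain.mul_mem q.1.2.2 q.2.2⟩, ?_, ?_, ?_⟩
  · refine Continuous.subtype_mk ?_ _
    refine Continuous.prodMk ?_ ?_
    · fun_prop
    · fun_prop
  · rintro ⟨⟨t, s⟩, hq⟩
    simp
  · rintro ⟨⟨t, s⟩, hq⟩ ⟨c, hc⟩ hne h
    apply hne
    have h1 : s * c = 1 := by
      have := congrArg (fun q : XSet => q.1.2) h
      simpa [xpt] using this
    have h2 : c = 1 := by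
      funext k
      have h3 : s k * c k = 1 := congrFun h1 k
      exact eq_one_of_mul_eq_one (hq.2.1 k) (hc.1 k) h3
    exact Subtype.ext h2

lemma X_pseudoUnstable : PseudoUnstable.{0} XSet xpt :=
  ⟨chain, inferInstance, 1, chain_isContinuum, chain_nontrivial, X_unstable⟩

lemma locHomeo : LocallyHomeomorphicAt XSet xpt YSet ypt := by
  have hYX : ∀ q : Amb, q ∈ YSet → 1 < q.1 → q ∈ XSet := by
    rintro q (hq | hq) h
    · exact hq
    · exact absurd hq.1.2 (not_le.2 h)
  refine ⟨{q : XSet | 1 < q.1.1}, {q : YSet | 1 < q.1.1}, ?_, ?_, ?_, ?_⟩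
  · exact (isOpen_lt continuous_const (continuous_fst.comp continuous_subtype_val)).mem_nhds
      (by simp [xpt])
  · exact (isOpen_lt continuous_const (continuous_fst.comp continuous_subtype_val)).mem_nhds
      (by simp [ypt])
  · exact
      { toFun := fun q => ⟨⟨q.1.1, Or.inl q.1.2⟩, q.2⟩
        invFun := fun q => ⟨⟨q.1.1, hYX _ q.1.2 q.2⟩, q.2⟩
        left_inv := fun q => rfl
        right_inv := fun q => rfl
        continuous_toFun := by fun_prop
        continuous_invFun := by fun_prop }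
  · rfl

/-- Every self-map of `Y` which is close to the identity has the base point in its image. -/
lemma Y_stable (g : YSet → YSet) (hg : Continuous g)
    (hclose : ∀ y : YSet, |(g y).1.1 - y.1.1| < 1 / 2) : ∃ y, g y = ypt := by
  -- the arc `[0, 3] × {1}`
  have hmem : ∀ t : ℝ, t ∈ Icc (0 : ℝ) 3 → ((t, 1) : Amb) ∈ YSet := by
    intro t ht
    by_cases h1 : t ≤ 1
    · exact Or.inr ⟨⟨ht.1, h1⟩, rfl⟩
    · exact Or.inl ⟨⟨(not_le.1 h1).le, ht.2⟩, chain.one_mem⟩
  have hproj : ∀ t : ℝ, ((projIcc (0 : ℝ) 3 (by norm_num) t : ℝ), (1 : ℕ → ℝ × ℂ)) ∈ YSet :=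
    fun t => hmem _ (projIcc (0 : ℝ) 3 (by norm_num) t).2
  set γ : ℝ → YSet := fun t => g ⟨_, hproj t⟩ with hγdef
  have hγ : Continuous γ := by
    refine hg.comp (Continuous.subtype_mk ?_ _)
    exact (continuous_subtype_val.comp continuous_projIcc).prodMk continuous_const
  have hγ0 : |(γ 0).1.1 - 0| < 1 / 2 := by
    have := hclose ⟨_, hproj 0⟩
    simpa [hγdef, projIcc] using this
  have hγ3 : |(γ 3).1.1 - 3| < 1 / 2 := by
    have := hclose ⟨_, hproj 3⟩
    simpa [hγdef, projIcc] using this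
  rw [abs_lt] at hγ0 hγ3
  have hYchain : ∀ q : YSet, q.1.2 ∈ chain := by
    rintro ⟨q, (hq | hq)⟩
    · exact hq.2
    · have : q.2 = 1 := hq.2
      simp only [this]; exact chain.one_mem
  have hstart : (γ 0).1.2 = 1 := by
    rcases (γ 0).2 with h | h
    · have := h.1.1
      linarith [hγ0.2]
    · exact h.2
  have hall : ∀ t, (γ t).1.2 = 1 :=
    chain_stay (fun t => (γ t).1.2) (continuous_snd.comp (continuous_subtype_val.comp hγ))
      (fun t => hYchain _) hstart
  obtain ⟨t, -, ht⟩ := intermediate_value_Icc (show (0 : ℝ) ≤ 3 by norm_num)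
    (f := fun t => (γ t).1.1) (continuous_fst.comp (continuous_subtype_val.comp hγ)).continuousOn
    (show (2 : ℝ) ∈ Icc (γ 0).1.1 (γ 3).1.1 from ⟨by linarith [hγ0.2], by linarith [hγ3.1]⟩)
  refine ⟨⟨_, hproj t⟩, ?_⟩
  apply Subtype.ext
  exact Prod.ext ht (hall t)

lemma Y_not_pseudoUnstable.{v} : ¬ PseudoUnstable.{v} YSet ypt := by
  rintro ⟨C, _, a, hC, hnt, G, hG, hGa, hGp⟩
  have := hC.compact
  have := hC.connected
  have := hC.metrizable
  have := YSet_continuum.compact
  have hev : ∀ᶠ c in 𝓝 a, ∀ y ∈ (univ : Set YSet), |(G (y, c)).1.1 - y.1.1| < 1 / 2 := by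
    refine isCompact_univ.eventually_forall_of_forall_eventually
      (P := fun c y => |(G (y, c)).1.1 - y.1.1| < 1 / 2) (fun y _ => ?_)
    have hcont : Continuous fun z : C × YSet => |(G (z.2, z.1)).1.1 - z.2.1.1| := by fun_prop
    refine (hcont.tendsto (a, y)).eventually (gt_mem_nhds ?_)
    simp only [hGa]
    simp
  obtain ⟨c, hc, hca⟩ : ∃ c, (∀ y ∈ (univ : Set YSet), |(G (y, c)).1.1 - y.1.1| < 1 / 2) ∧ c ≠ a := by
    have hne : (𝓝[≠] a).NeBot := inferInstance
    obtain ⟨c, hc1, hc2⟩ := ((hev.filter_mono nhdsWithin_le_nhds).and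
      (eventually_mem_nhdsWithin (a := a) (s := {a}ᶜ))).exists
    exact ⟨c, hc1, hc2⟩
  obtain ⟨y, hy⟩ := Y_stable (fun y => G (y, c)) (by fun_prop) (fun y => hc y (mem_univ _))
  exact hGp y c hca hy

end

end Pool.Agent.Helper30.Instab
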