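import Mathlib
open Set Topology Filter Metric

namespace Pool.Agent.Helper30.Instab

section Model

variable {V : Type*} [Fintype V]

/-- the support of a function on a finite set. -/
noncomputable def supp (z : V → ℝ) : Finset V := by
  classical exact Finset.univ.filter fun v => z v ≠ 0

lemma mem_supp {z : V → ℝ} {v : V} : v ∈ supp z ↔ z v ≠ 0 := by
  simp [supp]

/-- The geometric realization of an abstract simplicial complex with faces `F`. -/
def model (F : Set (Finset V)) : Set (V → ℝ) :=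
  {z | (∀ v, 0 ≤ z v) ∧ ∑ v, z v = 1 ∧ supp z ∈ F}

lemma supp_nonempty {z : V → ℝ} (h : 0 < ∑ v, z v) : (supp z).Nonempty := by
  by_contra hcon
  rw [Finset.not_nonempty_iff_eq_empty] at hcon
  have : ∑ v, z v = 0 := Finset.sum_eq_zero fun v _ => by
    by_contra hv
    have : v ∈ supp z := mem_supp.2 hv
    rw [hcon] at this
    simp at this
  linarith

lemma model_isClosed (F : Set (Finset V)) (hF : ∀ s ∈ F, ∀ t ⊆ s, t.Nonempty → t ∈ F) :
    IsClosed (model F) := by
  have h1 : model F = ⋃ s ∈ F, {z : V → ℝ | (∀ v, 0 ≤ z v) ∧ ∑ v, z v = 1 ∧ ∀ v, v ∉ s → z v = 0} := by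
    ext z
    simp only [model, mem_iUnion, exists_prop]
    constructor
    · rintro ⟨h1, h2, h3⟩
      exact ⟨supp z, h3, h1, h2, fun v hv => by simpa [mem_supp] using hv⟩
    · rintro ⟨s, hs, h1, h2, h3⟩
      refine ⟨h1, h2, hF s hs _ ?_ (supp_nonempty (by rw [h2]; norm_num))⟩
      intro v hv
      by_contra hvs
      exact mem_supp.1 hv (h3 v hvs)
  rw [h1]
  refine (toFinite F).isClosed_biUnion fun s _ => ?_
  have h2 : {z : V → ℝ | (∀ v, 0 ≤ z v) ∧ ∑ v, z v = 1 ∧ ∀ v, v ∉ s → z v = 0} =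
      (⋂ v, {z : V → ℝ | 0 ≤ z v}) ∩ ({z : V → ℝ | ∑ v, z v = 1} ∩
        ⋂ v, ⋂ (_ : v ∉ s), {z : V → ℝ | z v = 0}) := by
    ext z
    simp
  rw [h2]
  refine IsClosed.inter (isClosed_iInter fun v => isClosed_le continuous_const (by fun_prop))
    (IsClosed.inter (isClosed_eq (by fun_prop) continuous_const)
      (isClosed_iInter fun v => isClosed_iInter fun _ => isClosed_eq (by fun_prop) continuous_const))

lemma model_le_one {F : Set (Finset V)} {z : V → ℝ} (hz : z ∈ model F) (v : V) : z v ≤ 1 := by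
  rw [← hz.2.1]
  exact Finset.single_le_sum (fun u _ => hz.1 u) (Finset.mem_univ v)

lemma model_isCompact (F : Set (Finset V)) (hF : ∀ s ∈ F, ∀ t ⊆ s, t.Nonempty → t ∈ F) :
    IsCompact (model F) := by
  refine Metric.isCompact_of_isClosed_isBounded (model_isClosed F hF) ?_
  refine (Metric.isBounded_closedBall (x := (0 : V → ℝ)) (r := 1)).subset ?_
  intro z hz
  rw [mem_closedBall_zero_iff, pi_norm_le_iff_of_nonneg zero_le_one]
  intro v
  rw [Real.norm_eq_abs, abs_of_nonneg (hz.1 v)]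
  exact model_le_one hz v

/-- conical structure around any point of the model. -/
lemma model_cone (F : Set (Finset V)) (hF : ∀ s ∈ F, ∀ t ⊆ s, t.Nonempty → t ∈ F) {x : V → ℝ}
    (hx : x ∈ model F) : ∃ ρ₀ > 0, ∀ ρ, ρ ≤ ρ₀ → ∀ z ∈ model F, ‖z - x‖ < ρ → ∀ l : ℝ, 0 ≤ l →
      l * ‖z - x‖ < ρ → x + l • (z - x) ∈ model F := by
  have hne : (supp x).Nonempty := supp_nonempty (by rw [hx.2.1]; norm_num)
  refine ⟨(supp x).inf' hne x, ?_, ?_⟩
  · rw [gt_iff_lt, Finset.lt_inf'_iff]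
    intro v hv
    exact lt_of_le_of_ne (hx.1 v) (Ne.symm (mem_supp.1 hv))
  · intro ρ hρ z hz hzx l hl hlz
    have hρx : ∀ v, v ∈ supp x → ρ ≤ x v := fun v hv => hρ.trans (Finset.inf'_le _ hv)
    have hcoord : ∀ v, |z v - x v| ≤ ‖z - x‖ := fun v => by
      have := norm_le_pi_norm (z - x) v
      simpa using this
    have hzpos : ∀ v, v ∈ supp x → 0 < z v := by
      intro v hv
      have h1 := hρx v hv
      have h2 := hcoord v
      rw [abs_le] at h2
      linarith
    refine ⟨fun v => ?_, ?_, ?_⟩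
    · simp only [Pi.add_apply, Pi.smul_apply, Pi.sub_apply, smul_eq_mul]
      by_cases hv : v ∈ supp x
      · have h1 := hρx v hv
        have h2 := (abs_le.1 (hcoord v)).1
        nlinarith
      · have h1 : x v = 0 := by simpa [mem_supp] using hv
        rw [h1, sub_zero, zero_add]
        exact mul_nonneg hl (hz.1 v)
    · simp only [Pi.add_apply, Pi.smul_apply, Pi.sub_apply, smul_eq_mul]
      rw [Finset.sum_add_distrib, ← Finset.mul_sum, Finset.sum_sub_distrib, hx.2.1, hz.2.1]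
      ring
    · refine hF _ hz.2.2 _ ?_ ?_
      · intro v hv
        rw [mem_supp] at hv ⊢
        intro hzv
        apply hv
        have hvx : v ∉ supp x := fun h => by
          have := hzpos v h
          linarith
        have h1 : x v = 0 := by simpa [mem_supp] using hvx
        simp [h1, hzv]
      · refine supp_nonempty ?_
        simp only [Pi.add_apply, Pi.smul_apply, Pi.sub_apply, smul_eq_mul]
        rw [Finset.sum_add_distrib, ← Finset.mul_sum, Finset.sum_sub_distrib, hx.2.1, hz.2.1]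
        norm_num

/-- unnormalised equiconnecting function. -/
noncomputable def gg (q : (V → ℝ) × (V → ℝ) × ℝ) (v : V) : ℝ :=
  max (min (q.1 v) (q.2.1 v)) (max ((1 - 2 * q.2.2) * q.1 v) ((2 * q.2.2 - 1) * q.2.1 v))

/-- the equiconnecting function. -/
noncomputable def LL (q : (V → ℝ) × (V → ℝ) × ℝ) : V → ℝ :=
  (∑ v, gg q v)⁻¹ • gg q

lemma gg_continuous : Continuous (gg : (V → ℝ) × (V → ℝ) × ℝ → V → ℝ) := by
  unfold gg
  refine continuous_pi fun v => ?_
  have h1 : Continuous fun q : (V → ℝ) × (V → ℝ) × ℝ => q.1 v := (continuous_apply v).comp continuous_fst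
  have h2 : Continuous fun q : (V → ℝ) × (V → ℝ) × ℝ => q.2.1 v :=
    (continuous_apply v).comp (continuous_fst.comp continuous_snd)
  have h3 : Continuous fun q : (V → ℝ) × (V → ℝ) × ℝ => q.2.2 := continuous_snd.comp continuous_snd
  exact (h1.min h2).max (((continuous_const.sub (continuous_const.mul h3)).mul h1).max
    (((continuous_const.mul h3).sub continuous_const).mul h2))

lemma LL_continuousAt {q : (V → ℝ) × (V → ℝ) × ℝ} (h : ∑ v, gg q v ≠ 0) :
    ContinuousAt (LL : (V → ℝ) × (V → ℝ) × ℝ → V → ℝ) q := by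
  have hg : ∀ v, Continuous fun q : (V → ℝ) × (V → ℝ) × ℝ => gg q v := fun v =>
    (continuous_apply v).comp gg_continuous
  have hs : Continuous fun q : (V → ℝ) × (V → ℝ) × ℝ => ∑ v, gg q v :=
    continuous_finsetSum _ fun v _ => hg v
  refine continuousAt_pi.2 fun v => ?_
  have : (fun q : (V → ℝ) × (V → ℝ) × ℝ => LL q v) = fun q => (∑ v, gg q v)⁻¹ * gg q v := by
    funext q
    simp [LL]
  rw [this]
  exact (hs.continuousAt.inv₀ h).mul (hg v).continuousAt

lemma gg_nonneg {q : (V → ℝ) × (V → ℝ) × ℝ} (h1 : ∀ v, 0 ≤ q.1 v) (h2 : ∀ v, 0 ≤ q.2.1 v) (v : V) :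
    0 ≤ gg q v :=
  le_max_of_le_left (le_min (h1 v) (h2 v))

lemma gg_close {q : (V → ℝ) × (V → ℝ) × ℝ} (h1 : ∀ v, 0 ≤ q.1 v) (h2 : ∀ v, 0 ≤ q.2.1 v)
    (hτ : q.2.2 ∈ Icc (0 : ℝ) 1) (v : V) : |gg q v - q.1 v| ≤ ‖q.1 - q.2.1‖ := by
  have hc : |q.1 v - q.2.1 v| ≤ ‖q.1 - q.2.1‖ := by
    have := norm_le_pi_norm (q.1 - q.2.1) v
    simpa using this
  rw [abs_le] at hc
  have hn : 0 ≤ ‖q.1 - q.2.1‖ := norm_nonneg _
  have h1v := h1 v
  have h2v := h2 v
  have hτ0 := hτ.1
  have hτ1 := hτ.2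
  rw [abs_le]
  constructor
  · have : q.1 v - ‖q.1 - q.2.1‖ ≤ min (q.1 v) (q.2.1 v) := le_min (by linarith) (by linarith)
    have h3 : min (q.1 v) (q.2.1 v) ≤ gg q v := le_max_left _ _
    linarith
  · have : gg q v ≤ q.1 v + ‖q.1 - q.2.1‖ := by
      refine max_le ((min_le_left _ _).trans (by linarith)) (max_le ?_ ?_)
      · nlinarith
      · nlinarith
    linarith

lemma sum_gg {F : Set (Finset V)} {q : (V → ℝ) × (V → ℝ) × ℝ} (h1 : q.1 ∈ model F)
    (h2 : q.2.1 ∈ model F) (hτ : q.2.2 ∈ Icc (0 : ℝ) 1) :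
    |∑ v, gg q v - 1| ≤ Fintype.card V * ‖q.1 - q.2.1‖ := by
  rw [← h1.2.1, ← Finset.sum_sub_distrib]
  refine (Finset.abs_sum_le_sum_abs _ _).trans ?_
  refine (Finset.sum_le_sum fun v _ => gg_close h1.1 h2.1 hτ v).trans ?_
  simp

lemma sum_gg_pos {F : Set (Finset V)} {q : (V → ℝ) × (V → ℝ) × ℝ} (h1 : q.1 ∈ model F)
    (h2 : q.2.1 ∈ model F) (hτ : q.2.2 ∈ Icc (0 : ℝ) 1)
    (hclose : Fintype.card V * ‖q.1 - q.2.1‖ < 1) : 0 < ∑ v, gg q v := by
  have := (abs_le.1 (sum_gg h1 h2 hτ)).1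
  linarith

lemma LL_mem {F : Set (Finset V)} (hF : ∀ s ∈ F, ∀ t ⊆ s, t.Nonempty → t ∈ F)
    {q : (V → ℝ) × (V → ℝ) × ℝ} (h1 : q.1 ∈ model F)
    (h2 : q.2.1 ∈ model F) (hτ : q.2.2 ∈ Icc (0 : ℝ) 1)
    (hclose : Fintype.card V * ‖q.1 - q.2.1‖ < 1) : LL q ∈ model F := by
  have hS := sum_gg_pos h1 h2 hτ hclose
  have hsum : ∑ v, LL q v = 1 := by
    unfold LL
    simp only [Pi.smul_apply, smul_eq_mul]
    rw [← Finset.mul_sum, inv_mul_cancel₀ hS.ne']
  refine ⟨fun v => ?_, hsum, ?_⟩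
  · unfold LL
    simp only [Pi.smul_apply, smul_eq_mul]
    exact mul_nonneg (inv_nonneg.2 hS.le) (gg_nonneg h1.1 h2.1 v)
  · have hne : (supp (LL q)).Nonempty := supp_nonempty (by rw [hsum]; norm_num)
    rcases le_total q.2.2 (1 / 2) with h | h
    · refine hF _ h1.2.2 _ ?_ hne
      intro v hv
      rw [mem_supp] at hv ⊢
      intro h0
      apply hv
      have h2v := h2.1 v
      have : gg q v = 0 := by
        refine le_antisymm ?_ (gg_nonneg h1.1 h2.1 v)
        unfold gg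
        rw [h0]
        refine max_le (min_le_left _ _) (max_le (by simp) ?_)
        nlinarith
      unfold LL
      simp [this]
    · refine hF _ h2.2.2 _ ?_ hne
      intro v hv
      rw [mem_supp] at hv ⊢
      intro h0
      apply hv
      have h1v := h1.1 v
      have : gg q v = 0 := by
        refine le_antisymm ?_ (gg_nonneg h1.1 h2.1 v)
        unfold gg
        rw [h0]
        refine max_le (min_le_right _ _) (max_le ?_ (by simp))
        nlinarith
      unfold LL
      simp [this]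

lemma LL_close {F : Set (Finset V)} 
    {q : (V → ℝ) × (V → ℝ) × ℝ} (h1 : q.1 ∈ model F)
    (h2 : q.2.1 ∈ model F) (hτ : q.2.2 ∈ Icc (0 : ℝ) 1)
    (hclose : Fintype.card V * ‖q.1 - q.2.1‖ < 1) :
    ‖LL q - q.1‖ ≤ (Fintype.card V + 1) * ‖q.1 - q.2.1‖ := by
  have hS := sum_gg_pos h1 h2 hτ hclose
  rw [pi_norm_le_iff_of_nonneg (by positivity)]
  intro v
  have hgS : gg q v ≤ ∑ v, gg q v :=
    Finset.single_le_sum (fun u _ => gg_nonneg h1.1 h2.1 u) (Finset.mem_univ v)
  have hg0 := gg_nonneg h1.1 h2.1 v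
  have e : (LL q - q.1) v = gg q v / (∑ v, gg q v) * (1 - ∑ v, gg q v) + (gg q v - q.1 v) := by
    simp only [LL, Pi.sub_apply, Pi.smul_apply, smul_eq_mul]
    field_simp
    ring
  rw [e, Real.norm_eq_abs]
  refine (abs_add_le _ _).trans ?_
  have h3 : |gg q v / (∑ v, gg q v) * (1 - ∑ v, gg q v)| ≤ Fintype.card V * ‖q.1 - q.2.1‖ := by
    rw [abs_mul]
    have h4 : |gg q v / (∑ v, gg q v)| ≤ 1 := by
      rw [abs_of_nonneg (by positivity)]
      exact div_le_one_of_le₀ hgS hS.le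
    have h5 := sum_gg h1 h2 hτ
    rw [abs_sub_comm] at h5
    calc |gg q v / (∑ v, gg q v)| * |1 - ∑ v, gg q v| ≤ 1 * |1 - ∑ v, gg q v| := by gcongr
      _ ≤ _ := by rw [one_mul]; exact h5
  have h6 := gg_close h1.1 h2.1 hτ v
  linarith

lemma LL_zero {F : Set (Finset V)} {z w : V → ℝ} (h1 : z ∈ model F) (h2 : w ∈ model F) :
    LL (z, w, 0) = z := by
  have : gg (z, w, 0) = z := by
    funext v
    unfold gg
    have h1v := h1.1 v
    have h2v := h2.1 v
    simp only
    refine le_antisymm (max_le (min_le_left _ _) (max_le (by simp) (by linarith))) ?_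
    exact le_max_of_le_right (le_max_of_le_left (by simp))
  unfold LL
  rw [this, h1.2.1]
  simp

lemma LL_one {F : Set (Finset V)} {z w : V → ℝ} (h1 : z ∈ model F) (h2 : w ∈ model F) :
    LL (z, w, 1) = w := by
  have : gg (z, w, 1) = w := by
    funext v
    unfold gg
    have h1v := h1.1 v
    have h2v := h2.1 v
    simp only
    refine le_antisymm (max_le (min_le_right _ _) (max_le (by linarith) (by linarith))) ?_
    exact le_max_of_le_right (le_max_of_le_right (by linarith))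
  unfold LL
  rw [this, h2.2.1]
  simp

end Model

end Pool.Agent.Helper30.Instab
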