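import Mathlib
import Pool.Agent.Helper30.InstabDefs
import Pool.Agent.Helper30.InstabCone
import Pool.Agent.Helper30.InstabModel
open Set Topology Filter Metric

namespace Pool.Agent.Helper30.Instab

/-- If a point `y` of a space is pseudo-unstable and the space looks near `y` like a polyhedron `P`
near `p`, then `p` is unstable in `P` along the unit interval. -/
theorem model_unstable.{v} {V : Type*} [Fintype V] (F : Set (Finset V))
    (hF : ∀ s ∈ F, ∀ t ⊆ s, t.Nonempty → t ∈ F) (p : model F) {Y : Type*} [TopologicalSpace Y]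
    (e : OpenPartialHomeomorph (model F) Y) (hp : p ∈ e.source)
    (hY : PseudoUnstable.{v} Y (e p)) : UnstableAlong (model F) p unitInterval 0 := by
  obtain ⟨C, _, a, hC, hnt, G, hG, hGa, hGp⟩ := hY
  have := hC.compact
  have := hC.connected
  have := hC.metrizable
  have hPcomp : CompactSpace (model F) := isCompact_iff_compactSpace.1 (model_isCompact F hF)
  obtain ⟨ρ₀, hρ₀, hcone⟩ := model_cone F hF p.2
  obtain ⟨r, hr, hball⟩ := Metric.nhds_basis_closedBall.mem_iff.1 (e.open_source.mem_nhds hp)
  set ρ : ℝ := min ρ₀ (2 * r) with hρdef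
  have hρ : 0 < ρ := lt_min hρ₀ (by linarith)
  have hρr : ρ / 2 ≤ r := by
    have : ρ ≤ 2 * r := min_le_right _ _
    linarith
  set n : ℝ := (Fintype.card V : ℝ) with hn
  have hn0 : 0 ≤ n := by positivity
  set ε : ℝ := min 1 (ρ / 4) / (n + 1) with hε
  have hεpos : 0 < ε := div_pos (lt_min one_pos (by linarith)) (by linarith)
  have hε1 : ∀ d : ℝ, 0 ≤ d → d < ε → n * d < 1 ∧ (n + 1) * d < ρ / 4 := by
    intro d hd hdε
    have h1 : (n + 1) * d < min 1 (ρ / 4) := by
      rw [hε, lt_div_iff₀ (by linarith)] at hdε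
      linarith
    have h2 := h1.trans_le (min_le_left _ _)
    have h3 := h1.trans_le (min_le_right _ _)
    exact ⟨by nlinarith, h3⟩
  -- the compact ball
  set B : Set (model F) := closedBall p (ρ / 2) with hB
  have hBs : B ⊆ e.source := (closedBall_subset_closedBall hρr).trans hball
  have hBc : IsCompact B := isClosed_closedBall.isCompact
  have hev : ∀ᶠ c in 𝓝 a, ∀ z ∈ B, G (e z, c) ∈ e.target ∧ dist (e.symm (G (e z, c))) z < ε := by
    refine hBc.eventually_forall_of_forall_eventually
      (P := fun c z => G (e z, c) ∈ e.target ∧ dist (e.symm (G (e z, c))) z < ε) (fun z hz => ?_)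
    have hzs : z ∈ e.source := hBs hz
    have hψ : ContinuousAt (fun q : C × model F => G (e q.2, q.1)) (a, z) := by
      have h1 : ContinuousAt (fun q : C × model F => (e q.2, q.1)) (a, z) := by
        refine ContinuousAt.prodMk ?_ continuousAt_fst
        exact ContinuousAt.comp (f := Prod.snd) (g := e) (e.continuousAt hzs) continuousAt_snd
      exact ContinuousAt.comp (g := G) hG.continuousAt h1
    have hψ0 : G (e z, a) = e z := hGa _
    have hψt : G (e z, a) ∈ e.target := by rw [hψ0]; exact e.map_source hzs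
    have h1 : ∀ᶠ q : C × model F in 𝓝 (a, z), G (e q.2, q.1) ∈ e.target :=
      hψ.eventually (e.open_target.mem_nhds hψt)
    have h2 : ContinuousAt (fun q : C × model F => e.symm (G (e q.2, q.1))) (a, z) :=
      ContinuousAt.comp (f := fun q : C × model F => G (e q.2, q.1)) (g := e.symm)
        (e.continuousAt_symm hψt) hψ
    have h3 : ContinuousAt (fun q : C × model F => dist (e.symm (G (e q.2, q.1))) q.2) (a, z) :=
      h2.dist continuousAt_snd
    have h4 : ∀ᶠ q : C × model F in 𝓝 (a, z), dist (e.symm (G (e q.2, q.1))) q.2 < ε := by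
      refine h3.eventually (gt_mem_nhds ?_)
      simp only [hψ0, e.left_inv hzs, dist_self]
      exact hεpos
    exact h1.and h4
  obtain ⟨c, hc, hca⟩ : ∃ c, (∀ z ∈ B, G (e z, c) ∈ e.target ∧
      dist (e.symm (G (e z, c))) z < ε) ∧ c ≠ a := by
    have hne : (𝓝[≠] a).NeBot := inferInstance
    obtain ⟨c, hc1, hc2⟩ := ((hev.filter_mono nhdsWithin_le_nhds).and
      (eventually_mem_nhdsWithin (a := a) (s := {a}ᶜ))).exists
    exact ⟨c, hc1, hc2⟩
  -- the map `f`
  set f' : model F → model F := fun z => e.symm (G (e z, c)) with hf'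
  have hf'c : ContinuousOn f' B := by
    have h1 : ContinuousOn (fun z => G (e z, c)) B := by
      refine hG.comp_continuousOn ?_
      exact (e.continuousOn.mono hBs).prodMk continuousOn_const
    exact e.symm.continuousOn.comp h1 fun z hz => (hc z hz).1
  have hf'ne : ∀ z ∈ B, f' z ≠ p := by
    intro z hz h
    refine hGp (e z) c hca ?_
    rw [← h, hf', e.right_inv (hc z hz).1]
  classical
  set f : (V → ℝ) → (V → ℝ) := fun z => if h : z ∈ model F then (f' ⟨z, h⟩).1 else 0 with hf
  have hfv : ∀ z (h : z ∈ model F), f z = (f' ⟨z, h⟩).1 := fun z h => by simp [hf, h]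
  have hBmem : ∀ z (h : z ∈ model F), ‖z - p.1‖ ≤ ρ / 2 → (⟨z, h⟩ : model F) ∈ B := by
    intro z h hz
    rw [hB, mem_closedBall, Subtype.dist_eq, dist_eq_norm]
    exact hz
  have hfc : ContinuousOn f {z | z ∈ model F ∧ ‖z - p.1‖ ≤ ρ / 2} := by
    rw [continuousOn_iff_continuous_domRestrict]
    have h1 : Continuous fun z : {z | z ∈ model F ∧ ‖z - p.1‖ ≤ ρ / 2} => f' ⟨z.1, z.2.1⟩ :=
      hf'c.comp_continuous (by fun_prop) fun z => hBmem _ _ z.2.2
    refine (continuous_subtype_val.comp h1).congr fun z => ?_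
    simp only [Function.comp_apply, domRestrict_apply]
    rw [hfv _ z.2.1]
  obtain ⟨Φ, hΦc, hΦA, hΦ0, hΦne⟩ := cone_unstable (E := V → ℝ) (A := model F) (x := p.1) hρ
    (hcone ρ (min_le_left _ _)) (ε := ε) (LL (V := V))
    (by
      intro q hq
      refine (LL_continuousAt ?_).continuousWithinAt
      exact (sum_gg_pos hq.1 hq.2.1 hq.2.2.2 (hε1 _ (norm_nonneg _) hq.2.2.1).1).ne')
    (by
      intro z hz w hw hzw τ hτ
      have h1 := hε1 _ (norm_nonneg _) hzw
      exact ⟨LL_mem hF (q := (z, w, τ)) hz hw hτ h1.1,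
        (LL_close (q := (z, w, τ)) hz hw hτ h1.1).trans_lt h1.2⟩)
    (fun z hz w hw _ => LL_zero hz hw) (fun z hz w hw _ => LL_one hz hw) f hfc
    (by
      intro z hz hzx
      have hzB := hBmem z hz hzx
      rw [hfv z hz]
      refine ⟨(f' ⟨z, hz⟩).2, fun h => hf'ne _ hzB (Subtype.ext h), ?_⟩
      have := (hc _ hzB).2
      rw [dist_comm, Subtype.dist_eq, dist_eq_norm] at this
      exact this)
  refine ⟨fun q => ⟨Φ (q.1.1, q.2.1), hΦA _ q.1.2 _ q.2.2⟩, ?_, ?_, ?_⟩
  · refine Continuous.subtype_mk ?_ _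
    refine hΦc.comp_continuous ?_ fun q => ⟨q.1.2, q.2.2⟩
    fun_prop
  · intro z
    apply Subtype.ext
    exact hΦ0 z.1 z.2
  · intro z t ht h
    have ht0 : (0 : ℝ) < t.1 := by
      refine lt_of_le_of_ne t.2.1 fun h0 => ht ?_
      exact Subtype.ext h0.symm
    exact hΦne z.1 z.2 t.1 ⟨ht0, t.2.2⟩ (congrArg Subtype.val h)

/-- Instability along the unit interval is a local property. -/
theorem interval_unstable_local {X Y : Type*} [TopologicalSpace X] [TopologicalSpace Y]
    [CompactSpace Y] [T2Space Y] (e : OpenPartialHomeomorph X Y) {x : X} (hx : x ∈ e.source)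
    (hX : UnstableAlong X x unitInterval 0) : UnstableAlong Y (e x) unitInterval 0 := by
  obtain ⟨G, hG, hG0, hGx⟩ := hX
  obtain ⟨N, hN, hyN, hNt⟩ := exists_compact_subset e.open_target (e.map_source hx)
  obtain ⟨lam, hlam0, hlam1, hlamI⟩ := exists_continuous_zero_one_of_isClosed
    (s := (interior N)ᶜ) (t := {e x}) isOpen_interior.isClosed_compl isClosed_singleton
    (by
      rw [disjoint_singleton_right]
      exact fun h => h hyN)
  have hlamy : lam (e x) = 1 := hlam1 rfl
  have hev : ∀ᶠ t in 𝓝 (0 : unitInterval), ∀ v ∈ N, G (e.symm v, t) ∈ e.source := by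
    refine hN.eventually_forall_of_forall_eventually
      (P := fun t v => G (e.symm v, t) ∈ e.source) (fun v hv => ?_)
    have hvt : v ∈ e.target := hNt hv
    have h1 : ContinuousAt (fun q : unitInterval × Y => G (e.symm q.2, q.1)) (0, v) := by
      have h1 : ContinuousAt (fun q : unitInterval × Y => (e.symm q.2, q.1)) (0, v) := by
        refine ContinuousAt.prodMk ?_ continuousAt_fst
        exact ContinuousAt.comp (f := Prod.snd) (g := e.symm) (e.continuousAt_symm hvt)
          continuousAt_snd
      exact ContinuousAt.comp (g := G) hG.continuousAt h1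
    refine h1.eventually (e.open_source.mem_nhds ?_)
    simp only [hG0]
    exact e.map_target hvt
  obtain ⟨δ, hδ, hδG⟩ := Metric.eventually_nhds_iff.1 hev
  -- the scale
  set s : ℝ := min 1 (δ / 2) with hs
  have hs0 : 0 < s := lt_min one_pos (by linarith)
  have hs1 : s ≤ 1 := min_le_left _ _
  have hsδ : s < δ := (min_le_right _ _).trans_lt (by linarith)
  have hmem : ∀ q : Y × unitInterval, q.2.1 * lam q.1 * s ∈ Icc (0 : ℝ) 1 := by
    intro q
    have h1 := hlamI q.1
    have h2 := q.2.2
    have h3 : q.2.1 * lam q.1 ≤ 1 := mul_le_one₀ h2.2 h1.1 h1.2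
    have h4 : 0 ≤ q.2.1 * lam q.1 := mul_nonneg h2.1 h1.1
    exact ⟨by positivity, mul_le_one₀ h3 hs0.le hs1⟩
  set σ : Y × unitInterval → unitInterval := fun q => ⟨q.2.1 * lam q.1 * s, hmem q⟩ with hσ
  have hσc : Continuous σ := by
    refine Continuous.subtype_mk ?_ _
    fun_prop
  have hσδ : ∀ q, ∀ v ∈ N, G (e.symm v, σ q) ∈ e.source := by
    intro q v hv
    refine hδG ?_ v hv
    rw [Subtype.dist_eq, Real.dist_eq]
    have h1 := hlamI q.1
    have h2 := q.2.2
    have h3 : q.2.1 * lam q.1 ≤ 1 := mul_le_one₀ h2.2 h1.1 h1.2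
    have h4 : 0 ≤ q.2.1 * lam q.1 := mul_nonneg h2.1 h1.1
    have h5 : q.2.1 * lam q.1 * s ≤ s := by nlinarith
    have h6 : 0 ≤ q.2.1 * lam q.1 * s := by positivity
    have h7 : ((0 : unitInterval) : ℝ) = 0 := rfl
    simp only [hσ]
    rw [h7, sub_zero, abs_of_nonneg h6]
    linarith
  classical
  set H : Y × unitInterval → Y := fun q => if q.1 ∈ N then e (G (e.symm q.1, σ q)) else q.1 with hH
  have hHlam : ∀ q, lam q.1 = 0 → H q = q.1 := by
    intro q hq
    simp only [hH]
    split_ifs with h
    · have : σ q = 0 := by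
        apply Subtype.ext
        simp only [hσ, hq]
        simp
      rw [this, hG0, e.right_inv (hNt h)]
    · rfl
  refine ⟨H, ?_, ?_, ?_⟩
  · have hcov : (univ : Set (Y × unitInterval)) ⊆ {q | q.1 ∈ N} ∪ {q | lam q.1 = 0} := by
      intro q _
      by_cases h : q.1 ∈ N
      · exact Or.inl h
      · exact Or.inr (hlam0 fun h' => h (interior_subset h'))
    rw [← continuousOn_univ]
    refine ContinuousOn.mono (ContinuousOn.union_of_isClosed ?_ ?_ ?_ ?_) hcov
    · have h1 : ContinuousOn (fun q : Y × unitInterval => e (G (e.symm q.1, σ q)))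
          {q | q.1 ∈ N} := by
        have h2 : ContinuousOn (fun q : Y × unitInterval => G (e.symm q.1, σ q)) {q | q.1 ∈ N} := by
          refine hG.comp_continuousOn (ContinuousOn.prodMk ?_ hσc.continuousOn)
          exact e.symm.continuousOn.comp continuousOn_fst fun q hq => hNt hq
        exact e.continuousOn.comp h2 fun q hq => hσδ q _ hq
      refine h1.congr fun q hq => ?_
      have hq' : q.1 ∈ N := hq
      simp only [hH, hq', if_true]
    · exact continuousOn_fst.congr fun q hq => hHlam q hq
    · exact hN.isClosed.preimage continuous_fst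
    · exact isClosed_eq (by fun_prop) continuous_const
  · intro v
    simp only [hH]
    split_ifs with h
    · have : σ (v, 0) = 0 := by
        apply Subtype.ext
        simp only [hσ]
        simp
      rw [this, hG0, e.right_inv (hNt h)]
    · rfl
  · intro v t ht h
    have ht0 : (0 : ℝ) < t.1 := by
      refine lt_of_le_of_ne t.2.1 fun h0 => ht ?_
      exact Subtype.ext h0.symm
    rcases (hlamI v).1.eq_or_lt with h0 | h0
    · rw [hHlam (v, t) h0.symm] at h
      simp only at h
      rw [h, hlamy] at h0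
      exact zero_ne_one h0
    · by_cases hv : v ∈ N
      · simp only [hH, hv, if_true] at h
        have h1 : G (e.symm v, σ (v, t)) = x := e.injOn (hσδ _ v hv) hx h
        refine hGx _ _ ?_ h1
        intro h2
        have h3 : t.1 * lam v * s = 0 := congrArg Subtype.val h2
        have h4 : 0 < t.1 * lam v * s := by positivity
        linarith
      · have := hlam0 fun h' => hv (interior_subset h')
        simp only [Pi.zero_apply] at this
        linarith

end Pool.Agent.Helper30.Instab
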