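import Mathlib
import Pool.Agent.Helper30.InstabDefs
import Pool.Agent.Helper30.InstabModel
import Pool.Agent.Helper30.InstabLocal
open Set Topology Filter Metric

namespace Pool.Agent.Helper30.Instab

section Poly

universe u

variable {E : Type u} [AddCommGroup E] [Module ℝ E]

lemma weights_unique {K : Geometry.SimplicialComplex ℝ E} {s : Finset E} (hs : s ∈ K.faces)
    {w₁ w₂ : E → ℝ} (h1 : ∑ y ∈ s, w₁ y = 1) (h2 : ∑ y ∈ s, w₂ y = 1)
    (h : ∑ y ∈ s, w₁ y • y = ∑ y ∈ s, w₂ y • y) : ∀ y ∈ s, w₁ y = w₂ y := by
  have hind := (affineIndependent_iff_eq_of_fintype_affineCombination_eq ℝ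
    (fun x : s => (x : E))).1 (K.indep hs) (fun x => w₁ x) (fun x => w₂ x)
    (by rw [Finset.sum_coe_sort s w₁]; exact h1) (by rw [Finset.sum_coe_sort s w₂]; exact h2)
    (by
      rw [Finset.affineCombination_eq_linear_combination, Finset.affineCombination_eq_linear_combination]
      · rw [Finset.sum_coe_sort s fun y => w₁ y • y, Finset.sum_coe_sort s fun y => w₂ y • y]
        exact h
      · rw [Finset.sum_coe_sort s w₂]; exact h2
      · rw [Finset.sum_coe_sort s w₁]; exact h1)
  intro y hy
  exact congrFun hind ⟨y, hy⟩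

/-- Every finite simplicial complex is homeomorphic to a model. -/
theorem exists_model [TopologicalSpace E] [T2Space E] [ContinuousAdd E] [ContinuousSMul ℝ E]
    (K : Geometry.SimplicialComplex ℝ E) (hfin : K.faces.Finite) :
    ∃ (V : Type u) (_ : Fintype V) (F : Set (Finset V)),
      (∀ s ∈ F, ∀ t ⊆ s, t.Nonempty → t ∈ F) ∧ Nonempty (model F ≃ₜ K.space) := by
  classical
  set V0 : Finset E := hfin.toFinset.sup id with hV0
  have hsub : ∀ s ∈ K.faces, s ⊆ V0 := fun s hs =>
    Finset.le_sup (f := id) (hfin.mem_toFinset.2 hs)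
  set em : V0 ↪ E := Function.Embedding.subtype _ with hem
  set F : Set (Finset V0) := {s | s.map em ∈ K.faces} with hF
  have hFdown : ∀ s ∈ F, ∀ t ⊆ s, t.Nonempty → t ∈ F := by
    intro s hs t hts ht
    exact K.down_closed hs (Finset.map_subset_map.2 hts) (ht.map)
  refine ⟨V0, inferInstance, F, hFdown, ?_⟩
  -- extension of a function by zero
  set ext : (V0 → ℝ) → E → ℝ := fun z y => if h : y ∈ V0 then z ⟨y, h⟩ else 0 with hext
  have hextv : ∀ z (v : V0), ext z v = z v := fun z v => by simp [hext]
  have hsum1 : ∀ z : V0 → ℝ, ∑ v, z v = ∑ y ∈ (supp z).map em, ext z y := by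
    intro z
    rw [Finset.sum_map]
    have h1 : ∀ v : V0, ext z (em v) = z v := fun v => hextv z v
    simp only [h1]
    symm
    refine Finset.sum_subset (Finset.subset_univ _) fun v _ hv => ?_
    simpa [mem_supp] using hv
  have hsum2 : ∀ z : V0 → ℝ, ∑ v, z v • (v : E) = ∑ y ∈ (supp z).map em, ext z y • y := by
    intro z
    rw [Finset.sum_map]
    have h1 : ∀ v : V0, ext z (em v) • em v = z v • (v : E) := fun v => by
      rw [show ext z (em v) = z v from hextv z v]; rfl
    simp only [h1]
    symm
    refine Finset.sum_subset (Finset.subset_univ _) fun v _ hv => ?_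
    have : z v = 0 := by simpa [mem_supp] using hv
    simp [this]
  have hconv : ∀ z ∈ model F, ∑ v, z v • (v : E) ∈ convexHull ℝ (((supp z).map em : Finset E) : Set E) := by
    intro z hz
    rw [Finset.mem_convexHull']
    refine ⟨ext z, ?_, ?_, (hsum2 z).symm⟩
    · intro y hy
      obtain ⟨v, -, rfl⟩ := Finset.mem_map.1 hy
      have h1 : ext z (em v) = z v := hextv z v
      rw [h1]
      exact hz.1 v
    · rw [← hsum1, hz.2.1]
  have hinj : ∀ z ∈ model F, ∀ z' ∈ model F, ∑ v, z v • (v : E) = ∑ v, z' v • (v : E) → z = z' := by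
    intro z hz z' hz' h
    have hs : (supp z).map em ∈ K.faces := hz.2.2
    have hs' : (supp z').map em ∈ K.faces := hz'.2.2
    have hmem := K.inter_subset_convexHull hs hs' ⟨hconv z hz, h ▸ hconv z' hz'⟩
    rw [← Finset.coe_inter, Finset.mem_convexHull'] at hmem
    obtain ⟨w, -, hw1, hw2⟩ := hmem
    set I : Finset E := (supp z).map em ∩ (supp z').map em with hI
    set w' : E → ℝ := fun y => if y ∈ I then w y else 0 with hw'
    have key : ∀ s : Finset E, I ⊆ s → ∑ y ∈ s, w' y = 1 ∧
        ∑ y ∈ s, w' y • y = ∑ v, z v • (v : E) := by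
      intro s hIs
      constructor
      · rw [← hw1, ← Finset.sum_subset hIs (fun y _ hy => by simp [hw', hy])]
        refine Finset.sum_congr rfl fun y hy => by simp [hw', hy]
      · rw [← hw2, ← Finset.sum_subset hIs (fun y _ hy => by simp [hw', hy])]
        refine Finset.sum_congr rfl fun y hy => by simp [hw', hy]
    have k1 := key _ Finset.inter_subset_left
    have k2 := key _ Finset.inter_subset_right
    have e1 := weights_unique hs (w₁ := ext z) (w₂ := w') (by rw [← hsum1, hz.2.1]) k1.1
      (by rw [← hsum2, k1.2])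
    have e2 := weights_unique hs' (w₁ := ext z') (w₂ := w') (by rw [← hsum1, hz'.2.1]) k2.1
      (by rw [← hsum2, k2.2, h])
    have f1 : ∀ v : V0, z v = w' v := by
      intro v
      by_cases hv : z v = 0
      · rw [hv]
        have : (v : E) ∉ I := by
          intro hvI
          have := Finset.mem_of_mem_inter_left hvI
          obtain ⟨u, hu, huv⟩ := Finset.mem_map.1 this
          have huv' : u = v := Subtype.ext huv
          rw [huv', mem_supp] at hu
          exact hu hv
        simp [hw', this]
      · have := e1 v (Finset.mem_map.2 ⟨v, mem_supp.2 hv, rfl⟩)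
        rw [hextv] at this
        exact this
    have f2 : ∀ v : V0, z' v = w' v := by
      intro v
      by_cases hv : z' v = 0
      · rw [hv]
        have : (v : E) ∉ I := by
          intro hvI
          have := Finset.mem_of_mem_inter_right hvI
          obtain ⟨u, hu, huv⟩ := Finset.mem_map.1 this
          have huv' : u = v := Subtype.ext huv
          rw [huv', mem_supp] at hu
          exact hu hv
        simp [hw', this]
      · have := e2 v (Finset.mem_map.2 ⟨v, mem_supp.2 hv, rfl⟩)
        rw [hextv] at this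
        exact this
    funext v
    rw [f1, f2]
  set Ψ : model F → K.space := fun z => ⟨∑ v, z.1 v • (v : E),
    Geometry.SimplicialComplex.convexHull_subset_space z.2.2.2 (hconv z.1 z.2)⟩ with hΨ
  have hΨc : Continuous Ψ := by
    refine Continuous.subtype_mk ?_ _
    refine continuous_finsetSum _ fun v _ => ?_
    exact ((continuous_apply v).comp continuous_subtype_val).smul continuous_const
  have hΨinj : Function.Injective Ψ := by
    intro z z' h
    exact Subtype.ext (hinj z.1 z.2 z'.1 z'.2 (congrArg Subtype.val h))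
  have hΨsurj : Function.Surjective Ψ := by
    rintro ⟨q, hq⟩
    obtain ⟨s, hs, hqs⟩ := Geometry.SimplicialComplex.mem_space_iff.1 hq
    rw [Finset.mem_convexHull'] at hqs
    obtain ⟨w, hw0, hw1, hw2⟩ := hqs
    set z : V0 → ℝ := fun v => if (v : E) ∈ s then w v else 0 with hz
    have hpre : (supp z).map em ⊆ s := by
      intro y hy
      obtain ⟨v, hv, rfl⟩ := Finset.mem_map.1 hy
      rw [mem_supp] at hv
      by_contra hcon
      apply hv
      have : (v : E) ∉ s := hcon
      simp [hz, this]
    have hsV : ∀ y ∈ s, y ∈ V0 := fun y hy => hsub s hs hy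
    have hs1 : ∑ v : V0, z v = 1 := by
      rw [← hw1]
      have h1 : ∑ v : V0, z v = ∑ y ∈ V0, (if y ∈ s then w y else 0) :=
        Finset.sum_coe_sort V0 fun y => if y ∈ s then w y else 0
      rw [h1, Finset.sum_ite_mem, Finset.inter_eq_right.2 (hsub s hs)]
    have hs2 : ∑ v : V0, z v • (v : E) = q := by
      rw [← hw2]
      have h1 : ∑ v : V0, z v • (v : E) = ∑ y ∈ V0, (if y ∈ s then w y else 0) • y :=
        Finset.sum_coe_sort V0 fun y => (if y ∈ s then w y else 0) • y
      rw [h1]
      simp only [ite_smul, zero_smul]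
      rw [Finset.sum_ite_mem, Finset.inter_eq_right.2 (hsub s hs)]
    have hzm : z ∈ model F := by
      refine ⟨fun v => ?_, hs1, ?_⟩
      · simp only [hz]
        split_ifs with h
        · exact hw0 _ h
        · exact le_rfl
      · refine K.down_closed hs hpre ?_
        exact (supp_nonempty (by rw [hs1]; norm_num)).map
    exact ⟨⟨z, hzm⟩, Subtype.ext hs2⟩
  have : CompactSpace (model F) := isCompact_iff_compactSpace.1 (model_isCompact F hFdown)
  exact ⟨Continuous.homeoOfEquivCompactToT2 (f := Equiv.ofBijective Ψ ⟨hΨinj, hΨsurj⟩) hΨc⟩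

end Poly

end Pool.Agent.Helper30.Instab
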