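import Mathlib

/-!
The definition of a polyhedron, for the problem on the local nature of pseudo-instability.
-/

namespace Pool.Agent.Helper30.Instab

/-- A polyhedron: a space homeomorphic to the underlying space of a finite simplicial complex in
some Euclidean space, this underlying space being connected (in particular nonempty). -/
def IsPolyhedron (X : Type*) [TopologicalSpace X] : Prop :=
  ∃ (n : ℕ) (K : Geometry.SimplicialComplex ℝ (EuclideanSpace ℝ (Fin n))),
    K.faces.Finite ∧ IsConnected K.space ∧ Nonempty (X ≃ₜ K.space)

end Pool.Agent.Helper30.Instab
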