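import Mathlib
import Pool.Agent.Helper30.InstabDefs
import Pool.Agent.Helper30.InstabPolyDef
import Pool.Agent.Helper30.InstabLocal
import Pool.Agent.Helper30.InstabPoly

namespace Pool.Agent.Helper30.Instab

open Set Topology

/-- local homeomorphism data as an open partial homeomorphism. -/
lemma exists_openPartialHomeomorph {X Y : Type*} [TopologicalSpace X] [TopologicalSpace Y] {x : X}
    {y : Y} (h : LocallyHomeomorphicAt X x Y y) :
    ∃ e : OpenPartialHomeomorph X Y, x ∈ e.source ∧ e x = y := by
  classical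
  obtain ⟨U, V, hU, hV, g, hg⟩ := h
  have hxU : x ∈ U := mem_of_mem_nhds hU
  have hyV : y ∈ V := mem_of_mem_nhds hV
  set fw : X → Y := fun u => if hu : u ∈ U then (g ⟨u, hu⟩ : Y) else y with hfw
  set bw : Y → X := fun v => if hv : v ∈ V then (g.symm ⟨v, hv⟩ : X) else x with hbw
  have hfwU : ∀ u (hu : u ∈ U), fw u = g ⟨u, hu⟩ := fun u hu => by simp [hfw, hu]
  have hbwV : ∀ v (hv : v ∈ V), bw v = g.symm ⟨v, hv⟩ := fun v hv => by simp [hbw, hv]
  have hfwc : ContinuousOn fw U := by
    rw [continuousOn_iff_continuous_domRestrict]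
    refine (continuous_subtype_val.comp g.continuous).congr fun u => ?_
    simp only [Function.comp_apply, domRestrict_apply]
    rw [hfwU _ u.2]
  have hbwc : ContinuousOn bw V := by
    rw [continuousOn_iff_continuous_domRestrict]
    refine (continuous_subtype_val.comp g.symm.continuous).congr fun u => ?_
    simp only [Function.comp_apply, domRestrict_apply]
    rw [hbwV _ u.2]
  have hfwV : ∀ u ∈ U, fw u ∈ V := fun u hu => by rw [hfwU u hu]; exact (g _).2
  have hbwU : ∀ v ∈ V, bw v ∈ U := fun v hv => by rw [hbwV v hv]; exact (g.symm _).2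
  have hbf : ∀ u ∈ U, bw (fw u) = u := by
    intro u hu
    rw [hbwV _ (hfwV u hu)]
    have : (⟨fw u, hfwV u hu⟩ : V) = g ⟨u, hu⟩ := Subtype.ext (hfwU u hu)
    rw [this, g.symm_apply_apply]
  have hfb : ∀ v ∈ V, fw (bw v) = v := by
    intro v hv
    rw [hfwU _ (hbwU v hv)]
    have : (⟨bw v, hbwU v hv⟩ : U) = g.symm ⟨v, hv⟩ := Subtype.ext (hbwV v hv)
    rw [this, g.apply_symm_apply]
  refine ⟨{ toFun := fw, invFun := bw,
            source := interior U ∩ fw ⁻¹' interior V
            target := interior V ∩ bw ⁻¹' interior U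
            map_source' := ?_, map_target' := ?_, left_inv' := ?_, right_inv' := ?_
            continuousOn_toFun := ?_, continuousOn_invFun := ?_
            open_source := ?_, open_target := ?_ }, ?_, ?_⟩
  · rintro u ⟨hu1, hu2⟩
    refine ⟨hu2, ?_⟩
    rw [mem_preimage, hbf u (interior_subset hu1)]
    exact hu1
  · rintro v ⟨hv1, hv2⟩
    refine ⟨hv2, ?_⟩
    rw [mem_preimage, hfb v (interior_subset hv1)]
    exact hv1
  · rintro u ⟨hu1, -⟩
    exact hbf u (interior_subset hu1)
  · rintro v ⟨hv1, -⟩
    exact hfb v (interior_subset hv1)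
  · exact hfwc.mono fun u hu => interior_subset hu.1
  · exact hbwc.mono fun u hu => interior_subset hu.1
  · exact (hfwc.mono interior_subset).isOpen_inter_preimage isOpen_interior isOpen_interior
  · exact (hbwc.mono interior_subset).isOpen_inter_preimage isOpen_interior isOpen_interior
  · refine ⟨mem_interior_iff_mem_nhds.2 hU, ?_⟩
    rw [mem_preimage, hfwU x hxU, hg]
    exact mem_interior_iff_mem_nhds.2 hV
  · exact (hfwU x hxU).trans hg

lemma pseudoUnstable_of_interval.{v} {M : Type*} [TopologicalSpace M] {p : M}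
    (h : UnstableAlong M p unitInterval 0) : PseudoUnstable.{v} M p := by
  obtain ⟨F, hF, hF0, hFp⟩ := h
  refine ⟨ULift.{v} unitInterval, inferInstance, ⟨0⟩, ⟨inferInstance, ?_, ?_⟩, inferInstance,
    fun q => F (q.1, q.2.down), ?_, ?_, ?_⟩
  · exact Homeomorph.ulift.symm.surjective.connectedSpace Homeomorph.ulift.symm.continuous
  · exact (Homeomorph.ulift (X := unitInterval)).isEmbedding.metrizableSpace
  · exact hF.comp (continuous_fst.prodMk (continuous_uliftDown.comp continuous_snd))
  · exact fun z => hF0 z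
  · intro z c hc
    refine hFp z c.down fun h0 => hc ?_
    exact ULift.ext _ _ h0

/-- Let `X` be a polyhedron and `Y` a continuum, and let `x ∈ X` and `y ∈ Y` have homeomorphic
neighbourhoods, by a homeomorphism sending `x` to `y`. Then `x` is pseudo-unstable in `X` if and only
if `y` is pseudo-unstable in `Y`. -/
theorem local_polyhedra.{v₁, v₂, u, w} (X : Type u) [TopologicalSpace X] (Y : Type w) [TopologicalSpace Y]
    (x : X) (y : Y) (hX : IsPolyhedron X) (hY : IsContinuum Y)
    (h : LocallyHomeomorphicAt X x Y y) :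
    PseudoUnstable.{v₁} X x ↔ PseudoUnstable.{v₂} Y y := by
  obtain ⟨n, K, hfin, -, ⟨φ₀⟩⟩ := hX
  obtain ⟨V, _, F, hF, ⟨φ₁⟩⟩ := exists_model K hfin
  set φ : model F ≃ₜ X := φ₁.trans φ₀.symm with hφ
  obtain ⟨e, hxe, hexy⟩ := exists_openPartialHomeomorph h
  have hPc : CompactSpace (model F) := isCompact_iff_compactSpace.1 (model_isCompact F hF)
  have hXc : CompactSpace X := φ.compactSpace
  have hXt : T2Space X := φ.t2Space
  have hYc : CompactSpace Y := hY.compact
  have hYm := hY.metrizable
  have hYt : T2Space Y := inferInstance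
  set p : model F := φ.symm x with hp
  have hφp : φ p = x := φ.apply_symm_apply x
  set e₁ : OpenPartialHomeomorph (model F) X := φ.toOpenPartialHomeomorph with he₁
  have hp₁ : p ∈ e₁.source := mem_univ _
  have he₁p : e₁ p = x := hφp
  set e₂ : OpenPartialHomeomorph (model F) Y := e₁.trans e with he₂
  have hp₂ : p ∈ e₂.source := by
    rw [he₂, OpenPartialHomeomorph.trans_source]
    refine ⟨hp₁, ?_⟩
    rw [mem_preimage, he₁p]
    exact hxe
  have he₂p : e₂ p = y := by
    change e (e₁ p) = y
    rw [he₁p, hexy]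
  constructor
  · intro hpx
    have h1 : UnstableAlong (model F) p unitInterval 0 :=
      model_unstable F hF p e₁ hp₁ (by rw [he₁p]; exact hpx)
    have h2 := interval_unstable_local e₂ hp₂ h1
    rw [he₂p] at h2
    exact pseudoUnstable_of_interval h2
  · intro hpy
    have h1 : UnstableAlong (model F) p unitInterval 0 :=
      model_unstable F hF p e₂ hp₂ (by rw [he₂p]; exact hpy)
    have h2 := interval_unstable_local e₁ hp₁ h1
    rw [he₁p] at h2
    exact pseudoUnstable_of_interval h2

end Pool.Agent.Helper30.Instab
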